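import Pool.Agent.Run7.h780.TW.Stm2

/-!
# Isotropic systems for all elliptic curves: a definition for the statement
-/

set_option autoImplicit false

namespace Pool.Agent.Run7.h780.ZS

open scoped Classical in
/-- An isotropic system: a subgroup `Λ a b` of the points of each curve `E(a, b)` over `ℚ̄` such that, for
the elliptic curves, it contains infinitely many linearly independent points and all the torsion
points, and every zero-cycle on a product `E₁ × ⋯ × E_r` of elliptic curves which is of degree zero, with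
sum zero, and supported on the product of the groups of the system is rationally equivalent to zero. -/
def IsotropicSystem (Λ : (a b : AlgebraicClosure ℚ) → AddSubgroup (Pt a b)) : Prop :=
  (∀ a b, 4 * a ^ 3 + 27 * b ^ 2 ≠ 0 →
    ∃ Q : ℕ → Pt a b, LinearIndependent ℤ Q ∧ ∀ n, Q n ∈ Λ a b) ∧
  (∀ a b, ∀ (T : Pt a b) (n : ℕ), n ≠ 0 → n • T = 0 → T ∈ Λ a b) ∧
  ∀ (r : ℕ) (a b : Fin r → AlgebraicClosure ℚ), (∀ i, 4 * a i ^ 3 + 27 * b i ^ 2 ≠ 0) →
    ∀ Z : ((i : Fin r) → Pt (a i) (b i)) →₀ ℤ, (∀ x ∈ Z.support, ∀ i, x i ∈ Λ (a i) (b i)) →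
      Z.sum (fun _ m => m) = 0 → Z.sum (fun x m => m • x) = 0 → Z ∈ RatEquiv a b

end Pool.Agent.Run7.h780.ZS
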