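import Pool.Agent.Run7.h780.TW.Stm2

/-!
# Zero-cycles on products of punctured elliptic curves: a definition for the statement
-/

set_option autoImplicit false

namespace Pool.Agent.Run7.h780.ZS

open WeierstrassCurve

/-- The zero-cycle `Z` is rationally equivalent to zero on the open subvariety `V` of the product of the
curves `E(a i, b i)` whose points are the points with all coordinates different from the origin: its
restriction to `V` is the restriction of a zero-cycle which is rationally equivalent to zero on the
product. -/
def TrivialOnOpen {k : Type} [Field k] {r : ℕ} (a b : Fin r → k)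
    (Z : ((i : Fin r) → Pt (a i) (b i)) →₀ ℤ) : Prop :=
  ∃ z ∈ RatEquiv a b, ∀ u : (i : Fin r) → Pt (a i) (b i), (∀ i, u i ≠ 0) → Z u = z u

end Pool.Agent.Run7.h780.ZS
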