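import Pool.Agent.Run7.h780.ZC.Stm

/-!
# Zero-cycles on products of elliptic curves: definitions for the statement
-/

set_option autoImplicit false

namespace Pool.Agent.Run7.h780.ZS

open WeierstrassCurve

/-- The family `P` of `Ω`-points of the product of the curves `E(a i, b i)` is stable under the
automorphisms of `Ω` over `k(t)`: it is an effective zero-cycle over `k(t)` on the product. -/
def StableFamily {k : Type} [Field k] {r : ℕ} {a b : Fin r → k} {n : ℕ}
    (P : Fin n → (i : Fin r) → Pt (io k (a i)) (io k (b i))) : Prop :=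
  ∀ σ : Om k ≃ₐ[RatFunc k] Om k, ∃ π : Equiv.Perm (Fin n), ∀ j i,
    coords (P (π j) i) = (coords (P j i)).map (Prod.map σ σ)

/-- The group of the zero-cycles over `k` on the product of the curves `E(a i, b i)`, `i < r`, which are
rationally equivalent to zero.  It is generated by the differences of the specialisations at `t = 0` and at
`t = ∞` of the effective zero-cycles over `k(t)`. -/
noncomputable def RatEquiv {k : Type} [Field k] {r : ℕ} (a b : Fin r → k) :
    AddSubgroup (((i : Fin r) → Pt (a i) (b i)) →₀ ℤ) :=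
  AddSubgroup.closure {z | ∃ (n : ℕ) (P : Fin n → (i : Fin r) → Pt (io k (a i)) (io k (b i)))
    (w w' : ValuationSubring (Om k)) (p p' : Fin n → (i : Fin r) → Pt (a i) (b i)), StableFamily P ∧
    (∀ e : k, io k e ∈ w) ∧ w.valuation (tv k) < 1 ∧
    (∀ e : k, io k e ∈ w') ∧ w'.valuation (tv k)⁻¹ < 1 ∧
    (∀ j i, Specializes w (P j i) (p j i)) ∧ (∀ j i, Specializes w' (P j i) (p' j i)) ∧
    z = ∑ j, (Finsupp.single (p j) 1 - Finsupp.single (p' j) 1)}

end Pool.Agent.Run7.h780.ZS
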