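import Pool.Agent.Run7.h780.TW.Big

/-!
# The system for all curves
-/

set_option autoImplicit false
set_option linter.all false

namespace Pool.Agent.Run7.h780.TW

open WeierstrassCurve Pool.Agent.H901R3.MS Pool.Agent.Run7.h780.ZC Pool.Agent.Run7.h780.GR
open scoped Classical

variable {a₀ b₀ : AlgebraicClosure ℚ}

/-- **infinitely many independent points, from a threshold on** -/
theorem exists_indep2 {A : Type} [AddCommGroup A] (R : ℕ → A)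
    (h : ∀ n₀, ∃ n, n₀ ≤ n ∧ ∃ G : A →+ A, (∀ m < n, G (R m) = R m) ∧ G (R n) = -R n)
    (n₁ : ℕ) (hR : ∀ n, n₁ ≤ n → ∀ m : ℕ, m ≠ 0 → m • R n ≠ 0) :
    ∃ φ : ℕ → ℕ, StrictMono φ ∧ LinearIndependent ℤ fun j => R (φ j) := by
  have hfr : ∃ᶠ n in Filter.atTop, n₁ ≤ n ∧ ∃ G : A →+ A, (∀ m < n, G (R m) = R m) ∧
      G (R n) = -R n := by
    rw [Filter.frequently_atTop]
    intro n₀
    obtain ⟨n, hn, hG⟩ := h (max n₀ n₁)
    exact ⟨n, (le_max_left _ _).trans hn, (le_max_right _ _).trans hn, hG⟩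
  obtain ⟨φ, hφ, hall⟩ := Filter.extraction_of_frequently_atTop hfr
  refine ⟨φ, hφ, ?_⟩
  rw [linearIndependent_iff]
  intro l hl
  by_contra hne
  have hsup : l.support.Nonempty := Finsupp.support_nonempty_iff.2 hne
  obtain ⟨K, hK⟩ : ∃ K, K = l.support.max' hsup := ⟨_, rfl⟩
  have hKm : K ∈ l.support := by rw [hK]; exact Finset.max'_mem _ _
  obtain ⟨-, G, hG1, hG2⟩ := hall K
  rw [Finsupp.linearCombination_apply, Finsupp.sum] at hl
  have h2 : ∑ j ∈ l.support, l j • G (R (φ j)) = 0 := by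
    have := congrArg G hl
    rw [map_sum, map_zero] at this
    simpa only [map_zsmul] using this
  have h3 : ∑ j ∈ l.support, l j • (R (φ j) - G (R (φ j))) = 0 := by
    simp only [smul_sub, Finset.sum_sub_distrib]
    rw [hl, h2, sub_zero]
  rw [Finset.sum_eq_single K] at h3
  · rw [hG2, sub_neg_eq_add, ← two_zsmul, smul_smul] at h3
    have h4 : (l K * 2).natAbs • R (φ K) = 0 := by
      rcases Int.natAbs_eq (l K * 2) with h | h
      · rw [← natCast_zsmul, ← h]; exact h3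
      · rw [← natCast_zsmul]
        have : ((l K * 2).natAbs : ℤ) = -(l K * 2) := by omega
        rw [this, neg_smul, h3, neg_zero]
    refine hR _ (hall K).1 _ ?_ h4
    have := Finsupp.mem_support_iff.1 hKm
    omega
  · intro j hj hjK
    have hlt : j < K := lt_of_le_of_ne (by rw [hK]; exact Finset.le_max' _ _ hj) hjK
    rw [hG1 _ (hφ hlt), sub_self, smul_zero]
  · exact fun h => absurd hKm h

/-- the norms along the chain of a curve -/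
lemma chain_norms (c : Ch a₀ b₀) {θ : AlgebraicClosure ℚ →+* PadicAlgCl 2}
    (h0 : ‖θ (c.N 0).K‖ < 1 ∨ (‖θ (c.N 0).K‖ = 1 ∧ ‖θ (1 - (c.N 0).K)‖ = 1)) (n : ℕ) :
    (‖θ (c.N n).K‖ < 1 ∨ (‖θ (c.N n).K‖ = 1 ∧ ‖θ (1 - (c.N n).K)‖ = 1)) ∧
      ‖θ (1 + c.g n)‖ = 1 ∧ ‖θ (c.N (n + 1)).K‖ < 1 := by
  have key : ∀ n, (‖θ (c.N n).K‖ < 1 ∨ (‖θ (c.N n).K‖ = 1 ∧ ‖θ (1 - (c.N n).K)‖ = 1)) →
      ‖θ (1 + c.g n)‖ = 1 ∧ ‖θ (c.N (n + 1)).K‖ < 1 := by
    intro n h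
    have hsq : ‖θ (c.g n)‖ ^ 2 = ‖θ (c.N n).K‖ := by rw [← norm_pow, ← map_pow, c.g_sq]
    rcases h with h | ⟨h, h'⟩
    · refine ⟨?_, (step_norm (κ := θ (c.N n).K) (σ := θ (c.g n)) (κ' := θ (c.N (n + 1)).K)
        (by rw [← map_pow, c.g_sq]) (by
          rw [c.K_succ, map_div₀, map_mul, map_pow, map_add, map_one, map_ofNat]) h).2⟩
      have h2 : ‖θ (c.g n)‖ < 1 := by
        by_contra hcon
        push Not at hcon
        have : 1 ≤ ‖θ (c.g n)‖ ^ 2 := one_le_pow₀ hcon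
        rw [hsq] at this
        linarith
      rw [map_add, map_one, dom (by rw [norm_one]; exact h2), norm_one]
    · refine ⟨?_, by rw [c.hN]; exact K_second _ (c.hs n) h h'⟩
      have nσ : ‖θ (c.g n)‖ = 1 := by
        rw [h] at hsq
        exact (pow_eq_one_iff_of_nonneg (norm_nonneg _) two_ne_zero).1 hsq
      rw [map_add, map_one]
      apply unit_of_mul (y := 1 - θ (c.g n)) (add_le (by rw [norm_one]) nσ.le)
        (sub_le (by rw [norm_one]) nσ.le)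
      have e : (1 + θ (c.g n)) * (1 - θ (c.g n)) = θ (1 - (c.N n).K) := by
        rw [← c.g_sq, map_sub, map_one, map_pow]; ring
      rw [e]; exact h'
  have hall : ∀ n, (‖θ (c.N n).K‖ < 1 ∨ (‖θ (c.N n).K‖ = 1 ∧ ‖θ (1 - (c.N n).K)‖ = 1)) := by
    intro n
    induction n with
    | zero => exact h0
    | succ n ih => exact Or.inl (key n ih).2
  exact ⟨hall n, key n (hall n)⟩

lemma one_sub_norm {θ : AlgebraicClosure ℚ →+* PadicAlgCl 2} {z : AlgebraicClosure ℚ}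
    (h : ‖θ z‖ < 1 ∨ (‖θ z‖ = 1 ∧ ‖θ (1 - z)‖ = 1)) : ‖θ (1 - z)‖ = 1 ∧ ‖θ z‖ ≤ 1 := by
  rcases h with h | h
  · refine ⟨?_, h.le⟩
    rw [map_sub, map_one, dom_sub (by rw [norm_one]; exact h), norm_one]
  · exact ⟨h.2, h.1.le⟩

/-- the sizes of the differences of the roots -/
lemma chain_diffs (c : Ch a₀ b₀) {θ : AlgebraicClosure ℚ →+* PadicAlgCl 2}
    (h0 : ‖θ (c.N 0).K‖ < 1 ∨ (‖θ (c.N 0).K‖ = 1 ∧ ‖θ (1 - (c.N 0).K)‖ = 1)) (n : ℕ) :
    ‖θ ((c.N n).e₁ - (c.N n).e₂)‖ = ‖θ ((c.N 0).e₁ - (c.N 0).e₂)‖ ∧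
    ‖θ ((c.N n).e₁ - (c.N n).e₃)‖ ≤ ‖θ ((c.N 0).e₁ - (c.N 0).e₂)‖ ∧
    ‖θ ((c.N n).e₂ - (c.N n).e₃)‖ = ‖θ ((c.N 0).e₁ - (c.N 0).e₂)‖ := by
  have h12 : ‖θ ((c.N n).e₁ - (c.N n).e₂)‖ = ‖θ ((c.N 0).e₁ - (c.N 0).e₂)‖ := by
    induction n with
    | zero => rfl
    | succ n ih =>
      rw [c.diff_succ, map_mul, map_pow, norm_mul, norm_pow, (chain_norms c h0 n).2.1, one_pow,
        one_mul, ih]
  obtain ⟨k1, k2⟩ := one_sub_norm (chain_norms c h0 n).1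
  have n12 := sub_ne_zero.2 (c.N n).rt.n12
  refine ⟨h12, ?_, ?_⟩
  · have e : (c.N n).e₁ - (c.N n).e₃ = (c.N n).K * ((c.N n).e₁ - (c.N n).e₂) := by
      rw [Nd.K, kap, div_mul_cancel₀ _ n12]
    rw [e, map_mul, norm_mul, h12]
    exact mul_le_of_le_one_left (norm_nonneg _) k2
  · have e : (c.N n).e₂ - (c.N n).e₃ = -((1 - (c.N n).K) * ((c.N n).e₁ - (c.N n).e₂)) := by
      rw [Nd.K, kap]
      field_simp
      ring
    rw [e, map_neg, norm_neg, map_mul, norm_mul, k1, one_mul, h12]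

lemma chain_BG (c : Ch a₀ b₀) {θ : AlgebraicClosure ℚ →+* PadicAlgCl 2}
    {e₁ e₂ e₃ : AlgebraicClosure ℚ} {hrt : Rt a₀ b₀ e₁ e₂ e₃} (hc : c.N 0 = nd0 hrt)
    (h0 : ‖θ (c.N 0).K‖ < 1 ∨ (‖θ (c.N 0).K‖ = 1 ∧ ‖θ (1 - (c.N 0).K)‖ = 1)) (n : ℕ) :
    BG θ (c.N n) ‖θ ((c.N 0).e₁ - (c.N 0).e₂)‖ (4 ^ n) := by
  induction n with
  | zero => rw [hc, pow_zero]; exact BG_nd0 hrt _
  | succ n ih =>
    obtain ⟨d1, d2, d3⟩ := chain_diffs c h0 n
    rw [c.hN, pow_succ, mul_comm]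
    exact BG_next (norm_pos_iff.2 ((map_ne_zero θ).2 (sub_ne_zero.2 (c.N 0).rt.n12))) d1.le d2
      ih (c.hs n)

/-- **the independent points on one curve** -/
theorem one_curve2 {θ : AlgebraicClosure ℚ →+* PadicAlgCl 2} (hD : Disc a₀ b₀)
    {X : AlgebraicClosure ℚ} (hX0 : X ≠ 0) (hX : ‖θ X‖ ≤ 1 / 512) :
    ∃ P : ℕ → Pt a₀ b₀, LinearIndependent ℤ P ∧
      ∀ j, ∃ (N : Nd a₀ b₀) (y : AlgebraicClosure ℚ) (_ : X ≠ N.K)
        (h : (CV N.a N.b).toAffine.Nonsingular (xi N.e₁ N.e₂ N.e₃ X) y),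
          P j = 2 • N.f (Affine.Point.some _ _ h) := by
  obtain ⟨e₁, e₂, e₃, hrt, hlab⟩ := exists_label θ hD
  obtain ⟨c, h0, hc⟩ := exists_chain (nd0 hrt) (fun N s => Sgn (θ N.K) (θ (N.sg s))) (by
    intro N
    obtain ⟨s, hs⟩ := IsAlgClosed.exists_pow_nat_eq ((N.e₁ - N.e₂) * (N.e₁ - N.e₃)) (n := 2)
      (by norm_num)
    have h1 : (θ (N.sg s)) ^ 2 = θ N.K := by rw [← map_pow, sg_sq N hs]
    rcases exists_sgn h1 with h2 | h2
    · exact ⟨s, hs, h2⟩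
    · refine ⟨-s, by rw [neg_sq]; exact hs, ?_⟩
      have e : N.sg (-s) = -N.sg s := by unfold Nd.sg; rw [neg_div]
      rw [e, map_neg]
      exact h2)
  have hst : ‖θ (c.N 0).K‖ < 1 ∨ (‖θ (c.N 0).K‖ = 1 ∧ ‖θ (1 - (c.N 0).K)‖ = 1) := by
    rw [h0]; exact hlab
  obtain ⟨n, hn⟩ := exists_large (c.shift 1) (θ := θ) (by
    show ‖θ (c.N (0 + 1)).K‖ < 1
    exact (chain_norms c hst 0).2.2)
  obtain ⟨d, hd⟩ : ∃ d, d = (c.shift 1).shift n := ⟨_, rfl⟩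
  have hdN : ∀ j, d.N j = c.N (j + n + 1) := by
    intro j
    rw [hd]
    rfl
  have hd1 : 1 / 64 < ‖θ (d.N 0).K‖ := by
    rw [hd]
    show 1 / 64 < ‖θ ((c.shift 1).N (0 + n)).K‖
    rw [zero_add]; exact hn
  have hd2 : ‖θ (d.N 0).K‖ < 1 := by
    rw [hdN]
    exact (chain_norms c hst _).2.2
  have hd3 : Sgn (θ (d.N 0).K) (θ (d.g 0)) := by
    rw [hd]
    exact hc _
  obtain ⟨r₀, hr⟩ := IsAlgClosed.exists_pow_nat_eq
    (-(((d.N 0).e₁ - (d.N 0).e₂) * X * (1 - X))) (n := 2) (by norm_num)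
  have hge : ∀ j, 1 / 64 ≤ ‖θ (d.N j).K‖ := by
    intro j
    exact (le_min hd1.le (by norm_num)).trans (d.K_norm hd2 j).2
  have hlt : ∀ j, 4 * ‖θ X‖ < ‖θ (d.N j).K‖ := fun j => by linarith [hge j]
  have hXK : ∀ j, X ≠ (d.N j).K := by
    intro j h
    have h2 := hlt j
    rw [← h] at h2
    linarith [norm_nonneg (θ X)]
  have hq : ∀ j, ‖θ (X / (d.N j).K)‖ < 1 / 4 := by
    intro j
    have h2 := hlt j
    have h3 : 0 < ‖θ (d.N j).K‖ := norm_pos_iff.2 ((map_ne_zero θ).2 (d.K_ne j))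
    rw [map_div₀, norm_div, div_lt_iff₀ h3]
    linarith
  choose ρ hρ hρ1 using fun j => exists_rho θ (hq j)
  obtain ⟨M, hM⟩ : ∃ M, M = ‖θ ((c.N 0).e₁ - (c.N 0).e₂)‖ := ⟨_, rfl⟩
  have hM0 : 0 < M := by
    rw [hM]
    exact norm_pos_iff.2 ((map_ne_zero θ).2 (sub_ne_zero.2 (c.N 0).rt.n12))
  obtain ⟨C, hC, hCn⟩ := nontors_large θ a₀ b₀
  obtain ⟨n₁, hn₁⟩ := pow_unbounded_of_one_lt (C / M) (show (1 : ℝ) < 4 by norm_num)
  obtain ⟨φ, hφ, hli⟩ := exists_indep2 (d.R (d.y_ns hr hρ hXK))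
    (one_moved d (d.y_ns hr hρ hXK) hd2 hd3 hρ hρ1) n₁ (by
      intro j hj m hm
      have key : ∀ (i : ℕ), j ≤ i → ∀ (N' : Nd a₀ b₀)
          (hN' : N' = (c.N i).next (c.s i) (c.hs i)), 1 / 64 ≤ ‖θ N'.K‖ →
          ∀ (y : AlgebraicClosure ℚ)
          (hxy : (CV N'.a N'.b).toAffine.Nonsingular (xi N'.e₁ N'.e₂ N'.e₃ X) y),
          m • N'.f (Affine.Point.some _ _ hxy) ≠ 0 := by
        rintro i hi N' rfl hK y hxy
        obtain ⟨d1, d2, d3⟩ := chain_diffs c hst i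
        obtain ⟨t1, t2, t3⟩ := chain_diffs c hst (i + 1)
        rw [c.hN] at t1 t2 t3
        have hXlt : ‖θ X‖ < ‖θ ((c.N i).next (c.s i) (c.hs i)).K‖ := by linarith
        rw [← hM] at d1 d2 d3 t1 t2 t3
        have hBG := chain_BG c h0 hst i
        rw [← hM] at hBG
        obtain ⟨x', y', h', e1, e2⟩ := big_image hM0 d1 d2 d3 hBG (c.hs i) t1 t2 t3 hX0 hXlt hxy
        rw [e1]
        apply hCn _ _ _ _ m hm
        rw [e2]
        have nX0 : 0 < ‖θ X‖ := norm_pos_iff.2 ((map_ne_zero θ).2 hX0)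
        have h5 : M ≤ M * ‖θ ((c.N i).next (c.s i) (c.hs i)).K‖ / ‖θ X‖ := by
          rw [le_div_iff₀ nX0]
          exact mul_le_mul_of_nonneg_left hXlt.le hM0.le
        have h6 : C < 4 ^ n₁ * M := (div_lt_iff₀ hM0).1 hn₁
        have h7 : (4 : ℝ) ^ n₁ ≤ 4 ^ i := pow_le_pow_right₀ (by norm_num) (hj.trans hi)
        have h8 : (0 : ℝ) < 4 ^ i := by positivity
        nlinarith [mul_le_mul_of_nonneg_right h7 hM0.le, mul_le_mul_of_nonneg_left h5 h8.le]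
      have e : d.N j = (c.N (j + n)).next (c.s (j + n)) (c.hs (j + n)) := by
        rw [hdN, c.hN]
      exact key (j + n) (Nat.le_add_right _ _) _ e (hge j) _ _)
  refine ⟨fun j => 2 • d.R (d.y_ns hr hρ hXK) (φ j), ?_, ?_⟩
  · rw [linearIndependent_iff]
    intro l hl
    have h6 : Finsupp.linearCombination ℤ (fun j => d.R (d.y_ns hr hρ hXK) (φ j)) ((2 : ℤ) • l) =
        0 := by
      rw [map_zsmul, ← hl, Finsupp.linearCombination_apply, Finsupp.linearCombination_apply,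
        Finsupp.sum, Finsupp.sum, Finset.smul_sum]
      refine Finset.sum_congr rfl fun n _ => ?_
      module
    have h7 := linearIndependent_iff.1 hli _ h6
    exact (smul_eq_zero.1 h7).resolve_left (by norm_num)
  · intro j
    exact ⟨d.N (φ j), _, hXK _, d.y_ns hr hρ hXK (φ j), rfl⟩

end Pool.Agent.Run7.h780.TW
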