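import Pool.Agent.H901R3.MS.Defs

/-!
# The scaling of the coordinates is a homomorphism

Adapted from the starting file `Pool/Agent/K4H15/BW/Fld.lean`.
-/

set_option autoImplicit false
set_option linter.all false

namespace Pool.Agent.Run7.h780.TW

open WeierstrassCurve Pool.Agent.H901R3.MS

section tr

variable {N F : Type} [Field N] [Field F] [DecidableEq N] [DecidableEq F]

lemma cv_equation {K : Type} [Field K] {a b x y : K} :
    (CV a b).toAffine.Equation x y ↔ y ^ 2 = x ^ 3 + a * x + b := by
  rw [Affine.equation_iff]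
  simp only [CV, WeierstrassCurve.toAffine]
  constructor
  · intro h
    linear_combination h
  · intro h
    linear_combination h

lemma cv_negY {k : Type} [Field k] (A B x y : k) : (CV A B).toAffine.negY x y = -y := by
  simp [Affine.negY, CV, WeierstrassCurve.toAffine]

lemma cv_ns {k : Type} [Field k] {A B x y : k} : (CV A B).toAffine.Nonsingular x y ↔
    y ^ 2 = x ^ 3 + A * x + B ∧ (3 * x ^ 2 + A ≠ 0 ∨ 2 * y ≠ 0) := by
  rw [Affine.nonsingular_iff, cv_equation]
  refine and_congr_right fun _ => or_congr ?_ ?_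
  · simp only [CV, WeierstrassCurve.toAffine]
    refine not_congr ⟨fun h => ?_, fun h => ?_⟩
    · linear_combination -h
    · linear_combination -h
  · simp only [CV, WeierstrassCurve.toAffine]
    refine not_congr ⟨fun h => ?_, fun h => ?_⟩
    · linear_combination h
    · linear_combination h

lemma slope_tr (f : N →+* F) {s : F} (hs : s ≠ 0) {A B : N} {A' B' : F} (hA : A' = s ^ 4 * f A)
    (x1 x2 y1 y2 : N) :
    (CV A' B').toAffine.slope (s ^ 2 * f x1) (s ^ 2 * f x2) (s ^ 3 * f y1) (s ^ 3 * f y2) =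
      s * f ((CV A B).toAffine.slope x1 x2 y1 y2) := by
  have h2 : ∀ u w : N, s ^ 2 * f u = s ^ 2 * f w ↔ u = w := fun u w =>
    ⟨fun h => f.injective (mul_left_cancel₀ (pow_ne_zero 2 hs) h), fun h => by rw [h]⟩
  have h3 : ∀ u w : N, s ^ 3 * f u = -(s ^ 3 * f w) ↔ u = -w := fun u w =>
    ⟨fun h => f.injective (mul_left_cancel₀ (pow_ne_zero 3 hs) (by rw [h, map_neg]; ring)),
      fun h => by rw [h, map_neg]; ring⟩
  by_cases hx : x1 = x2
  · subst hx
    by_cases hy : y1 = -y2
    · rw [Affine.slope_of_Y_eq rfl (by rw [cv_negY]; exact (h3 _ _).2 hy),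
        Affine.slope_of_Y_eq rfl (by rw [cv_negY]; exact hy), map_zero, mul_zero]
    · rw [Affine.slope_of_Y_ne rfl (by rw [cv_negY]; exact fun h => hy ((h3 _ _).1 h)),
        Affine.slope_of_Y_ne rfl (by rw [cv_negY]; exact hy), cv_negY, cv_negY]
      simp only [CV, WeierstrassCurve.toAffine, map_div₀, map_add, map_sub, map_mul, map_pow,
        map_ofNat, map_zero, map_neg, hA]
      by_cases h0 : f y1 = 0
      · rw [h0]
        simp
      · by_cases h2' : (2 : F) = 0
        · have e1 : s ^ 3 * f y1 - -(s ^ 3 * f y1) = 0 := by linear_combination (s ^ 3 * f y1) * h2'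
          have e2 : f y1 - -f y1 = 0 := by linear_combination (f y1) * h2'
          rw [e1, e2, div_zero, div_zero, mul_zero]
        · have e2 : f y1 - -f y1 ≠ 0 := by
            have : f y1 - -f y1 = 2 * f y1 := by ring
            rw [this]
            exact mul_ne_zero h2' h0
          have e1 : s ^ 3 * f y1 - -(s ^ 3 * f y1) ≠ 0 := by
            have : s ^ 3 * f y1 - -(s ^ 3 * f y1) = s ^ 3 * (f y1 - -f y1) := by ring
            rw [this]
            exact mul_ne_zero (pow_ne_zero 3 hs) e2
          rw [div_eq_iff e1, mul_div_assoc', div_mul_eq_mul_div, eq_div_iff e2]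
          ring
  · rw [Affine.slope_of_X_ne (fun h => hx ((h2 _ _).1 h)), Affine.slope_of_X_ne hx]
    have e2 : f x1 - f x2 ≠ 0 := sub_ne_zero.2 fun h => hx (f.injective h)
    have e1 : s ^ 2 * f x1 - s ^ 2 * f x2 ≠ 0 := by
      rw [← mul_sub]
      exact mul_ne_zero (pow_ne_zero 2 hs) e2
    rw [map_div₀, map_sub, map_sub, div_eq_iff e1, mul_assoc, div_mul_eq_mul_div, eq_comm,
      mul_div_assoc', div_eq_iff e2]
    ring

/-- the transfer of points along a field homomorphism and a scaling -/
theorem exists_tr (f : N →+* F) {s : F} (hs : s ≠ 0) {A B : N} {A' B' : F}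
    (hA : A' = s ^ 4 * f A) (hB : B' = s ^ 6 * f B) :
    ∃ g : (CV A B).toAffine.Point →+ (CV A' B').toAffine.Point, Function.Injective g ∧
      ∀ x y h, ∃ h', g (Affine.Point.some x y h) =
        Affine.Point.some (s ^ 2 * f x) (s ^ 3 * f y) h' := by
  have hns : ∀ {x y : N}, (CV A B).toAffine.Nonsingular x y →
      (CV A' B').toAffine.Nonsingular (s ^ 2 * f x) (s ^ 3 * f y) := by
    intro x y h
    rw [cv_ns] at h ⊢
    obtain ⟨h1, h2⟩ := h
    refine ⟨?_, ?_⟩
    · have h3 := congrArg f h1
      simp only [map_add, map_mul, map_pow] at h3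
      rw [hA, hB]
      linear_combination s ^ 6 * h3
    · rcases h2 with h2 | h2
      · left
        have h3 : f (3 * x ^ 2 + A) ≠ 0 := (map_ne_zero f).2 h2
        have e : 3 * (s ^ 2 * f x) ^ 2 + A' = s ^ 4 * f (3 * x ^ 2 + A) := by
          rw [hA]
          simp only [map_add, map_mul, map_pow, map_ofNat]
          ring
        rw [e]
        exact mul_ne_zero (pow_ne_zero 4 hs) h3
      · right
        have h3 : f (2 * y) ≠ 0 := (map_ne_zero f).2 h2
        have e : 2 * (s ^ 3 * f y) = s ^ 3 * f (2 * y) := by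
          simp only [map_mul, map_ofNat]
          ring
        rw [e]
        exact mul_ne_zero (pow_ne_zero 3 hs) h3
  let g0 : (CV A B).toAffine.Point → (CV A' B').toAffine.Point := fun P => match P with
    | 0 => 0
    | Affine.Point.some _ _ h => Affine.Point.some _ _ (hns h)
  have hadd : ∀ P Q, g0 (P + Q) = g0 P + g0 Q := by
    rintro (_ | ⟨x1, y1, h1⟩) (_ | ⟨x2, y2, h2⟩)
    any_goals rfl
    have e2 : ∀ u w : N, s ^ 2 * f u = s ^ 2 * f w ↔ u = w := fun u w =>
      ⟨fun h => f.injective (mul_left_cancel₀ (pow_ne_zero 2 hs) h), fun h => by rw [h]⟩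
    have e3 : ∀ u w : N, s ^ 3 * f u = -(s ^ 3 * f w) ↔ u = -w := fun u w =>
      ⟨fun h => f.injective (mul_left_cancel₀ (pow_ne_zero 3 hs) (by rw [h, map_neg]; ring)),
        fun h => by rw [h, map_neg]; ring⟩
    by_cases hxy : x1 = x2 ∧ y1 = (CV A B).toAffine.negY x2 y2
    · have h3 : s ^ 2 * f x1 = s ^ 2 * f x2 := (e2 _ _).2 hxy.1
      have h4 : s ^ 3 * f y1 = (CV A' B').toAffine.negY (s ^ 2 * f x2) (s ^ 3 * f y2) := by
        rw [cv_negY]
        have := hxy.2
        rw [cv_negY] at this
        exact (e3 _ _).2 this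
      show g0 _ = Affine.Point.some _ _ (hns h1) + Affine.Point.some _ _ (hns h2)
      rw [Affine.Point.add_of_Y_eq hxy.1 hxy.2, Affine.Point.add_of_Y_eq h3 h4]
    · have hxy' : ¬ (s ^ 2 * f x1 = s ^ 2 * f x2 ∧
          s ^ 3 * f y1 = (CV A' B').toAffine.negY (s ^ 2 * f x2) (s ^ 3 * f y2)) := by
        rintro ⟨h3, h4⟩
        rw [cv_negY] at h4
        exact hxy ⟨(e2 _ _).1 h3, by rw [cv_negY]; exact (e3 _ _).1 h4⟩
      show g0 _ = Affine.Point.some _ _ (hns h1) + Affine.Point.some _ _ (hns h2)
      rw [Affine.Point.add_some hxy, Affine.Point.add_some hxy']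
      show Affine.Point.some _ _ _ = Affine.Point.some _ _ _
      have hsl := slope_tr (B := B) (B' := B') f hs hA x1 x2 y1 y2
      have hX : s ^ 2 * f ((CV A B).toAffine.addX x1 x2 ((CV A B).toAffine.slope x1 x2 y1 y2)) =
          (CV A' B').toAffine.addX (s ^ 2 * f x1) (s ^ 2 * f x2)
            ((CV A' B').toAffine.slope (s ^ 2 * f x1) (s ^ 2 * f x2) (s ^ 3 * f y1)
              (s ^ 3 * f y2)) := by
        rw [hsl]
        simp only [Affine.addX, CV, WeierstrassCurve.toAffine, map_add, map_sub, map_mul, map_pow,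
          map_zero]
        ring
      have hY : s ^ 3 * f ((CV A B).toAffine.addY x1 x2 y1
            ((CV A B).toAffine.slope x1 x2 y1 y2)) =
          (CV A' B').toAffine.addY (s ^ 2 * f x1) (s ^ 2 * f x2) (s ^ 3 * f y1)
            ((CV A' B').toAffine.slope (s ^ 2 * f x1) (s ^ 2 * f x2) (s ^ 3 * f y1)
              (s ^ 3 * f y2)) := by
        rw [hsl]
        simp only [Affine.addY, Affine.negAddY, Affine.negY, Affine.addX, CV,
          WeierstrassCurve.toAffine, map_add, map_sub, map_mul, map_pow, map_zero, map_neg]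
        ring
      simp only [Affine.Point.some.injEq]
      exact ⟨hX, hY⟩
  let g : (CV A B).toAffine.Point →+ (CV A' B').toAffine.Point :=
    { toFun := g0
      map_zero' := rfl
      map_add' := hadd }
  refine ⟨g, ?_, fun x y h => ⟨hns h, rfl⟩⟩
  rw [injective_iff_map_eq_zero]
  rintro (_ | ⟨x, y, h⟩) h0
  · rfl
  · exact absurd h0 (Affine.Point.some_ne_zero _)

end tr

end Pool.Agent.Run7.h780.TW
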