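import Pool.Agent.Run7.h780.TW.Uni
import Pool.Agent.Run7.h780.TW.Scale

/-!
# The points of the chain are close to the origin at the place above two
-/

set_option autoImplicit false
set_option linter.all false

namespace Pool.Agent.Run7.h780.TW

open WeierstrassCurve Pool.Agent.H901R3.MS Pool.Agent.Run7.h780.ZC Pool.Agent.Run7.h780.GR
open scoped Classical

/-- points with a large abscissa have infinite order -/
theorem nontors_large {p : ℕ} [Fact p.Prime] (θ : AlgebraicClosure ℚ →+* PadicAlgCl p)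
    (a₀ b₀ : AlgebraicClosure ℚ) : ∃ C : ℝ, 0 < C ∧ ∀ (x y : AlgebraicClosure ℚ)
      (h : (CV a₀ b₀).toAffine.Nonsingular x y), C < ‖θ x‖ → ∀ n : ℕ, n ≠ 0 →
        n • (Affine.Point.some x y h : Pt a₀ b₀) ≠ 0 := by
  have hp : p.Prime := Fact.out
  have hp1 : (1 : ℝ) < p := by exact_mod_cast hp.one_lt
  obtain ⟨m, hm⟩ : ∃ m, m = max 1 (max ‖θ a₀‖ ‖θ b₀‖) := ⟨_, rfl⟩
  have hm0 : 0 < m := by rw [hm]; exact lt_of_lt_of_le one_pos (le_max_left _ _)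
  obtain ⟨j, hj⟩ := exists_pow_lt_of_lt_one (show 0 < 1 / m by positivity)
    (inv_lt_one_of_one_lt₀ hp1)
  obtain ⟨s, hs⟩ : ∃ s : AlgebraicClosure ℚ, s = ((p : ℕ) : AlgebraicClosure ℚ) ^ j := ⟨_, rfl⟩
  have hs0 : s ≠ 0 := by
    rw [hs]
    exact pow_ne_zero _ (Nat.cast_ne_zero.2 hp.ne_zero)
  have ns : ‖θ s‖ = ((p : ℝ)⁻¹) ^ j := by
    rw [hs, map_pow, map_natCast, norm_pow, norm_p]
  have ns0 : 0 < ‖θ s‖ := norm_pos_iff.2 ((map_ne_zero θ).2 hs0)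
  have ns1 : ‖θ s‖ ≤ 1 := by
    rw [ns]
    exact pow_le_one₀ (by positivity) (inv_lt_one_of_one_lt₀ hp1).le
  have hsm : ‖θ s‖ * m ≤ 1 := by
    rw [ns]
    have := (lt_div_iff₀ hm0).1 hj
    exact this.le
  have na : ‖θ (s ^ 4 * a₀)‖ ≤ 1 := by
    rw [map_mul, map_pow, norm_mul, norm_pow]
    have h1 : ‖θ s‖ ^ 4 ≤ ‖θ s‖ := pow_le_of_le_one ns0.le ns1 (by norm_num)
    have h2 : ‖θ a₀‖ ≤ m := by rw [hm]; exact (le_max_left _ _).trans (le_max_right _ _)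
    calc ‖θ s‖ ^ 4 * ‖θ a₀‖ ≤ ‖θ s‖ * m := mul_le_mul h1 h2 (norm_nonneg _) ns0.le
      _ ≤ 1 := hsm
  have nb : ‖θ (s ^ 6 * b₀)‖ ≤ 1 := by
    rw [map_mul, map_pow, norm_mul, norm_pow]
    have h1 : ‖θ s‖ ^ 6 ≤ ‖θ s‖ := pow_le_of_le_one ns0.le ns1 (by norm_num)
    have h2 : ‖θ b₀‖ ≤ m := by rw [hm]; exact (le_max_right _ _).trans (le_max_right _ _)
    calc ‖θ s‖ ^ 6 * ‖θ b₀‖ ≤ ‖θ s‖ * m := mul_le_mul h1 h2 (norm_nonneg _) ns0.le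
      _ ≤ 1 := hsm
  refine ⟨(p : ℝ) ^ 2 / ‖θ s‖ ^ 2, by positivity, fun x y h hx n hn h0 => ?_⟩
  obtain ⟨g, -, hg⟩ := exists_tr (RingHom.id (AlgebraicClosure ℚ)) hs0
    (A := a₀) (B := b₀) (A' := s ^ 4 * a₀) (B' := s ^ 6 * b₀) rfl rfl
  obtain ⟨h', he⟩ := hg x y h
  have h3 : n • (Affine.Point.some _ _ h' : Pt (s ^ 4 * a₀) (s ^ 6 * b₀)) = 0 := by
    have h4 : g (n • (Affine.Point.some x y h : Pt a₀ b₀)) = 0 := by
      have h5 := congrArg g h0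
      rw [map_zero] at h5
      exact h5
    rw [map_nsmul, he] at h4
    exact h4
  refine nontors na nb h' ?_ hn h3
  have e : θ (s ^ 2 * (RingHom.id (AlgebraicClosure ℚ)) x) = θ s ^ 2 * θ x := by
    rw [RingHom.id_apply, map_mul, map_pow]
  rw [e, norm_mul, norm_pow]
  rw [div_lt_iff₀ (by positivity)] at hx
  linarith

section
variable {k : Type} [Field k] [IsAlgClosed k] [CharZero k] {a₀ b₀ : k}
  {θ : k →+* PadicAlgCl 2}

/-- the map multiplies the norms of the large abscissae by `C` -/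
def BG (θ : k →+* PadicAlgCl 2) (N : Nd a₀ b₀) (M C : ℝ) : Prop :=
  ∀ (x y : k) (h : (CV N.a N.b).toAffine.Nonsingular x y), M < ‖θ x‖ →
    ∃ x' y' h', N.f (Affine.Point.some x y h) = Affine.Point.some x' y' h' ∧
      ‖θ x'‖ = C * ‖θ x‖

lemma BG_nd0 {e₁ e₂ e₃ : k} (h : Rt a₀ b₀ e₁ e₂ e₃) (M : ℝ) : BG θ (nd0 h) M 1 := by
  intro x y hxy _
  exact ⟨x, y, hxy, rfl, (one_mul _).symm⟩

lemma n3 : ‖(3 : PadicAlgCl 2)‖ = 1 := by
  have : (3 : PadicAlgCl 2) = 1 + 2 := by norm_num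
  rw [this, dom (by rw [norm_one, n2]; norm_num), norm_one]

/-- the size of the roots -/
lemma size_e {N : Nd a₀ b₀} {M : ℝ} (h12 : ‖θ (N.e₁ - N.e₂)‖ ≤ M)
    (h13 : ‖θ (N.e₁ - N.e₃)‖ ≤ M) : ‖θ N.e₁‖ ≤ M ∧ ‖θ (N.e₂ - N.e₃)‖ ≤ M := by
  constructor
  · have e : 3 * θ N.e₁ = θ (N.e₁ - N.e₂) + θ (N.e₁ - N.e₃) := by
      rw [← map_add, ← map_ofNat θ 3, ← map_mul]
      congr 1
      linear_combination N.rt.sum
    have h1 : ‖3 * θ N.e₁‖ ≤ M := by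
      rw [e]
      exact (IsUltrametricDist.norm_add_le_max _ _).trans (max_le h12 h13)
    rwa [norm_mul, n3, one_mul] at h1
  · have e : θ (N.e₂ - N.e₃) = θ (N.e₁ - N.e₃) + -θ (N.e₁ - N.e₂) := by
      rw [← map_neg, ← map_add]
      congr 1
      ring
    rw [e]
    refine (IsUltrametricDist.norm_add_le_max _ _).trans (max_le h13 ?_)
    rw [norm_neg]; exact h12

lemma BG_next {N : Nd a₀ b₀} {M C : ℝ} (hM : 0 < M) (h12 : ‖θ (N.e₁ - N.e₂)‖ ≤ M)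
    (h13 : ‖θ (N.e₁ - N.e₃)‖ ≤ M) (h : BG θ N M C) {s : k}
    (hs : s ^ 2 = (N.e₁ - N.e₂) * (N.e₁ - N.e₃)) : BG θ (N.next s hs) M (4 * C) := by
  intro x y hxy hx
  obtain ⟨he1, h23⟩ := size_e h12 h13
  have hxy' : (CV (-4 * N.a - 15 * N.e₁ ^ 2) (-2 * N.e₁ * (11 * N.e₁ ^ 2 + 4 * N.a))).toAffine.Nonsingular
      x y := hxy
  have nx : ‖θ (x + 2 * N.e₁)‖ = ‖θ x‖ := by
    rw [map_add, map_mul, map_ofNat, dom]
    rw [norm_mul, n2]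
    linarith
  have hx2 : x + 2 * N.e₁ ≠ 0 := by
    intro h0
    rw [h0, map_zero, norm_zero] at nx
    linarith
  have nt : ‖θ (4 * N.a + 3 * N.e₁ ^ 2)‖ ≤ M ^ 2 := by
    rw [t_eq, map_neg, norm_neg, map_pow, norm_pow]
    exact pow_le_pow_left₀ (norm_nonneg _) h23 2
  have nq : ‖θ ((4 * N.a + 3 * N.e₁ ^ 2) / (x + 2 * N.e₁))‖ < ‖θ x‖ := by
    rw [map_div₀, norm_div, nx, div_lt_iff₀ (by linarith)]
    nlinarith
  have n1 : ‖θ ((x - (4 * N.a + 3 * N.e₁ ^ 2) / (x + 2 * N.e₁)) / 4)‖ = 4 * ‖θ x‖ := by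
    rw [map_div₀, norm_div, map_sub, dom_sub nq, map_ofNat, n4]
    ring
  have hf : (N.next s hs).f (Affine.Point.some _ _ hxy) =
      N.f (psi (iso_next N) (disc_next N) (Affine.Point.some x y hxy')) := rfl
  obtain ⟨x', y', h', e1, e2⟩ := h _ _
    ((nonsingular_iff (disc_next N)).2 ((iso_next N).eqn (fun h2 => (disc_next N)
      (by rw [h2, zero_mul])) hx2 (eqn_of hxy'))) (by rw [n1]; linarith)
  refine ⟨x', y', h', ?_, by rw [e2, n1]; ring⟩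
  rw [hf, psi_neg (iso_next N) (disc_next N) hxy' hx2]
  exact e1

/-- the image of the point with a small parameter -/
theorem big_image {N : Nd a₀ b₀} {M C : ℝ} (hM : 0 < M) (h12 : ‖θ (N.e₁ - N.e₂)‖ = M)
    (h13 : ‖θ (N.e₁ - N.e₃)‖ ≤ M) (h23 : ‖θ (N.e₂ - N.e₃)‖ = M) (h : BG θ N M C) {s : k}
    (hs : s ^ 2 = (N.e₁ - N.e₂) * (N.e₁ - N.e₃))
    (g12 : ‖θ ((N.next s hs).e₁ - (N.next s hs).e₂)‖ = M)
    (g13 : ‖θ ((N.next s hs).e₁ - (N.next s hs).e₃)‖ ≤ M)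
    (g23 : ‖θ ((N.next s hs).e₂ - (N.next s hs).e₃)‖ = M) {X y : k} (hX0 : X ≠ 0)
    (hX : ‖θ X‖ < ‖θ (N.next s hs).K‖)
    (hxy : (CV (N.next s hs).a (N.next s hs).b).toAffine.Nonsingular
      (xi (N.next s hs).e₁ (N.next s hs).e₂ (N.next s hs).e₃ X) y) :
    ∃ x' y' h', (N.next s hs).f (Affine.Point.some _ _ hxy) = Affine.Point.some x' y' h' ∧
      ‖θ x'‖ = C * (4 * (M * ‖θ (N.next s hs).K‖ / ‖θ X‖)) := by
  have nX0 : 0 < ‖θ X‖ := norm_pos_iff.2 ((map_ne_zero θ).2 hX0)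
  obtain ⟨e₁, he₁⟩ : ∃ e, e = (N.next s hs).e₁ := ⟨_, rfl⟩
  obtain ⟨e₂, he₂⟩ : ∃ e, e = (N.next s hs).e₂ := ⟨_, rfl⟩
  obtain ⟨e₃, he₃⟩ : ∃ e, e = (N.next s hs).e₃ := ⟨_, rfl⟩
  have he2' : e₂ = -2 * N.e₁ := he₂
  obtain ⟨κ, hκ⟩ : ∃ κ, κ = kap e₁ e₂ e₃ := ⟨_, rfl⟩
  have hκ' : (N.next s hs).K = κ := by rw [hκ, he₁, he₂, he₃]; rfl
  rw [hκ'] at hX ⊢
  have nκ0 : 0 < ‖θ κ‖ := lt_trans nX0 hX
  have nXκ : ‖θ (X - κ)‖ = ‖θ κ‖ := by
    have : θ (X - κ) = -(θ κ - θ X) := by rw [map_sub]; ring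
    rw [this, norm_neg, dom_sub hX]
  have hXκ : X - κ ≠ 0 := by
    intro h0
    rw [h0, map_zero, norm_zero] at nXκ
    linarith
  obtain ⟨x, hx⟩ : ∃ x, x = xi e₁ e₂ e₃ X := ⟨_, rfl⟩
  have hxe : x - e₂ = (e₃ - e₂) * X / (X - κ) := by
    rw [hx, xi, ← hκ]
    field_simp
    ring
  have n32 : ‖θ (e₃ - e₂)‖ = M := by
    have : e₃ - e₂ = -(e₂ - e₃) := by ring
    rw [this, map_neg, norm_neg, he₂, he₃]; exact g23
  have nxe : ‖θ (x - e₂)‖ = M * ‖θ X‖ / ‖θ κ‖ := by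
    rw [hxe, map_div₀, map_mul, norm_div, norm_mul, n32, nXκ]
  have hxe0 : 0 < ‖θ (x - e₂)‖ := by rw [nxe]; positivity
  have hx2 : x + 2 * N.e₁ ≠ 0 := by
    intro h0
    have : x - e₂ = 0 := by rw [he2']; linear_combination h0
    rw [this, map_zero, norm_zero] at hxe0
    exact lt_irrefl _ hxe0
  have ne2 : ‖θ e₂‖ ≤ M := by
    have h1 := (size_e (N := N) h12.le h13).1
    rw [he2', map_mul, map_neg, map_ofNat, norm_mul, norm_neg, n2]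
    linarith
  have nx : ‖θ x‖ ≤ M := by
    have : θ x = θ (x - e₂) + θ e₂ := by rw [← map_add]; congr 1; ring
    rw [this]
    refine (IsUltrametricDist.norm_add_le_max _ _).trans (max_le ?_ ne2)
    rw [nxe, div_le_iff₀ nκ0]
    exact mul_le_mul_of_nonneg_left hX.le hM.le
  have hxy' : (CV (-4 * N.a - 15 * N.e₁ ^ 2) (-2 * N.e₁ * (11 * N.e₁ ^ 2 + 4 * N.a))).toAffine.Nonsingular
      x y := by rw [hx, he₁, he₂, he₃]; exact hxy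
  have hf : (N.next s hs).f (Affine.Point.some _ _ hxy) =
      N.f (psi (iso_next N) (disc_next N) (Affine.Point.some x y hxy')) := by
    show N.f (psi (iso_next N) (disc_next N) (Affine.Point.some _ _ hxy)) = _
    congr 2
    rw [Affine.Point.some.injEq]
    exact ⟨by rw [hx, he₁, he₂, he₃], rfl⟩
  -- the abscissa of the image
  have nq : ‖θ ((4 * N.a + 3 * N.e₁ ^ 2) / (x + 2 * N.e₁))‖ = M * ‖θ κ‖ / ‖θ X‖ := by
    have h1 : x + 2 * N.e₁ = x - e₂ := by rw [he2']; ring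
    rw [t_eq, h1, map_div₀, norm_div, nxe, map_neg, norm_neg, map_pow, norm_pow, h23]
    field_simp
  have hbig : M < M * ‖θ κ‖ / ‖θ X‖ := by
    rw [lt_div_iff₀ nX0]
    exact mul_lt_mul_of_pos_left hX hM
  have nx1 : ‖θ ((x - (4 * N.a + 3 * N.e₁ ^ 2) / (x + 2 * N.e₁)) / 4)‖ =
      4 * (M * ‖θ κ‖ / ‖θ X‖) := by
    rw [map_div₀, norm_div, map_ofNat, n4, map_sub]
    have e : θ x - θ ((4 * N.a + 3 * N.e₁ ^ 2) / (x + 2 * N.e₁)) =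
        -(θ ((4 * N.a + 3 * N.e₁ ^ 2) / (x + 2 * N.e₁)) - θ x) := by ring
    rw [e, norm_neg, dom_sub (by rw [nq]; linarith), nq]
    ring
  obtain ⟨x', y', h2, e1, e2⟩ := h _ _
    ((nonsingular_iff (disc_next N)).2 ((iso_next N).eqn (fun h2 => (disc_next N)
      (by rw [h2, zero_mul])) hx2 (eqn_of hxy'))) (by rw [nx1]; linarith)
  refine ⟨x', y', h2, ?_, by rw [e2, nx1]⟩
  rw [hf, psi_neg (iso_next N) (disc_next N) hxy' hx2]
  exact e1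

end

end Pool.Agent.Run7.h780.TW
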