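import Pool.Agent.Run7.h780.TW.Start

/-!
# Infinitely many independent points with the same parameter
-/

set_option autoImplicit false
set_option linter.all false

namespace Pool.Agent.Run7.h780.TW

open WeierstrassCurve Pool.Agent.H901R3.MS Pool.Agent.Run7.h780.ZC Pool.Agent.Run7.h780.GR
open scoped Classical

variable {a₀ b₀ : AlgebraicClosure ℚ}

lemma Ch.gd (c : Ch a₀ b₀) {p : ℕ} [Fact p.Prime] (hp : 2 < p)
    {θp : AlgebraicClosure ℚ →+* PadicAlgCl p} (h : Gd θp (c.N 0)) (n : ℕ) : Gd θp (c.N n) := by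
  induction n with
  | zero => exact h
  | succ n ih => rw [c.hN]; exact ih.next hp (c.hs n)

/-- **the independent points** -/
theorem core (c : Ch a₀ b₀) {θ : AlgebraicClosure ℚ →+* PadicAlgCl 2}
    (h1 : ‖θ (c.N 0).K‖ < 1) (hs : Sgn (θ (c.N 0).K) (θ (c.g 0))) {p : ℕ} [Fact p.Prime]
    (hp : 2 < p) {θp : AlgebraicClosure ℚ →+* PadicAlgCl p} (hgd : Gd θp (c.N 0))
    (na : ‖θp a₀‖ ≤ 1) (nb : ‖θp b₀‖ ≤ 1) {X : AlgebraicClosure ℚ} (hX0 : X ≠ 0)
    (hX2 : 4 * ‖θ X‖ < min ‖θ (c.N 0).K‖ (1 / 16)) (hXp : (p : ℝ) ^ 2 * ‖θp X‖ < 1) :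
    ∃ (r₀ : AlgebraicClosure ℚ) (ρ : ℕ → AlgebraicClosure ℚ)
      (hr : r₀ ^ 2 = -(((c.N 0).e₁ - (c.N 0).e₂) * X * (1 - X)))
      (hρ : ∀ n, ρ n ^ 2 = 1 - X / (c.N n).K) (hX : ∀ n, X ≠ (c.N n).K) (φ : ℕ → ℕ),
      StrictMono φ ∧ LinearIndependent ℤ fun j => c.R (c.y_ns hr hρ hX) (φ j) := by
  obtain ⟨r₀, hr⟩ := IsAlgClosed.exists_pow_nat_eq
    (-(((c.N 0).e₁ - (c.N 0).e₂) * X * (1 - X))) (n := 2) (by norm_num)
  have hlt : ∀ n, 4 * ‖θ X‖ < ‖θ (c.N n).K‖ := fun n => hX2.trans_le (c.K_norm h1 n).2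
  have hX : ∀ n, X ≠ (c.N n).K := by
    intro n h
    have h2 := hlt n
    rw [← h] at h2
    linarith [norm_nonneg (θ X)]
  have hq : ∀ n, ‖θ (X / (c.N n).K)‖ < 1 / 4 := by
    intro n
    have h2 := hlt n
    have h3 : 0 < ‖θ (c.N n).K‖ := norm_pos_iff.2 ((map_ne_zero θ).2 (c.K_ne n))
    rw [map_div₀, norm_div, div_lt_iff₀ h3]
    linarith
  choose ρ hρ hρ1 using fun n => exists_rho θ (hq n)
  refine ⟨r₀, ρ, hr, hρ, hX, ?_⟩
  obtain ⟨φ, hφ, hφ0, hli⟩ := exists_indep (c.R (c.y_ns hr hρ hX))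
    (one_moved c (c.y_ns hr hρ hX) h1 hs hρ hρ1) (by
      intro n hn m hm
      obtain ⟨j, rfl⟩ := Nat.exists_eq_succ_of_ne_zero hn
      have key : ∀ (N' : Nd a₀ b₀) (hN' : N' = (c.N j).next (c.s j) (c.hs j))
          (y : AlgebraicClosure ℚ)
          (hxy : (CV N'.a N'.b).toAffine.Nonsingular (xi N'.e₁ N'.e₂ N'.e₃ X) y),
          m • N'.f (Affine.Point.some _ _ hxy) ≠ 0 := by
        rintro N' rfl y hxy
        exact inf_order hp (c.gd hp hgd j) na nb (c.hs j) hX0 hXp hxy hm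
      exact key _ (c.hN j) _ _)
  exact ⟨φ, hφ, hli⟩

/-- **all points are negated by the inertia group at `p`** -/
theorem neg_all (c : Ch a₀ b₀) {p : ℕ} [Fact p.Prime] (hp : 2 < p)
    {θp : AlgebraicClosure ℚ →+* PadicAlgCl p} (hgd : Gd θp (c.N 0))
    {g : AlgebraicClosure ℚ ≃ₐ[ℚ] AlgebraicClosure ℚ} (hg : Triv θp g)
    (hfix : ∀ z ∈ Ch.dt (c.N 0), g z = z) {X : AlgebraicClosure ℚ} (gX : g X = X)
    (nX : ‖θp X‖ < 1) {r₀ : AlgebraicClosure ℚ} {ρ : ℕ → AlgebraicClosure ℚ}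
    (hρ : ∀ n, ρ n ^ 2 = 1 - X / (c.N n).K) (gr : g r₀ = -r₀)
    (h : ∀ n, (CV (c.N n).a (c.N n).b).toAffine.Nonsingular
      (xi (c.N n).e₁ (c.N n).e₂ (c.N n).e₃ X) (c.y X r₀ ρ n)) (ga : g a₀ = a₀) (gb : g b₀ = b₀)
    (n : ℕ) : pmap (g : AlgebraicClosure ℚ →+* AlgebraicClosure ℚ) ga gb (c.R h n) =
      -c.R h n := by
  have hall : ∀ n, ∀ z ∈ Ch.dt (c.N n), g z = z := by
    intro n
    induction n with
    | zero => exact hfix
    | succ n ih =>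
      have hsn : g (c.s n) = c.s n := by
        apply fix_sqrt hp hg ((c.gd hp hgd n).s_norm (c.hs n))
        rw [c.hs, map_mul, map_sub, map_sub, ih _ (by simp [Ch.dt]), ih _ (by simp [Ch.dt]),
          ih _ (by simp [Ch.dt])]
      exact c.dt_up (RingHom.eqLocusField (g : AlgebraicClosure ℚ →+* AlgebraicClosure ℚ)
        (RingHom.id _)) ih hsn
  have hs : ∀ n, g (c.s n) = c.s n := by
    intro n
    apply fix_sqrt hp hg ((c.gd hp hgd n).s_norm (c.hs n))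
    rw [c.hs, map_mul, map_sub, map_sub, hall n _ (by simp [Ch.dt]),
      hall n _ (by simp [Ch.dt]), hall n _ (by simp [Ch.dt])]
  have hgg : ∀ n, g (c.g n) = c.g n := by
    intro n
    show g (c.s n / ((c.N n).e₁ - (c.N n).e₂)) = _
    rw [map_div₀, map_sub, hs, hall n _ (by simp [Ch.dt]), hall n _ (by simp [Ch.dt])]
    rfl
  have hK : ∀ n, g (c.N n).K = (c.N n).K := by
    intro n
    rw [← c.g_sq, map_pow, hgg]
  have hgρ : ∀ n, g (ρ n) = ρ n := by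
    intro n
    have h2 : ‖θp (ρ n)‖ = 1 := by
      have h3 : ‖θp (ρ n)‖ ^ 2 = 1 := by
        rw [← norm_pow, ← map_pow, hρ, map_sub, map_one, dom_sub, norm_one]
        rw [norm_one, map_div₀, norm_div, (c.gd hp hgd n).K, div_one]
        exact nX
      exact (pow_eq_one_iff_of_nonneg (norm_nonneg _) two_ne_zero).1 h3
    apply fix_sqrt hp hg h2
    rw [hρ, map_sub, map_one, map_div₀, gX, hK]
  apply act_neg (hall n) gX ga gb
  have hr := r_act c (r₀ := r₀) (g := g) (n := n) (δ := -1) (fun m _ => hgg m)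
    (by rw [gr]; push_cast; ring)
  have := y_act c (hall n) gX (hgρ n) (δ := -1) hr (ε := 1) (by rw [hgg]; push_cast; ring)
  rw [this]; push_cast; ring

end Pool.Agent.Run7.h780.TW
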