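import Pool.Agent.Run7.h780.TW.Sys

/-!
# Products of several elliptic curves
-/

set_option autoImplicit false
set_option linter.all false

namespace Pool.Agent.Run7.h780.TW

open WeierstrassCurve Pool.Agent.H901R3.MS Pool.Agent.Run7.h780.ZC Pool.Agent.Run7.h780.GR
open scoped Classical

section
variable {k : Type} [Field k] {r : ℕ}

/-- stable families -/
def StP {a b : Fin r → k} {n : ℕ}
    (P : Fin n → (i : Fin r) → Pt (io k (a i)) (io k (b i))) : Prop :=
  ∀ σ : Om k ≃ₐ[RatFunc k] Om k, ∃ π : Equiv.Perm (Fin n), ∀ j i,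
    coords (P (π j) i) = (coords (P j i)).map (Prod.map σ σ)

/-- rational equivalence on a product of `r` curves -/
noncomputable def REP (a b : Fin r → k) :
    AddSubgroup (((i : Fin r) → Pt (a i) (b i)) →₀ ℤ) :=
  AddSubgroup.closure {z | ∃ (n : ℕ) (P : Fin n → (i : Fin r) → Pt (io k (a i)) (io k (b i)))
    (w w' : ValuationSubring (Om k)) (p p' : Fin n → (i : Fin r) → Pt (a i) (b i)), StP P ∧
    (∀ e : k, io k e ∈ w) ∧ w.valuation (tv k) < 1 ∧
    (∀ e : k, io k e ∈ w') ∧ w'.valuation (tv k)⁻¹ < 1 ∧
    (∀ j i, Specializes w (P j i) (p j i)) ∧ (∀ j i, Specializes w' (P j i) (p' j i)) ∧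
    z = ∑ j, (Finsupp.single (p j) 1 - Finsupp.single (p' j) 1)}

/-- the image of a rational equivalence -/
theorem push_rep {a b : Fin r → k} {c d c' d' : k}
    (F : Pt c d → Pt c' d' → (i : Fin r) → Pt (a i) (b i))
    (G : Pt (io k c) (io k d) → Pt (io k c') (io k d') →
      (i : Fin r) → Pt (io k (a i)) (io k (b i)))
    (hG : ∀ (σ : Om k ≃ₐ[RatFunc k] Om k) P Q P' Q', coords P' = (coords P).map (Prod.map σ σ) →
      coords Q' = (coords Q).map (Prod.map σ σ) →
        ∀ i, coords (G P' Q' i) = (coords (G P Q i)).map (Prod.map σ σ))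
    (hS : ∀ w : ValuationSubring (Om k), (∀ e, io k e ∈ w) → ∀ P Q p q, Specializes w P p →
      Specializes w Q q → ∀ i, Specializes w (G P Q i) (F p q i))
    {z : (Pt c d × Pt c' d') →₀ ℤ} (hz : z ∈ RatEquivZero c d c' d') :
    Finsupp.mapDomain (fun q => F q.1 q.2) z ∈ REP a b := by
  have key : RatEquivZero c d c' d' ≤ (REP a b).comap
      (Finsupp.mapDomain.addMonoidHom (fun q => F q.1 q.2)) := by
    unfold RatEquivZero
    rw [AddSubgroup.closure_le]
    rintro z ⟨n, P, w, w', p, p', hst, h1, h2, h3, h4, h5, h6, rfl⟩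
    rw [SetLike.mem_coe, AddSubgroup.mem_comap]
    refine AddSubgroup.subset_closure ⟨n, fun j => G (P j).1 (P j).2, w, w',
      fun j => F (p j).1 (p j).2, fun j => F (p' j).1 (p' j).2, ?_, h1, h2, h3, h4, ?_, ?_, ?_⟩
    · intro σ
      obtain ⟨π, hπ⟩ := hst σ
      exact ⟨π, fun j => hG σ _ _ _ _ (hπ j).1 (hπ j).2⟩
    · exact fun j => hS w h1 _ _ _ _ (h5 j).1 (h5 j).2
    · exact fun j => hS w' h3 _ _ _ _ (h6 j).1 (h6 j).2
    · rw [map_sum]
      refine Finset.sum_congr rfl fun i _ => ?_
      rw [map_sub]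
      simp only [Finsupp.mapDomain.addMonoidHom_apply, Finsupp.mapDomain_single]
  exact key hz

lemma spec_cst {w : ValuationSubring (Om k)} (hw : ∀ e, io k e ∈ w) {a b : k} (P : Pt a b) :
    Specializes w (cst P) P := by
  rcases P with _ | ⟨x, y, h⟩
  · have h0 : cst (0 : Pt a b) = 0 := map_zero _
    change Specializes w (cst 0) 0
    rw [h0]
    exact trivial
  · rw [cst, pmap_some]
    change w.valuation (io k x - io k x) < 1 ∧ w.valuation (io k y - io k y) < 1
    rw [sub_self, sub_self, map_zero]
    exact ⟨zero_lt_one, zero_lt_one⟩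

lemma coords_cst (σ : Om k ≃ₐ[RatFunc k] Om k) {a b : k} (P : Pt a b) :
    coords (cst P) = (coords (cst P)).map (Prod.map σ σ) := by
  rw [← coords_gal, gal_cst]

variable {a b : Fin r → k}

/-- changing one coordinate -/
lemma push_one {c' d' : k} (x : (i : Fin r) → Pt (a i) (b i)) (i : Fin r)
    {z : (Pt (a i) (b i) × Pt c' d') →₀ ℤ} (hz : z ∈ RatEquivZero (a i) (b i) c' d') :
    Finsupp.mapDomain (fun q => Function.update x i q.1) z ∈ REP a b := by
  refine push_rep (fun P _ => Function.update x i P)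
    (fun P _ => Function.update (fun l => cst (x l)) i P) ?_ ?_ hz
  · intro σ P Q P' Q' h _ l
    by_cases hl : l = i
    · subst hl
      simpa only [Function.update_self] using h
    · simp only [Function.update_of_ne hl]
      exact coords_cst σ _
  · intro w hw P Q p q h _ l
    by_cases hl : l = i
    · subst hl
      simpa only [Function.update_self] using h
    · simp only [Function.update_of_ne hl]
      exact spec_cst hw _

/-- changing two coordinates -/
lemma push_two (x : (i : Fin r) → Pt (a i) (b i)) (i j : Fin r)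
    {z : (Pt (a i) (b i) × Pt (a j) (b j)) →₀ ℤ}
    (hz : z ∈ RatEquivZero (a i) (b i) (a j) (b j)) :
    Finsupp.mapDomain (fun q => Function.update (Function.update x i q.1) j q.2) z ∈ REP a b := by
  refine push_rep (fun P Q => Function.update (Function.update x i P) j Q)
    (fun P Q => Function.update (Function.update (fun l => cst (x l)) i P) j Q) ?_ ?_ hz
  · intro σ P Q P' Q' h h' l
    by_cases hl : l = j
    · subst hl
      simpa only [Function.update_self] using h'
    · simp only [Function.update_of_ne hl]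
      by_cases hl' : l = i
      · subst hl'
        simpa only [Function.update_self] using h
      · simp only [Function.update_of_ne hl']
        exact coords_cst σ _
  · intro w hw P Q p q h h' l
    by_cases hl : l = j
    · subst hl
      simpa only [Function.update_self] using h'
    · simp only [Function.update_of_ne hl]
      by_cases hl' : l = i
      · subst hl'
        simpa only [Function.update_self] using h
      · simp only [Function.update_of_ne hl']
        exact spec_cst hw _

variable [IsAlgClosed k] [CharZero k]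

/-- the quotient -/
abbrev CHP (a b : Fin r → k) : Type := (((i : Fin r) → Pt (a i) (b i)) →₀ ℤ) ⧸ REP a b

/-- the class of a point -/
noncomputable def cl (x : (i : Fin r) → Pt (a i) (b i)) : CHP a b :=
  QuotientAddGroup.mk (Finsupp.single x 1)

lemma cl_two (x : (i : Fin r) → Pt (a i) (b i)) (i j : Fin r) (P : Pt (a i) (b i))
    (Q : Pt (a j) (b j)) (h : cyc P Q ∈ RatEquivZero (a i) (b i) (a j) (b j)) :
    cl (Function.update (Function.update x i P) j Q) -
      cl (Function.update (Function.update x i P) j 0) -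
      cl (Function.update (Function.update x i 0) j Q) +
      cl (Function.update (Function.update x i 0) j 0) = 0 := by
  have h1 := push_two x i j h
  unfold cyc at h1
  simp only [sub_eq_add_neg, Finsupp.mapDomain_add, ← Finsupp.single_neg,
    Finsupp.mapDomain_single] at h1
  have h2 := (QuotientAddGroup.eq_zero_iff _).2 h1
  simp only [Finsupp.single_neg] at h2
  unfold cl
  simpa only [sub_eq_add_neg, QuotientAddGroup.mk_add, QuotientAddGroup.mk_neg] using h2

lemma cl_add (x : (i : Fin r) → Pt (a i) (b i)) (i : Fin r) (hD : Disc (a i) (b i))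
    (P₁ P₂ : Pt (a i) (b i)) :
    cl (Function.update x i P₁) + cl (Function.update x i P₂) -
      cl (Function.update x i (P₁ + P₂)) - cl (Function.update x i 0) = 0 := by
  have h1 := push_one x i (bilin1 hD hD P₁ P₂ 0)
  simp only [sub_eq_add_neg, Finsupp.mapDomain_add, ← Finsupp.single_neg,
    Finsupp.mapDomain_single] at h1
  have h2 := (QuotientAddGroup.eq_zero_iff _).2 h1
  simp only [Finsupp.single_neg] at h2
  unfold cl
  simpa only [sub_eq_add_neg, QuotientAddGroup.mk_add, QuotientAddGroup.mk_neg] using h2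

/-- the class of a point with one coordinate -/
noncomputable def phi (hD : ∀ i, Disc (a i) (b i)) (i : Fin r) : Pt (a i) (b i) →+ CHP a b where
  toFun P := cl (Function.update 0 i P) - cl 0
  map_zero' := by
    have h0 : Function.update (0 : (i : Fin r) → Pt (a i) (b i)) i 0 = 0 :=
      Function.update_eq_self_iff.2 rfl
    rw [h0, sub_self]
  map_add' P Q := by
    have h := cl_add (0 : (i : Fin r) → Pt (a i) (b i)) i (hD i) P Q
    have h0 : Function.update (0 : (i : Fin r) → Pt (a i) (b i)) i 0 = 0 :=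
      Function.update_eq_self_iff.2 rfl
    rw [h0] at h
    rw [← sub_eq_zero, ← neg_eq_zero]
    rw [← h]
    abel

/-- the part of a point on a set of coordinates -/
noncomputable def part (x : (i : Fin r) → Pt (a i) (b i)) (S : Finset (Fin r)) :
    (i : Fin r) → Pt (a i) (b i) := fun l => if l ∈ S then x l else 0

lemma part_insert (x : (i : Fin r) → Pt (a i) (b i)) (S : Finset (Fin r)) (j : Fin r) :
    Function.update (part x S) j (x j) = part x (insert j S) := by
  funext l
  by_cases hl : l = j
  · subst hl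
    rw [Function.update_self]
    simp [part]
  · rw [Function.update_of_ne hl]
    simp [part, hl]

lemma part_zero (x : (i : Fin r) → Pt (a i) (b i)) {S : Finset (Fin r)} {j : Fin r}
    (hj : j ∉ S) : Function.update (part x S) j 0 = part x S := by
  rw [Function.update_eq_self_iff]
  simp [part, hj]

lemma cl_part (x : (i : Fin r) → Pt (a i) (b i))
    (hx : ∀ i j, i ≠ j → cyc (x i) (x j) ∈ RatEquivZero (a i) (b i) (a j) (b j)) (j : Fin r)
    (S : Finset (Fin r)) (hj : j ∉ S) :
    cl (part x (insert j S)) - cl (part x S) = cl (Function.update 0 j (x j)) - cl 0 := by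
  induction S using Finset.induction_on with
  | empty =>
    rw [← part_insert]
    have : part x ∅ = 0 := by
      funext l
      simp [part]
    rw [this]
  | insert i S hi ih =>
    have hij : i ≠ j := by
      rintro rfl
      exact hj (Finset.mem_insert_self _ _)
    have hjS : j ∉ S := fun h => hj (Finset.mem_insert_of_mem h)
    have h := cl_two (part x S) i j (x i) (x j) (hx i j hij)
    rw [part_insert, part_insert, part_zero x hj, part_zero x hi, part_insert, part_zero x hjS] at h
    rw [← ih hjS, ← sub_eq_zero, ← h]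
    abel

lemma cl_sum (hD : ∀ i, Disc (a i) (b i)) (x : (i : Fin r) → Pt (a i) (b i))
    (hx : ∀ i j, i ≠ j → cyc (x i) (x j) ∈ RatEquivZero (a i) (b i) (a j) (b j)) :
    cl x - cl 0 = ∑ i, phi hD i (x i) := by
  have key : ∀ S : Finset (Fin r), cl (part x S) - cl 0 = ∑ i ∈ S, phi hD i (x i) := by
    intro S
    induction S using Finset.induction_on with
    | empty =>
      have : part x ∅ = 0 := by
        funext l
        simp [part]
      rw [this, sub_self, Finset.sum_empty]
    | insert j S hj ih =>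
      rw [Finset.sum_insert hj, ← ih]
      have h := cl_part x hx j S hj
      have e : phi hD j (x j) = cl (Function.update 0 j (x j)) - cl 0 := rfl
      rw [e, ← h]
      abel
  have hu : part x Finset.univ = x := by
    funext l
    simp [part]
  have h := key Finset.univ
  rwa [hu] at h

lemma gen_sum {I M : Type} {r : ℕ} {G : Fin r → Type} [∀ i, AddCommGroup (G i)]
    [AddCommGroup M] (s : Finset I) (m : I → ℤ) (f : I → M) (c : M) (φ : ∀ i, G i →+ M)
    (x : I → (i : Fin r) → G i) (hf : ∀ t ∈ s, f t - c = ∑ i, φ i (x t i))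
    (h0 : ∑ t ∈ s, m t = 0) (h1 : ∑ t ∈ s, m t • x t = 0) : ∑ t ∈ s, m t • f t = 0 := by
  have h4 : ∑ t ∈ s, m t • f t = ∑ t ∈ s, m t • (f t - c) := by
    simp only [smul_sub, Finset.sum_sub_distrib]
    rw [← Finset.sum_smul, h0, zero_smul, sub_zero]
  have h5 : ∑ t ∈ s, m t • (f t - c) = ∑ t ∈ s, m t • ∑ i, φ i (x t i) :=
    Finset.sum_congr rfl fun t ht => by rw [hf t ht]
  rw [h4, h5]
  simp only [Finset.smul_sum]
  rw [Finset.sum_comm]
  refine Finset.sum_eq_zero fun i _ => ?_
  have h6 : ∑ t ∈ s, m t • φ i (x t i) = φ i ((∑ t ∈ s, m t • x t) i) := by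
    rw [Finset.sum_apply, map_sum]
    refine Finset.sum_congr rfl fun t _ => ?_
    rw [Pi.smul_apply, map_zsmul]
  rw [h6, h1, Pi.zero_apply, map_zero]

/-- **cycles with orthogonal coordinates** -/
theorem albanese (hD : ∀ i, Disc (a i) (b i)) (Z : ((i : Fin r) → Pt (a i) (b i)) →₀ ℤ)
    (hx : ∀ x ∈ Z.support, ∀ i j, i ≠ j →
      cyc (x i) (x j) ∈ RatEquivZero (a i) (b i) (a j) (b j))
    (hdeg : Z.sum (fun _ m => m) = 0) (hsum : Z.sum (fun x m => m • x) = 0) : Z ∈ REP a b := by
  rw [← QuotientAddGroup.eq_zero_iff]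
  have h1 : (QuotientAddGroup.mk Z : CHP a b) = ∑ x ∈ Z.support, Z x • cl x := by
    have h2 : Z = ∑ x ∈ Z.support, Z x • Finsupp.single x (1 : ℤ) := by
      conv_lhs => rw [← Finsupp.sum_single Z]
      rw [Finsupp.sum]
      refine Finset.sum_congr rfl fun x _ => ?_
      rw [Finsupp.smul_single, smul_eq_mul, mul_one]
    have h3 : (QuotientAddGroup.mk' (REP a b)) Z = ∑ x ∈ Z.support, Z x • cl x := by
      conv_lhs => rw [h2]
      rw [map_sum]
      refine Finset.sum_congr rfl fun x _ => ?_
      rw [map_zsmul]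
      rfl
    exact h3
  rw [h1]
  exact gen_sum Z.support Z cl (cl 0) (phi hD) (fun x => x)
    (fun x hx' => cl_sum hD x (hx x hx')) hdeg hsum

end

/-- **the system through a given point, for all products** -/
theorem system_products {a₁ b₁ : AlgebraicClosure ℚ} (P₁ : Pt a₁ b₁) (hD₁ : Disc a₁ b₁) :
    ∃ Λ : (a b : AlgebraicClosure ℚ) → AddSubgroup (Pt a b), P₁ ∈ Λ a₁ b₁ ∧
      (∀ a b, Disc a b → ∃ Q : ℕ → Pt a b, LinearIndependent ℤ Q ∧ ∀ n, Q n ∈ Λ a b) ∧
      (∀ a b, ∀ (T : Pt a b) (n : ℕ), n ≠ 0 → n • T = 0 → T ∈ Λ a b) ∧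
      ∀ (r : ℕ) (a b : Fin r → AlgebraicClosure ℚ), (∀ i, Disc (a i) (b i)) →
        ∀ Z : ((i : Fin r) → Pt (a i) (b i)) →₀ ℤ, (∀ x ∈ Z.support, ∀ i, x i ∈ Λ (a i) (b i)) →
          Z.sum (fun _ m => m) = 0 → Z.sum (fun x m => m • x) = 0 → Z ∈ REP a b := by
  obtain ⟨Λ, h1, h2, h3, h4⟩ := system P₁ hD₁
  refine ⟨Λ, h1, h2, h3, fun r a b hD Z hZ hdeg hsum => albanese hD Z (fun x hx i j _ => ?_)
    hdeg hsum⟩
  exact h4 _ _ _ _ (hD i) (hD j) _ (hZ x hx i) _ (hZ x hx j)

end Pool.Agent.Run7.h780.TW
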