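import Pool.Agent.Run7.h780.TW.Stm2

/-!
# Homomorphisms between powers of an elliptic curve: definition for the statement
-/

set_option autoImplicit false

namespace Pool.Agent.Run7.h780.ZS

open scoped Classical in
/-- The homomorphism `x ↦ g x` from `E(a, b) ^ r` to `E(a, b) ^ s` with the integral matrix `g`. -/
noncomputable def hom {k : Type} [Field k] {a b : k} {r s : ℕ} (g : Matrix (Fin s) (Fin r) ℤ)
    (x : Fin r → Pt a b) : Fin s → Pt a b :=
  fun i => ∑ j, g i j • x j

end Pool.Agent.Run7.h780.ZS
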