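import Pool.Agent.Run7.h780.TW.Ext
import Pool.Agent.Run7.h780.TW.Pow
import Pool.Agent.Run7.h780.TW.Stm4

/-!
# Correspondences between powers of an elliptic curve
-/

set_option autoImplicit false
set_option linter.all false

namespace Pool.Agent.Run7.h780.TW

section alg
variable {r r' N : ℕ} {A M : Type} [AddCommGroup A] [AddCommGroup M]

lemma zc_sum (c : (Fin r' → A) → M) (y : Fin r' → A) :
    c y = ∑ S ∈ (Finset.univ : Finset (Fin r')).powerset, zc c y S := by
  unfold zc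
  rw [zf_sum]
  congr 1
  funext l
  simp [pt]

lemma zc_empty (c : (Fin r' → A) → M) (y : Fin r' → A) : zc c y ∅ = c 0 := by
  unfold zc zf
  rw [Finset.powerset_empty, Finset.sum_singleton, Finset.card_empty, add_zero, pow_zero, one_smul]
  congr 1

lemma am_apply {c : (Fin r' → A) → M} (hc : Aff c)
    (ha : ∀ w i j, i ≠ j → ∀ P : A, D4 c w i j P P = 0) (S : Finset (Fin r')) (x : Fin r' → A) :
    am hc ha S (fun i => x i) = zc c x S := zc_ex c x S

lemma crs_comp {c : (Fin r' → A) → M} (hc : Aff c)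
    (ha : ∀ w i j, i ≠ j → ∀ P : A, D4 c w i j P P = 0) (g : Fin N → Matrix (Fin r') (Fin r) ℤ)
    (n : Fin N → ℤ) (S : Finset (Fin r'))
    (hm : ∀ (s : Fin S.card → Fin r') (t : Fin S.card → Fin r),
      ∑ l, n l * ((g l).submatrix s t).det = 0) (x : Fin r → A) :
    S.card.factorial • ∑ l, n l • zc c (fun i => ∑ j, g l i j • x j) S = 0 := by
  have h1 : ∀ l, S.card.factorial • zc c (fun i => ∑ j, g l i j • x j) S =
      ∑ t : S → Fin r, (Matrix.of fun (a b : S) => g l a (t b)).det •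
        am hc ha S (fun a => x (t a)) := by
    intro l
    have h := alt_minor (am hc ha S) (fun (a : S) j => g l a j) x
    rw [Fintype.card_coe] at h
    rw [← h, ← am_apply hc ha]
  have h2 : S.card.factorial • ∑ l, n l • zc c (fun i => ∑ j, g l i j • x j) S =
      ∑ l, n l • (S.card.factorial • zc c (fun i => ∑ j, g l i j • x j) S) := by
    rw [Finset.smul_sum]
    refine Finset.sum_congr rfl fun l _ => ?_
    rw [smul_comm]
  rw [h2]
  simp only [h1, Finset.smul_sum, smul_smul]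
  rw [Finset.sum_comm]
  refine Finset.sum_eq_zero fun t _ => ?_
  rw [← Finset.sum_smul]
  have h3 := hm (fun a => (S.equivFin.symm a : Fin r')) (fun a => t (S.equivFin.symm a))
  have h4 : ∀ l, ((g l).submatrix (fun a => (S.equivFin.symm a : Fin r'))
      (fun a => t (S.equivFin.symm a))).det = (Matrix.of fun (a b : S) => g l a (t b)).det := by
    intro l
    rw [← Matrix.det_submatrix_equiv_self S.equivFin.symm (Matrix.of fun (a b : S) => g l a (t b))]
    rfl
  simp only [h4] at h3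
  rw [h3, zero_smul]

theorem crs_point {c : (Fin r' → A) → M} (hc : Aff c)
    (ha : ∀ w i j, i ≠ j → ∀ P : A, D4 c w i j P P = 0) (Λ : AddSubgroup A) (ρ : ℕ)
    (hΛ : ∀ S : Finset (Fin r'), ρ < S.card → ∀ y : Fin r' → A, (∀ i, y i ∈ Λ) → zc c y S = 0)
    (g : Fin N → Matrix (Fin r') (Fin r) ℤ) (n : Fin N → ℤ)
    (hm : ∀ m : ℕ, 1 ≤ m → m ≤ ρ → ∀ (s : Fin m → Fin r') (t : Fin m → Fin r),
      ∑ l, n l * ((g l).submatrix s t).det = 0) (x : Fin r → A) (hx : ∀ i, x i ∈ Λ) :
    r'.factorial • ∑ l, n l • c (fun i => ∑ j, g l i j • x j) =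
      r'.factorial • ((∑ l, n l) • c 0) := by
  have h1 : ∑ l, n l • c (fun i => ∑ j, g l i j • x j) =
      ∑ S ∈ (Finset.univ : Finset (Fin r')).powerset,
        ∑ l, n l • zc c (fun i => ∑ j, g l i j • x j) S := by
    rw [Finset.sum_comm]
    refine Finset.sum_congr rfl fun l _ => ?_
    rw [← Finset.smul_sum, ← zc_sum]
  rw [h1, Finset.smul_sum]
  have h2 : ∀ S ∈ (Finset.univ : Finset (Fin r')).powerset, r'.factorial •
      ∑ l, n l • zc c (fun i => ∑ j, g l i j • x j) S =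
        if S = ∅ then r'.factorial • ((∑ l, n l) • c 0) else 0 := by
    intro S _
    by_cases hS : S = ∅
    · subst hS
      rw [if_pos rfl]
      simp only [zc_empty]
      rw [Finset.sum_smul]
    · rw [if_neg hS]
      by_cases hρ : ρ < S.card
      · rw [Finset.sum_eq_zero, smul_zero]
        intro l _
        rw [hΛ S hρ _ fun i => ?_, smul_zero]
        exact sum_mem fun j _ => zsmul_mem (hx j) _
      · push Not at hρ
        have hc1 : 1 ≤ S.card := Finset.card_pos.2 (Finset.nonempty_iff_ne_empty.2 hS)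
        have hc2 : S.card ≤ r' := by
          have := Finset.card_le_univ S
          rwa [Fintype.card_fin] at this
        obtain ⟨q, hq⟩ := Nat.factorial_dvd_factorial hc2
        rw [hq, mul_comm, mul_smul, crs_comp hc ha g n S (hm _ hc1 hρ) x, smul_zero]
  rw [Finset.sum_congr rfl h2, Finset.sum_ite_eq' _ ∅, if_pos]
  exact Finset.empty_mem_powerset _

/-- the components of the points in the group generated by an isotropic group and `ρ` points -/
lemma zc_zero {c : (Fin r' → A) → M} (hc : Aff c)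
    (ha : ∀ w i j, i ≠ j → ∀ P : A, D4 c w i j P P = 0) (Λ : AddSubgroup A)
    (hi : ∀ w i j, i ≠ j → ∀ P ∈ Λ, ∀ Q ∈ Λ, D4 c w i j P Q = 0) {ρ : ℕ} (P : Fin ρ → A)
    (S : Finset (Fin r')) (hS : ρ + 1 < S.card) (y : Fin r' → A)
    (hy : ∀ i, y i ∈ AddSubgroup.closure ((Λ : Set A) ∪ Set.range P)) : zc c y S = 0 := by
  classical
  rw [← am_apply hc ha]
  refine multi_closure (am hc ha S) ((Λ : Set A) ∪ Set.range P) ?_ _ fun i => hy i
  intro y hy
  have hκ : ∀ a, ∃ κ : Option (Fin ρ), (κ = none → y a ∈ Λ) ∧ ∀ i, κ = some i → y a = P i := by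
    intro a
    rcases hy a with h | ⟨i, h⟩
    · exact ⟨none, fun _ => h, fun i h => absurd h (by simp)⟩
    · refine ⟨some i, fun h => absurd h (by simp), fun j hj => ?_⟩
      cases hj
      exact h.symm
  choose κ h1 h2 using hκ
  obtain ⟨a, b, hab, e⟩ := Fintype.exists_ne_map_eq_of_card_lt κ (by
    rw [Fintype.card_option, Fintype.card_fin, Fintype.card_coe]
    exact hS)
  rcases hk : κ a with _ | i
  · change zc c (ex S y) S = 0
    refine zc_pair (i := (a : Fin r')) (j := (b : Fin r')) (fun e => hab (Subtype.ext e)) a.2 b.2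
      fun w => ?_
    rw [ex_apply, ex_apply]
    exact hi w _ _ (fun e => hab (Subtype.ext e)) _ (h1 a hk) _ (h1 b (e ▸ hk))
  · have e1 : y a = y b := by
      rw [h2 a i hk, h2 b i (by rw [← e]; exact hk)]
    exact (am hc ha S).map_eq_zero_of_eq y e1 hab

end alg

open WeierstrassCurve Pool.Agent.H901R3.MS Pool.Agent.Run7.h780.ZC Pool.Agent.Run7.h780.GR
open scoped Classical

section
variable {k : Type} [Field k] [IsAlgClosed k] [CharZero k] {r r' N : ℕ} {a b : k}


/-- the homomorphism with the matrix `g` -/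
noncomputable def hom {k : Type} [Field k] {a b : k} {r s : ℕ} (g : Matrix (Fin s) (Fin r) ℤ)
    (x : Fin r → Pt a b) : Fin s → Pt a b :=
  fun i => ∑ j, g i j • x j

lemma aff_cl (hD : Disc a b) :
    Aff (fun x : Fin r → Pt a b => (cl (a := fun _ => a) (b := fun _ => b) x)) :=
  fun x i P Q => cl_add (a := fun _ => a) (b := fun _ => b) x i hD P Q

lemma D4_cl (w : Fin r → Pt a b) (i j : Fin r) (P Q : Pt a b)
    (h : cyc P Q ∈ RatEquivZero a b a b) :
    D4 (fun x : Fin r → Pt a b => (cl (a := fun _ => a) (b := fun _ => b) x)) w i j P Q = 0 :=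
  cl_two (a := fun _ => a) (b := fun _ => b) w i j P Q h

lemma cyc_diag (hD : Disc a b) (P : Pt a b) : cyc P P ∈ RatEquivZero a b a b := by
  obtain ⟨B, hB⟩ := exists_bil hD hD
  have h := diag_zero hD B hB P
  rw [hB] at h
  exact (QuotientAddGroup.eq_zero_iff _).1 h

theorem crs_main (hD : Disc a b) (Λ₀ : AddSubgroup (Pt a b))
    (h0 : ∀ x ∈ Λ₀, ∀ y ∈ Λ₀, cyc x y ∈ RatEquivZero a b a b) {ρ : ℕ} (P : Fin ρ → Pt a b)
    (g : Fin N → Matrix (Fin r') (Fin r) ℤ) (n : Fin N → ℤ)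
    (hm : ∀ m : ℕ, 1 ≤ m → m ≤ ρ + 1 → ∀ (s : Fin m → Fin r') (t : Fin m → Fin r),
      ∑ l, n l * ((g l).submatrix s t).det = 0)
    (Z : (Fin r → Pt a b) →₀ ℤ)
    (hZ : ∀ x ∈ Z.support, ∀ i, x i ∈ AddSubgroup.closure ((Λ₀ : Set (Pt a b)) ∪ Set.range P))
    (hdeg : Z.sum (fun _ m => m) = 0) :
    r'.factorial • ∑ l, n l • Finsupp.mapDomain (hom (g l)) Z ∈
      REP (fun _ : Fin r' => a) (fun _ : Fin r' => b) := by
  rw [← QuotientAddGroup.eq_zero_iff]
  obtain ⟨π, hπ⟩ : ∃ π, π = QuotientAddGroup.mk' (REP (fun _ : Fin r' => a) (fun _ => b)) :=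
    ⟨_, rfl⟩
  have h1 : ∀ l, π (Finsupp.mapDomain (hom (g l)) Z) = ∑ x ∈ Z.support,
      Z x • (cl (a := fun _ => a) (b := fun _ => b) (fun i => ∑ j, g l i j • x j)) := by
    intro l
    have h2 : Finsupp.mapDomain (hom (g l)) Z =
        ∑ x ∈ Z.support, Z x • Finsupp.single (hom (g l) x) (1 : ℤ) := by
      rw [Finsupp.mapDomain, Finsupp.sum]
      refine Finset.sum_congr rfl fun x _ => ?_
      rw [Finsupp.smul_single, smul_eq_mul, mul_one]
    rw [h2, map_sum]
    refine Finset.sum_congr rfl fun x _ => ?_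
    rw [map_zsmul, hπ]
    rfl
  have h3 : π (r'.factorial • ∑ l, n l • Finsupp.mapDomain (hom (g l)) Z) = ∑ x ∈ Z.support,
      Z x • (r'.factorial • ∑ l, n l •
        (cl (a := fun _ => a) (b := fun _ => b) (fun i => ∑ j, g l i j • x j))) := by
    rw [map_nsmul, map_sum]
    simp only [map_zsmul, h1]
    simp only [Finset.smul_sum]
    rw [Finset.sum_comm]
    refine Finset.sum_congr rfl fun x _ => Finset.sum_congr rfl fun l _ => ?_
    rw [smul_comm (n l) (Z x), smul_comm (r'.factorial) (Z x)]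
  have h4 : ∀ x ∈ Z.support, Z x • (r'.factorial • ∑ l, n l •
      (cl (a := fun _ => a) (b := fun _ => b) (fun i => ∑ j, g l i j • x j))) =
      Z x • (r'.factorial • ((∑ l, n l) • (cl (a := fun _ => a) (b := fun _ => b)
        (0 : Fin r' → Pt a b)))) := by
    intro x hx
    have h := crs_point (aff_cl hD) (fun w i j _ P => D4_cl w i j P P (cyc_diag hD P))
      (AddSubgroup.closure ((Λ₀ : Set (Pt a b)) ∪ Set.range P)) (ρ + 1)
      (fun S hS y hy => zc_zero (aff_cl hD) (fun w i j _ P => D4_cl w i j P P (cyc_diag hD P)) Λ₀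
        (fun w i j _ P hP Q hQ => D4_cl w i j P Q (h0 P hP Q hQ)) P S hS y hy) g n hm x
      (hZ x hx)
    exact congrArg (fun z => Z x • z) h
  have h5 : π (r'.factorial • ∑ l, n l • Finsupp.mapDomain (hom (g l)) Z) = 0 := by
    rw [h3, Finset.sum_congr rfl h4, ← Finset.sum_smul]
    have h6 : ∑ x ∈ Z.support, Z x = 0 := hdeg
    rw [h6, zero_smul]
  rw [hπ] at h5
  exact h5

end

/-- **correspondences and cycles through `ρ + 1` points** -/
theorem correspondences {a b : AlgebraicClosure ℚ} (hD : Disc a b) (ρ : ℕ)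
    (P : Fin (ρ + 1) → Pt a b) :
    ∃ Λ : AddSubgroup (Pt a b), (∀ i, P i ∈ Λ) ∧
      (∃ Q : ℕ → Pt a b, LinearIndependent ℤ Q ∧ ∀ n, Q n ∈ Λ) ∧
      (∀ (T : Pt a b) (n : ℕ), n ≠ 0 → n • T = 0 → T ∈ Λ) ∧
      ∀ (r s N : ℕ) (g : Fin N → Matrix (Fin s) (Fin r) ℤ) (n : Fin N → ℤ),
        (∀ m : ℕ, 1 ≤ m → m ≤ ρ + 1 → ∀ (u : Fin m → Fin s) (v : Fin m → Fin r),
          ∑ l, n l * ((g l).submatrix u v).det = 0) →
        ∀ Z : (Fin r → Pt a b) →₀ ℤ, (∀ x ∈ Z.support, ∀ i, x i ∈ Λ) →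
          Z.sum (fun _ m => m) = 0 →
          s.factorial • ∑ l, n l • Finsupp.mapDomain (hom (g l)) Z ∈
            REP (fun _ : Fin s => a) (fun _ : Fin s => b) := by
  obtain ⟨Λ, h1, h2, h3, h4⟩ := system (P 0) hD
  have hle : Λ a b ≤ AddSubgroup.closure ((Λ a b : Set (Pt a b)) ∪
      Set.range fun i : Fin ρ => P i.succ) :=
    fun x hx => AddSubgroup.subset_closure (Or.inl hx)
  refine ⟨AddSubgroup.closure ((Λ a b : Set (Pt a b)) ∪ Set.range fun i : Fin ρ => P i.succ),
    fun i => ?_, ?_, fun T n hn hT => hle (h3 a b T n hn hT), ?_⟩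
  · refine Fin.cases (hle h1) (fun i => ?_) i
    exact AddSubgroup.subset_closure (Or.inr ⟨i, rfl⟩)
  · obtain ⟨Q, hQ, h⟩ := h2 a b hD
    exact ⟨Q, hQ, fun n => hle (h n)⟩
  · intro r s N g n hm Z hZ hdeg
    exact crs_main hD (Λ a b) (fun x hx y hy => h4 a b a b hD hD x hx y hy) _ g n hm Z hZ hdeg

end Pool.Agent.Run7.h780.TW
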