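import Pool.Agent.Run7.h780.TW.Meet

/-!
# Automorphisms of the base field
-/

set_option autoImplicit false
set_option linter.all false

namespace Pool.Agent.Run7.h780.TW

open WeierstrassCurve Pool.Agent.H901R3.MS Pool.Agent.Run7.h780.ZC Pool.Agent.Run7.h780.GR
open scoped Classical

section ext
variable {k : Type} [Field k]

/-- extension of an automorphism of `k` -/
theorem exists_ext (σ : k ≃+* k) : ∃ (e : RatFunc k ≃+* RatFunc k) (τ : Om k ≃+* Om k),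
    (∀ r, τ (algebraMap (RatFunc k) (Om k) r) = algebraMap (RatFunc k) (Om k) (e r)) ∧
      ∀ x, τ (io k x) = io k (σ x) := by
  obtain ⟨e, he⟩ : ∃ e, e = IsFractionRing.ringEquivOfRingEquiv (K := RatFunc k)
    (L := RatFunc k) (Polynomial.mapEquiv σ) := ⟨_, rfl⟩
  refine ⟨e, IsAlgClosure.equivOfEquiv (Om k) (Om k) e, fun r => ?_, fun x => ?_⟩
  · rw [IsAlgClosure.equivOfEquiv_algebraMap]
  · have h1 : ∀ y : k, io k y = algebraMap (RatFunc k) (Om k) (algebraMap (Polynomial k) (RatFunc k)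
        (Polynomial.C y)) := by
      intro y
      change algebraMap k (Om k) y = _
      rw [IsScalarTower.algebraMap_apply k (RatFunc k) (Om k)]
      congr 1
    rw [h1, IsAlgClosure.equivOfEquiv_algebraMap, he, h1]
    congr 1
    rw [IsFractionRing.ringEquivOfRingEquiv_algebraMap]
    congr 1
    simp

lemma val_lt_iff (w : ValuationSubring (Om k)) (x : Om k) :
    w.valuation x < 1 ↔ x = 0 ∨ x⁻¹ ∉ w := by
  by_cases hx : x = 0
  · simp [hx]
  · have h1 : w.valuation x ≠ 0 := (map_ne_zero _).2 hx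
    rw [← w.valuation_le_one_iff, map_inv₀, not_le, one_lt_inv₀ (zero_lt_iff.2 h1)]
    simp [hx]

lemma map_map' {A B C : Type} (o : Option (A × A)) (f : A → B) (g : B → C) :
    (o.map (Prod.map f f)).map (Prod.map g g) = o.map (Prod.map (g ∘ f) (g ∘ f)) := by
  cases o <;> rfl

lemma map_id' {A : Type} (o : Option (A × A)) (f : A → A) (h : ∀ x, f x = x) :
    o.map (Prod.map f f) = o := by
  have : f = id := funext h
  subst this
  cases o <;> rfl

lemma spec_comap {w : ValuationSubring (Om k)} {τ : Om k ≃+* Om k} {σ : k ≃+* k}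
    (hτ : ∀ x, τ (io k x) = io k (σ x)) {a b a' b' : k} {P : Pt (io k a) (io k b)} {p : Pt a b}
    {P' : Pt (io k a') (io k b')} {p' : Pt a' b'}
    (hP : coords P' = (coords P).map (Prod.map τ τ))
    (hp : coords p' = (coords p).map (Prod.map σ σ)) :
    Specializes w P' p' ↔ Specializes (w.comap (τ : Om k →+* Om k)) P p := by
  have key : ∀ (z : Om k) (c : k), w.valuation (τ z - io k (σ c)) < 1 ↔
      (w.comap (τ : Om k →+* Om k)).valuation (z - io k c) < 1 := by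
    intro z c
    have e : τ z - io k (σ c) = τ (z - io k c) := by rw [map_sub, hτ]
    have e1 : τ (z - io k c) = 0 ↔ z - io k c = 0 := map_eq_zero_iff τ τ.injective
    have e2 : (τ : Om k →+* Om k) (z - io k c)⁻¹ = (τ (z - io k c))⁻¹ := map_inv₀ τ _
    rw [e, val_lt_iff, val_lt_iff, ValuationSubring.mem_comap, e1, e2]
  unfold ZC.Specializes
  rw [hP, hp]
  rcases coords P with _ | z <;> rcases coords p with _ | c
  · exact Iff.rfl
  · exact Iff.rfl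
  · change (τ z.1 ∉ w) ↔ _
    change _ ↔ z.1 ∉ w.comap (τ : Om k →+* Om k)
    rw [ValuationSubring.mem_comap]
    exact Iff.rfl
  · change (w.valuation (τ z.1 - io k (σ c.1)) < 1 ∧ w.valuation (τ z.2 - io k (σ c.2)) < 1) ↔
      ((w.comap (τ : Om k →+* Om k)).valuation (z.1 - io k c.1) < 1 ∧
        (w.comap (τ : Om k →+* Om k)).valuation (z.2 - io k c.2) < 1)
    rw [key, key]

/-- the transport of points -/
noncomputable def tp (σ : k ≃+* k) {a b a' b' : k} (ha : σ a = a') (hb : σ b = b') :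
    Pt a b →+ Pt a' b' := pmap (σ : k →+* k) ha hb

lemma coords_tp (σ : k ≃+* k) {a b a' b' : k} (ha : σ a = a') (hb : σ b = b') (P : Pt a b) :
    coords (tp σ ha hb P) = (coords P).map (Prod.map σ σ) := coords_pmap _ ha hb P

lemma tp_inv (σ : k ≃+* k) {a b a' b' : k} (ha : σ a = a') (hb : σ b = b')
    (ha' : σ.symm a' = a) (hb' : σ.symm b' = b) (P : Pt a' b') :
    tp σ ha hb (tp σ.symm ha' hb' P) = P := by
  apply coords_injective
  rw [coords_tp, coords_tp, map_map']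
  exact map_id' _ _ fun x => σ.apply_symm_apply x

lemma symm_eq (σ : k ≃+* k) {a a' : k} (ha : σ a = a') : σ.symm a' = a := by
  rw [← ha, σ.symm_apply_apply]

/-- the conjugate of a map of points -/
noncomputable def cj (σ : k ≃+* k) {a b a₀ b₀ a' b' a₀' b₀' : k} (ha : σ a = a') (hb : σ b = b')
    (ha₀ : σ a₀ = a₀') (hb₀ : σ b₀ = b₀') (f : Pt a b → Pt a₀ b₀) : Pt a' b' → Pt a₀' b₀' :=
  fun P => tp σ ha₀ hb₀ (f (tp σ.symm (symm_eq σ ha) (symm_eq σ hb) P))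

lemma mor_cj (σ : k ≃+* k) {a b a₀ b₀ a' b' a₀' b₀' : k} (ha : σ a = a') (hb : σ b = b')
    (ha₀ : σ a₀ = a₀') (hb₀ : σ b₀ = b₀') {f : Pt a b → Pt a₀ b₀} (hf : Mor f) :
    Mor (cj σ ha hb ha₀ hb₀ f) := by
  obtain ⟨F, h1, h2⟩ := hf
  obtain ⟨e, τ, he, hτ⟩ := exists_ext σ
  have ta : ∀ {c c' : k}, σ c = c' → τ (io k c) = io k c' := fun h => by rw [hτ, h]
  have ts : ∀ {c c' : k}, σ c = c' → τ.symm (io k c') = io k c := fun h => by
    rw [← ta h, τ.symm_apply_apply]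
  obtain ⟨G, hG⟩ : ∃ G : Pt (io k a') (io k b') → Pt (io k a₀') (io k b₀'), ∀ P, G P =
      pmap (τ : Om k →+* Om k) (ta ha₀) (ta hb₀)
        (F (pmap (τ.symm : Om k →+* Om k) (ts ha) (ts hb) P)) := ⟨_, fun P => rfl⟩
  have cτ : ∀ {c d c' d' : k} (hc : τ (io k c) = io k c') (hd : τ (io k d) = io k d')
      (P : Pt (io k c) (io k d)), coords (pmap (τ : Om k →+* Om k) hc hd P) =
        (coords P).map (Prod.map τ τ) := fun hc hd P => coords_pmap _ hc hd P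
  have cs : ∀ {c d c' d' : k} (hc : τ.symm (io k c') = io k c) (hd : τ.symm (io k d') = io k d)
      (P : Pt (io k c') (io k d')), coords (pmap (τ.symm : Om k →+* Om k) hc hd P) =
        (coords P).map (Prod.map τ.symm τ.symm) := fun hc hd P => coords_pmap _ hc hd P
  refine ⟨G, ?_, ?_⟩
  · intro w hw P p h
    have hw' : ∀ x, io k x ∈ w.comap (τ : Om k →+* Om k) := by
      intro x
      rw [ValuationSubring.mem_comap]
      change τ (io k x) ∈ w
      rw [hτ]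
      exact hw _
    rw [hG]
    refine (spec_comap hτ (cτ _ _ _) (coords_tp σ ha₀ hb₀ _)).2 (h1 _ hw' _ _ ?_)
    refine (spec_comap hτ ?_ ?_).1 h
    · rw [cs, map_map']
      exact (map_id' _ _ fun x => τ.apply_symm_apply x).symm
    · rw [coords_tp, map_map']
      exact (map_id' _ _ fun x => σ.apply_symm_apply x).symm
  · intro ρ P Q hQ
    have hρ : ∀ r, (τ.trans (ρ.toRingEquiv.trans τ.symm)) (algebraMap (RatFunc k) (Om k) r) =
        algebraMap (RatFunc k) (Om k) r := by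
      intro r
      change τ.symm (ρ (τ (algebraMap (RatFunc k) (Om k) r))) = _
      rw [he, ρ.commutes, ← he, τ.symm_apply_apply]
    obtain ⟨ρ', hρ'⟩ : ∃ ρ' : Om k ≃ₐ[RatFunc k] Om k, ∀ x, ρ' x = τ.symm (ρ (τ x)) :=
      ⟨AlgEquiv.ofRingEquiv hρ, fun x => rfl⟩
    have h3 := h2 ρ' (pmap (τ.symm : Om k →+* Om k) (ts ha) (ts hb) P)
      (pmap (τ.symm : Om k →+* Om k) (ts ha) (ts hb) Q) (by
        rw [cs, cs, hQ, map_map', map_map']
        congr 1
        funext z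
        simp [Prod.map, hρ'])
    rw [hG, hG, cτ, cτ, h3, map_map', map_map']
    congr 1
    funext z
    simp [Prod.map, hρ']

lemma good_cj (σ : k ≃+* k) {a b a₀ b₀ a' b' a₀' b₀' : k} (ha : σ a = a') (hb : σ b = b')
    (ha₀ : σ a₀ = a₀') (hb₀ : σ b₀ = b₀') {f : Pt a b → Pt a₀ b₀} {S : Finset k}
    (hf : Good f S) : Good (cj σ ha hb ha₀ hb₀ f) (S.image σ) := by
  refine ⟨mor_cj σ ha hb ha₀ hb₀ hf.mor, ?_, ?_, ?_, ?_⟩
  · unfold cj
    rw [map_zero, hf.zero, map_zero]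
  · intro P
    unfold cj
    rw [map_neg, hf.neg, map_neg]
  · intro g hg P Q hQ
    unfold cj
    have h1 := hf.gal (((σ.symm : k →+* k).comp g).comp (σ : k →+* k)) (by
        intro z hz
        change σ.symm (g (σ z)) = z
        rw [hg _ (Finset.mem_image_of_mem _ hz), σ.symm_apply_apply])
      (tp σ.symm (symm_eq σ ha) (symm_eq σ hb) P) (tp σ.symm (symm_eq σ ha) (symm_eq σ hb) Q) (by
        rw [coords_tp, coords_tp, hQ, map_map', map_map']
        congr 1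
        funext z
        simp [Prod.map])
    rw [coords_tp, coords_tp, h1, map_map', map_map']
    congr 1
    funext z
    simp [Prod.map]
  · intro p _ hp θ hθ x y h hx
    obtain ⟨x₁, y₁, h₁, e₁⟩ : ∃ x₁ y₁ h₁, tp σ.symm (symm_eq σ ha) (symm_eq σ hb)
        (Affine.Point.some x y h) = Affine.Point.some x₁ y₁ h₁ ∧ x₁ = σ.symm x :=
      ⟨_, _, _, pmap_some _ _ _ h, rfl⟩
    obtain ⟨e₁, e₂⟩ := e₁
    obtain ⟨x', y', h', e', n'⟩ := hf.big p hp (θ.comp (σ : k →+* k)) (fun z hz =>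
      hθ _ (Finset.mem_image_of_mem _ hz)) x₁ y₁ h₁ (by
        rw [e₂]
        change 1 < ‖θ (σ (σ.symm x))‖
        rw [σ.apply_symm_apply]; exact hx)
    refine ⟨_, _, ns_map (σ : k →+* k) ha₀ hb₀ h', ?_, ?_⟩
    · unfold cj
      rw [e₁, e']
      exact pmap_some _ _ _ h'
    · change ‖θ (σ x')‖ = _
      have n2 : ‖θ (σ x')‖ = ‖θ (σ x₁)‖ := n'
      rw [n2, e₂, σ.apply_symm_apply]

variable [IsAlgClosed k] [CharZero k]

/-- the conjugate of a node -/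
noncomputable def ndtr (σ : k ≃+* k) {a₀ b₀ a₀' b₀' : k} (ha₀ : σ a₀ = a₀') (hb₀ : σ b₀ = b₀')
    (N : Nd a₀ b₀) : Nd a₀' b₀' where
  a := σ N.a
  b := σ N.b
  e₁ := σ N.e₁
  e₂ := σ N.e₂
  e₃ := σ N.e₃
  rt := ⟨by rw [← map_add, ← map_add, N.rt.sum, map_zero],
    by rw [N.rt.ha]; simp only [map_add, map_mul],
    by rw [N.rt.hb]; simp only [map_neg, map_mul],
    fun h => N.rt.n12 (σ.injective h), fun h => N.rt.n13 (σ.injective h),
    fun h => N.rt.n23 (σ.injective h)⟩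
  f := cj σ rfl rfl ha₀ hb₀ N.f
  S := N.S.image σ
  good := good_cj σ rfl rfl ha₀ hb₀ N.good

lemma kap_tr (σ : k ≃+* k) (e₁ e₂ e₃ : k) : σ (kap e₁ e₂ e₃) = kap (σ e₁) (σ e₂) (σ e₃) := by
  unfold kap
  simp only [map_div₀, map_sub]

lemma xi_tr (σ : k ≃+* k) (e₁ e₂ e₃ X : k) :
    σ (xi e₁ e₂ e₃ X) = xi (σ e₁) (σ e₂) (σ e₃) (σ X) := by
  unfold xi
  simp only [map_div₀, map_sub, map_add, map_mul, kap_tr, map_one]

/-- the conjugate of a point with the parameter `X` -/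
lemma node_tr (σ : k ≃+* k) {a₀ b₀ a₀' b₀' : k} (ha₀ : σ a₀ = a₀') (hb₀ : σ b₀ = b₀')
    (N : Nd a₀ b₀) {X y : k} (hσ : σ X = X) (hX : X ≠ N.K)
    (h : (CV N.a N.b).toAffine.Nonsingular (xi N.e₁ N.e₂ N.e₃ X) y) :
    ∃ (N' : Nd a₀' b₀') (y' : k) (_ : X ≠ N'.K)
      (h' : (CV N'.a N'.b).toAffine.Nonsingular (xi N'.e₁ N'.e₂ N'.e₃ X) y'),
      tp σ ha₀ hb₀ (N.f (Affine.Point.some _ _ h)) = N'.f (Affine.Point.some _ _ h') := by
  have hx : σ (xi N.e₁ N.e₂ N.e₃ X) = xi (σ N.e₁) (σ N.e₂) (σ N.e₃) X := by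
    rw [xi_tr, hσ]
  have h1 := ns_map (σ : k →+* k) (rfl : σ N.a = σ N.a) (rfl : σ N.b = σ N.b) h
  have h' : (CV (σ N.a) (σ N.b)).toAffine.Nonsingular (xi (σ N.e₁) (σ N.e₂) (σ N.e₃) X) (σ y) := by
    rw [← hx]; exact h1
  refine ⟨ndtr σ ha₀ hb₀ N, σ y, ?_, h', ?_⟩
  · intro hK
    apply hX
    apply σ.injective
    rw [hσ]
    have e : (ndtr σ ha₀ hb₀ N).K = σ N.K := (kap_tr σ _ _ _).symm
    rw [← e]; exact hK
  · have e : tp σ.symm (symm_eq σ rfl) (symm_eq σ rfl)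
        (Affine.Point.some _ _ h' : Pt (σ N.a) (σ N.b)) = Affine.Point.some _ _ h := by
      apply coords_injective
      rw [coords_tp]
      change some (σ.symm (xi (σ N.e₁) (σ N.e₂) (σ N.e₃) X), σ.symm (σ y)) = some (_, _)
      rw [← hx, σ.symm_apply_apply, σ.symm_apply_apply]
    change _ = tp σ ha₀ hb₀ (N.f (tp σ.symm (symm_eq σ rfl) (symm_eq σ rfl)
      (Affine.Point.some _ _ h')))
    rw [e]

end ext

section sys
variable {X : AlgebraicClosure ℚ} {m : ℕ} {a₁ b₁ : AlgebraicClosure ℚ} {P₁ : Pt a₁ b₁}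

lemma pr_tr (σ : AlgebraicClosure ℚ ≃+* AlgebraicClosure ℚ) (hσ : σ X = X)
    {a b a' b' : AlgebraicClosure ℚ} (ha : σ a = a') (hb : σ b = b') {P : Pt a b} (h : Pr X P) :
    Pr X (tp σ ha hb P) := by
  obtain ⟨N, y, hN, hy, e⟩ := h
  obtain ⟨N', y', hN', hy', e'⟩ := node_tr σ ha hb N hσ hN hy
  refine ⟨N', y', hN', hy', ?_⟩
  rw [← map_nsmul, e, map_nsmul, e']

lemma gn_tr (σ : AlgebraicClosure ℚ ≃+* AlgebraicClosure ℚ) (hσ : σ X = X) (ha₁ : σ a₁ = a₁)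
    (hb₁ : σ b₁ = b₁) (hP₁ : (coords P₁).map (Prod.map σ σ) = coords P₁)
    {a b a' b' : AlgebraicClosure ℚ} (ha : σ a = a') (hb : σ b = b') {x : Pt a b}
    (h : Gn X m P₁ a b x) : Gn X m P₁ a' b' (tp σ ha hb x) := by
  rcases h with ⟨N, y, hN, hy, e⟩ | ⟨n, hn, h⟩ | ⟨ha', hb', h, hp⟩
  · obtain ⟨N', y', hN', hy', e'⟩ := node_tr σ ha hb N hσ hN hy
    refine Gn.main N' y' hN' hy' ?_
    rw [e, map_nsmul, map_nsmul, e']
  · refine Gn.tor n hn ?_
    rw [← map_nsmul, h, map_zero]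
  · subst ha' hb'
    refine Gn.pt (ha.symm.trans ha₁) (hb.symm.trans hb₁) ?_ ?_
    · rw [coords_tp, h, hP₁]
    · rw [← map_nsmul]
      exact pr_tr σ hσ ha hb hp

lemma lam_tr (σ : AlgebraicClosure ℚ ≃+* AlgebraicClosure ℚ) (hσ : σ X = X) (ha₁ : σ a₁ = a₁)
    (hb₁ : σ b₁ = b₁) (hP₁ : (coords P₁).map (Prod.map σ σ) = coords P₁)
    {a b a' b' : AlgebraicClosure ℚ} (ha : σ a = a') (hb : σ b = b') {x : Pt a b}
    (h : x ∈ Lam X m P₁ a b) : tp σ ha hb x ∈ Lam X m P₁ a' b' := by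
  unfold Lam at h
  induction h using AddSubgroup.closure_induction with
  | mem x hx => exact AddSubgroup.subset_closure (gn_tr σ hσ ha₁ hb₁ hP₁ ha hb hx)
  | zero => rw [map_zero]; exact zero_mem _
  | add x y _ _ hx hy => rw [map_add]; exact add_mem hx hy
  | neg x _ hx => rw [map_neg]; exact neg_mem hx

end sys

/-- the parameter is fixed by the automorphisms which fix the points -/
theorem exists_param3 {θ : AlgebraicClosure ℚ →+* PadicAlgCl 2} {a b e₁ e₂ e₃ : AlgebraicClosure ℚ}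
    (hrt : Rt a b e₁ e₂ e₃) {P : Pt a b} (hP : ∀ n : ℕ, n ≠ 0 → n • P ≠ 0) {ε : ℝ} (hε : 0 < ε) :
    ∃ (X : AlgebraicClosure ℚ) (m : ℕ), X ≠ 0 ∧ ‖θ X‖ ≤ ε ∧ m ≠ 0 ∧ Pr X (m • P) ∧
      ∀ σ : AlgebraicClosure ℚ ≃+* AlgebraicClosure ℚ, σ e₁ = e₁ → σ e₂ = e₂ → σ e₃ = e₃ →
        (coords P).map (Prod.map σ σ) = coords P → σ X = X := by
  obtain ⟨C, hC⟩ : ∃ C : ℝ, C = max (max ‖θ e₁‖ ‖θ e₂‖) (ε⁻¹ * ‖θ (e₃ - e₁)‖) := ⟨_, rfl⟩
  obtain ⟨m, x, y, h, hm, hmP, hx⟩ := exists_mult θ (disc_of hrt) hP C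
  have h1 : ‖θ e₁‖ < ‖θ x‖ := lt_of_le_of_lt (by
    rw [hC]; exact (le_max_left _ _).trans (le_max_left _ _)) hx
  have h2 : ‖θ e₂‖ < ‖θ x‖ := lt_of_le_of_lt (by
    rw [hC]; exact (le_max_right _ _).trans (le_max_left _ _)) hx
  have h3 : ε⁻¹ * ‖θ (e₃ - e₁)‖ < ‖θ x‖ := lt_of_le_of_lt (by
    rw [hC]; exact le_max_right _ _) hx
  have n1 : x ≠ e₁ := by
    rintro rfl
    exact lt_irrefl _ h1
  have n2 : x ≠ e₂ := by
    rintro rfl
    exact lt_irrefl _ h2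
  obtain ⟨y', hT, h', e, hk⟩ := add_T hrt h n1 n2
  have nx : ‖θ (x - e₁)‖ = ‖θ x‖ := by rw [map_sub, dom_sub h1]
  have nx0 : 0 < ‖θ x‖ := lt_of_le_of_lt (norm_nonneg _) h1
  refine ⟨(e₃ - e₁) / (x - e₁), m, ?_, ?_, hm, ⟨nd0 hrt, y', hk, h', ?_⟩, ?_⟩
  · exact div_ne_zero (sub_ne_zero.2 hrt.n13.symm) (sub_ne_zero.2 n1)
  · rw [map_div₀, norm_div, nx, div_le_iff₀ nx0]
    have h4 := mul_le_mul_of_nonneg_left h3.le hε.le
    rwa [← mul_assoc, mul_inv_cancel₀ hε.ne', one_mul] at h4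
  · have hT2 : 2 • (Affine.Point.some _ _ hT : Pt a b) = 0 := by
      rw [two_nsmul, add_opp hT hT rfl (by rw [neg_zero])]
    have e2 : (2 • (m • P) : Pt a b) = 2 • (Affine.Point.some _ _ h' : Pt a b) := by
      rw [← e, hmP, smul_add, hT2, add_zero]
    exact e2
  · intro σ s1 s2 s3 sP
    have sa : σ a = a := by
      rw [hrt.ha]; simp only [map_add, map_mul, s1, s2, s3]
    have sb : σ b = b := by
      rw [hrt.hb]; simp only [map_neg, map_mul, s1, s2, s3]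
    have h5 : tp σ sa sb P = P := by
      apply coords_injective
      rw [coords_tp, sP]
    have h6 : tp σ sa sb (m • P) = m • P := by rw [map_nsmul, h5]
    have h7 := congrArg coords h6
    rw [coords_tp, hmP] at h7
    change some (σ x, σ y) = some (x, y) at h7
    have h8 : σ x = x := (Prod.mk.inj (Option.some.inj h7)).1
    rw [map_div₀, map_sub, map_sub, s1, s3, h8]

/-- **the equivariant system** -/
theorem equivariant {a₁ b₁ : AlgebraicClosure ℚ} (hD₁ : Disc a₁ b₁) (P₁ : Pt a₁ b₁) :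
    ∃ Λ : (a b : AlgebraicClosure ℚ) → AddSubgroup (Pt a b), Sy Λ ∧ P₁ ∈ Λ a₁ b₁ ∧
      ∀ σ : AlgebraicClosure ℚ ≃+* AlgebraicClosure ℚ,
        (∀ e, e ^ 3 + a₁ * e + b₁ = 0 → σ e = e) →
        (coords P₁).map (Prod.map σ σ) = coords P₁ →
        ∀ (a b : AlgebraicClosure ℚ) (x : Pt a b) (y : Pt (σ a) (σ b)),
          coords y = (coords x).map (Prod.map σ σ) → (x ∈ Λ a b ↔ y ∈ Λ (σ a) (σ b)) := by
  obtain ⟨θ⟩ := exists_emb (PadicAlgCl 2)
  obtain ⟨e₁, e₂, e₃, hrt⟩ := exists_Rt hD₁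
  obtain ⟨X, m, hX0, hX, hm, hPX, hfix⟩ : ∃ (X : AlgebraicClosure ℚ) (m : ℕ), X ≠ 0 ∧
      ‖θ X‖ ≤ 1 / 512 ∧ m ≠ 0 ∧ (Pr X (m • P₁) ∨ ∃ n : ℕ, n ≠ 0 ∧ n • P₁ = 0) ∧
      ∀ σ : AlgebraicClosure ℚ ≃+* AlgebraicClosure ℚ, σ e₁ = e₁ → σ e₂ = e₂ → σ e₃ = e₃ →
        (coords P₁).map (Prod.map σ σ) = coords P₁ → σ X = X := by
    by_cases h : ∀ n : ℕ, n ≠ 0 → n • P₁ ≠ 0
    · obtain ⟨X, m, h1, h2, h3, h4, h5⟩ := exists_param3 (θ := θ) hrt h
        (show (0 : ℝ) < 1 / 512 by norm_num)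
      exact ⟨X, m, h1, h2, h3, Or.inl h4, h5⟩
    · push Not at h
      refine ⟨2 ^ 9, 1, by norm_num, ?_, one_ne_zero, Or.inr h, fun σ _ _ _ _ => ?_⟩
      · rw [map_pow, map_ofNat, norm_pow, n2]
        norm_num
      · rw [map_pow, map_ofNat]
  refine ⟨Lam X m P₁, sy_lam P₁ hX0 hX hm, lam_point hPX, fun σ hσ hP a b x y hy => ?_⟩
  have s1 : σ e₁ = e₁ := hσ _ hrt.root1
  have s2 : σ e₂ = e₂ := hσ _ hrt.swap12.root1
  have s3 : σ e₃ = e₃ := hσ _ hrt.swap23.swap12.root1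
  have sa : σ a₁ = a₁ := by
    rw [hrt.ha]; simp only [map_add, map_mul, s1, s2, s3]
  have sb : σ b₁ = b₁ := by
    rw [hrt.hb]; simp only [map_neg, map_mul, s1, s2, s3]
  have sX : σ X = X := hfix σ s1 s2 s3 hP
  have ey : tp σ rfl rfl x = y := by
    apply coords_injective
    rw [coords_tp, hy]
  constructor
  · intro hx
    rw [← ey]
    exact lam_tr σ sX sa sb hP rfl rfl hx
  · intro h
    have i1 : σ.symm a₁ = a₁ := symm_eq σ sa
    have i2 : σ.symm b₁ = b₁ := symm_eq σ sb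
    have i3 : σ.symm X = X := symm_eq σ sX
    have i4 : (coords P₁).map (Prod.map σ.symm σ.symm) = coords P₁ := by
      conv_lhs => rw [← hP]
      rw [map_map']
      exact map_id' _ _ fun z => σ.symm_apply_apply z
    have h2 := lam_tr σ.symm i3 i1 i2 i4 (σ.symm_apply_apply a) (σ.symm_apply_apply b) h
    have e2 : tp σ.symm (σ.symm_apply_apply a) (σ.symm_apply_apply b) y = x := by
      apply coords_injective
      rw [coords_tp, hy, map_map']
      exact map_id' _ _ fun z => σ.symm_apply_apply z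
    rwa [e2] at h2

end Pool.Agent.Run7.h780.TW
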