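import Mathlib

/-!
# Functions of several points which are affine and alternating
-/

set_option autoImplicit false
set_option linter.all false

namespace Pool.Agent.Run7.h780.TW

section mob
variable {ι M : Type} [DecidableEq ι] [AddCommGroup M]

/-- the Moebius inversion on the finite sets -/
noncomputable def zf (f : Finset ι → M) (S : Finset ι) : M :=
  ∑ U ∈ S.powerset, (-1 : ℤ) ^ (S.card + U.card) • f U

lemma zf_insert (f : Finset ι → M) {S : Finset ι} {j : ι} (hj : j ∉ S) :
    zf f (insert j S) = zf (fun U => f (insert j U)) S - zf f S := by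
  unfold zf
  rw [Finset.sum_powerset_insert hj, Finset.card_insert_of_notMem hj, add_comm, sub_eq_add_neg,
    ← Finset.sum_neg_distrib]
  congr 1
  · refine Finset.sum_congr rfl fun U hU => ?_
    have hU' : j ∉ U := fun h => hj (Finset.mem_powerset.1 hU h)
    rw [Finset.card_insert_of_notMem hU']
    have e : S.card + 1 + (U.card + 1) = S.card + U.card + 2 := by ring
    rw [e, pow_add]
    norm_num
  · refine Finset.sum_congr rfl fun U hU => ?_
    have e : S.card + 1 + U.card = S.card + U.card + 1 := by ring
    rw [e, pow_succ, mul_neg_one, neg_smul]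

lemma zf_sub (f g : Finset ι → M) (S : Finset ι) :
    zf f S - zf g S = zf (fun U => f U - g U) S := by
  unfold zf
  rw [← Finset.sum_sub_distrib]
  refine Finset.sum_congr rfl fun U _ => ?_
  rw [smul_sub]

lemma zf_add (f g : Finset ι → M) (S : Finset ι) :
    zf f S + zf g S = zf (fun U => f U + g U) S := by
  unfold zf
  rw [← Finset.sum_add_distrib]
  refine Finset.sum_congr rfl fun U _ => ?_
  rw [smul_add]

lemma zf_congr {f g : Finset ι → M} {S : Finset ι} (h : ∀ U ⊆ S, f U = g U) :
    zf f S = zf g S := by
  unfold zf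
  refine Finset.sum_congr rfl fun U hU => ?_
  rw [h U (Finset.mem_powerset.1 hU)]

lemma zf_zero {f : Finset ι → M} {S : Finset ι} (h : ∀ U ⊆ S, f U = 0) : zf f S = 0 := by
  unfold zf
  refine Finset.sum_eq_zero fun U hU => ?_
  rw [h U (Finset.mem_powerset.1 hU), smul_zero]

lemma zf_sum (f : Finset ι → M) (T : Finset ι) : ∑ S ∈ T.powerset, zf f S = f T := by
  induction T using Finset.induction_on generalizing f with
  | empty => simp [zf]
  | insert j T hj ih =>
    rw [Finset.sum_powerset_insert hj, ← Finset.sum_add_distrib]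
    have h : ∀ S ∈ T.powerset, zf f S + zf f (insert j S) = zf (fun U => f (insert j U)) S := by
      intro S hS
      have hS' : j ∉ S := fun h => hj (Finset.mem_powerset.1 hS h)
      rw [zf_insert f hS']
      abel
    rw [Finset.sum_congr rfl h, ih]

end mob

section fn
variable {r : ℕ} {A M : Type} [AddCommGroup A] [AddCommGroup M]

/-- the part of a point on a set of coordinates -/
noncomputable def pt (x : Fin r → A) (S : Finset (Fin r)) : Fin r → A :=
  fun l => if l ∈ S then x l else 0

lemma pt_insert (x : Fin r → A) (S : Finset (Fin r)) (j : Fin r) :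
    Function.update (pt x S) j (x j) = pt x (insert j S) := by
  funext l
  by_cases hl : l = j
  · subst hl
    rw [Function.update_self]
    simp [pt]
  · rw [Function.update_of_ne hl]
    simp [pt, hl]

lemma pt_zero (x : Fin r → A) {S : Finset (Fin r)} {j : Fin r}
    (hj : j ∉ S) : Function.update (pt x S) j 0 = pt x S := by
  rw [Function.update_eq_self_iff]
  simp [pt, hj]

lemma pt_update (x : Fin r → A) {S : Finset (Fin r)} {j : Fin r} (hj : j ∉ S) (P : A) :
    pt (Function.update x j P) S = pt x S := by
  funext l
  unfold pt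
  by_cases hl : l ∈ S
  · have : l ≠ j := by rintro rfl; exact hj hl
    rw [if_pos hl, if_pos hl, Function.update_of_ne this]
  · rw [if_neg hl, if_neg hl]

/-- the component on `S` -/
noncomputable def zc (c : (Fin r → A) → M) (x : Fin r → A) (S : Finset (Fin r)) : M :=
  zf (fun U => c (pt x U)) S

variable {c : (Fin r → A) → M}

/-- affine in each coordinate -/
def Aff (c : (Fin r → A) → M) : Prop := ∀ (x : Fin r → A) (i : Fin r) (P Q : A),
  c (Function.update x i P) + c (Function.update x i Q) - c (Function.update x i (P + Q)) -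
    c (Function.update x i 0) = 0

/-- the mixed difference -/
def D4 (c : (Fin r → A) → M) (x : Fin r → A) (i j : Fin r) (P Q : A) : M :=
  c (Function.update (Function.update x i P) j Q) -
    c (Function.update (Function.update x i P) j 0) -
    c (Function.update (Function.update x i 0) j Q) +
    c (Function.update (Function.update x i 0) j 0)

lemma zc_pair {x : Fin r → A} {S : Finset (Fin r)} {i j : Fin r} (hij : i ≠ j) (hi : i ∈ S)
    (hj : j ∈ S) (h : ∀ w : Fin r → A, D4 c w i j (x i) (x j) = 0) : zc c x S = 0 := by
  obtain ⟨S', hS', rfl⟩ : ∃ S', j ∉ S' ∧ S = insert j S' :=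
    ⟨S.erase j, Finset.notMem_erase _ _, (Finset.insert_erase hj).symm⟩
  have hi' : i ∈ S' := (Finset.mem_insert.1 hi).resolve_left hij
  obtain ⟨T, hT, rfl⟩ : ∃ T, i ∉ T ∧ S' = insert i T :=
    ⟨S'.erase i, Finset.notMem_erase _ _, (Finset.insert_erase hi').symm⟩
  unfold zc
  rw [zf_insert _ hS', zf_insert _ hT, zf_insert _ hT, zf_sub, zf_sub, zf_sub]
  refine zf_zero fun U hU => ?_
  have hiU : i ∉ U := fun h => hT (hU h)
  have hjU : j ∉ U := fun h => hS' (Finset.mem_insert_of_mem (hU h))
  have h1 := h (pt x U)
  unfold D4 at h1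
  rw [pt_insert, pt_insert, pt_zero x hiU, pt_insert, pt_zero x hjU] at h1
  have h2 : Function.update (pt x (insert i U)) j 0 = pt x (insert i U) :=
    pt_zero x (by
      rw [Finset.mem_insert]
      rintro (h | h)
      · exact hij h.symm
      · exact hjU h)
  rw [h2] at h1
  rw [← h1]
  abel

lemma zc_add (hc : Aff c) {x : Fin r → A} {S : Finset (Fin r)} {i : Fin r} (hi : i ∈ S)
    (P Q : A) : zc c (Function.update x i (P + Q)) S =
      zc c (Function.update x i P) S + zc c (Function.update x i Q) S := by
  obtain ⟨T, hT, rfl⟩ : ∃ T, i ∉ T ∧ S = insert i T :=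
    ⟨S.erase i, Finset.notMem_erase _ _, (Finset.insert_erase hi).symm⟩
  have key : ∀ R : A, zc c (Function.update x i R) (insert i T) =
      zf (fun U => c (Function.update (pt x U) i R) - c (pt x U)) T := by
    intro R
    unfold zc
    rw [zf_insert _ hT, zf_sub]
    refine zf_congr fun U hU => ?_
    have hiU : i ∉ U := fun h => hT (hU h)
    have h1 := pt_insert (Function.update x i R) U i
    rw [Function.update_self, pt_update x hiU] at h1
    rw [← h1, pt_update x hiU]
  rw [key, key, key, zf_add]
  refine zf_congr fun U hU => ?_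
  have hiU : i ∉ U := fun h => hT (hU h)
  have h1 := hc (pt x U) i P Q
  rw [pt_zero x hiU] at h1
  have h2 : c (Function.update (pt x U) i (P + Q)) = c (Function.update (pt x U) i P) +
      c (Function.update (pt x U) i Q) - c (pt x U) := by
    rw [sub_sub, sub_eq_zero] at h1
    rw [h1]
    abel
  rw [h2]
  abel

/-- extension by zero -/
noncomputable def ex (S : Finset (Fin r)) (y : S → A) : Fin r → A :=
  fun i => if h : i ∈ S then y ⟨i, h⟩ else 0

lemma ex_apply (S : Finset (Fin r)) (y : S → A) (i : S) : ex S y i = y i := by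
  unfold ex
  rw [dif_pos i.2]

lemma ex_update (S : Finset (Fin r)) [DecidableEq S] (y : S → A) (i : S) (P : A) :
    ex S (Function.update y i P) = Function.update (ex S y) (i : Fin r) P := by
  funext l
  by_cases hl : l = (i : Fin r)
  · subst hl
    rw [Function.update_self, ex_apply, Function.update_self]
  · rw [Function.update_of_ne hl]
    unfold ex
    by_cases h : l ∈ S
    · rw [dif_pos h, dif_pos h, Function.update_of_ne]
      rintro h'
      exact hl (congrArg Subtype.val h')
    · rw [dif_neg h, dif_neg h]

lemma zc_ex (c : (Fin r → A) → M) (x : Fin r → A) (S : Finset (Fin r)) :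
    zc c (ex S fun i => x i) S = zc c x S := by
  unfold zc
  refine zf_congr fun U hU => ?_
  congr 1
  funext l
  unfold pt ex
  by_cases h : l ∈ U
  · rw [if_pos h, if_pos h, dif_pos (hU h)]
  · rw [if_neg h, if_neg h]

/-- the component as an alternating map -/
noncomputable def am (hc : Aff c) (ha : ∀ w i j, i ≠ j → ∀ P : A, D4 c w i j P P = 0)
    (S : Finset (Fin r)) : A [⋀^S]→ₗ[ℤ] M where
  toFun y := zc c (ex S y) S
  map_update_add' {inst} y i P Q := by
    rw [ex_update, ex_update, ex_update]
    exact zc_add hc i.2 P Q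
  map_update_smul' {inst} y i m P := by
    rw [ex_update, ex_update]
    have h := AddMonoidHom.map_zsmul (AddMonoidHom.mk' (fun R : A =>
      zc c (Function.update (ex S y) (i : Fin r) R) S) (fun P Q => zc_add hc i.2 P Q)) m P
    exact h
  map_eq_zero_of_eq' y i j h hij := by
    refine zc_pair (i := (i : Fin r)) (j := (j : Fin r)) (fun e => hij (Subtype.ext e)) i.2 j.2
      fun w => ?_
    rw [ex_apply, ex_apply, h]
    exact ha w _ _ (fun e => hij (Subtype.ext e)) _

end fn

section alt
variable {ι A M : Type} [Fintype ι] [DecidableEq ι] [AddCommGroup A] [AddCommGroup M]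

lemma alt_minor {r : ℕ} (F : A [⋀^ι]→ₗ[ℤ] M) (g : ι → Fin r → ℤ) (x : Fin r → A) :
    (Fintype.card ι).factorial • F (fun a => ∑ j, g a j • x j) =
      ∑ t : ι → Fin r, (Matrix.of fun a b => g a (t b)).det • F (fun a => x (t a)) := by
  have h1 : F (fun a => ∑ j, g a j • x j) =
      ∑ t : ι → Fin r, (∏ a, g a (t a)) • F (fun a => x (t a)) := by
    have h := F.toMultilinearMap.map_sum (fun a (j : Fin r) => g a j • x j)
    change F _ = _ at h
    rw [h]
    refine Finset.sum_congr rfl fun t _ => ?_
    exact F.toMultilinearMap.map_smul_univ (fun a => g a (t a)) fun a => x (t a)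
  have h2 : ∀ σ : Equiv.Perm ι, F (fun a => ∑ j, g a j • x j) =
      ∑ t : ι → Fin r, ((Equiv.Perm.sign σ : ℤ) * ∏ a, g a (t (σ a))) • F (fun a => x (t a)) := by
    intro σ
    rw [h1, ← Equiv.sum_comp (σ.symm.arrowCongr (Equiv.refl (Fin r)))
      (fun t : ι → Fin r => (∏ a, g a (t a)) • F (fun a => x (t a)))]
    refine Finset.sum_congr rfl fun t _ => ?_
    have e : ∀ a, (σ.symm.arrowCongr (Equiv.refl (Fin r))) t a = t (σ a) := fun a => rfl
    simp only [e]
    have h3 := F.map_perm (fun a => x (t a)) σ
    have h4 : ((fun a => x (t a)) ∘ σ) = fun a => x (t (σ a)) := rfl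
    rw [h4] at h3
    rw [h3, Units.smul_def, smul_smul, mul_comm]
  have h3 : (Fintype.card ι).factorial • F (fun a => ∑ j, g a j • x j) =
      ∑ σ : Equiv.Perm ι, F (fun a => ∑ j, g a j • x j) := by
    rw [Finset.sum_const, Finset.card_univ, Fintype.card_perm]
  rw [h3, Finset.sum_congr rfl fun σ _ => h2 σ, Finset.sum_comm]
  refine Finset.sum_congr rfl fun t _ => ?_
  rw [← Finset.sum_smul, ← Matrix.det_transpose, Matrix.det_apply']
  rfl

lemma multi_closure (F : A [⋀^ι]→ₗ[ℤ] M) (G : Set A) (h : ∀ y : ι → A, (∀ a, y a ∈ G) → F y = 0)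
    (y : ι → A) (hy : ∀ a, y a ∈ AddSubgroup.closure G) : F y = 0 := by
  have claim : ∀ (T : Finset ι) (y : ι → A), (∀ a ∈ T, y a ∈ AddSubgroup.closure G) →
      (∀ a, a ∉ T → y a ∈ G) → F y = 0 := by
    intro T
    induction T using Finset.induction_on with
    | empty => exact fun y _ h2 => h y fun a => h2 a (Finset.notMem_empty _)
    | insert a T ha ih =>
      intro y h1 h2
      have h3 : ∀ v ∈ AddSubgroup.closure G, F (Function.update y a v) = 0 := by
        intro v hv
        induction hv using AddSubgroup.closure_induction with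
        | mem v hv =>
          refine ih _ (fun b hb => ?_) fun b hb => ?_
          · have : b ≠ a := by rintro rfl; exact ha hb
            rw [Function.update_of_ne this]
            exact h1 b (Finset.mem_insert_of_mem hb)
          · by_cases hba : b = a
            · subst hba
              rw [Function.update_self]; exact hv
            · rw [Function.update_of_ne hba]
              exact h2 b fun h => (Finset.mem_insert.1 h).elim hba hb
        | zero => exact F.map_update_zero y a
        | add v w _ _ hv hw => rw [F.map_update_add, hv, hw, add_zero]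
        | neg v _ hv => rw [F.map_update_neg, hv, neg_zero]
      have h4 := h3 (y a) (h1 a (Finset.mem_insert_self _ _))
      rwa [Function.update_eq_self] at h4
  exact claim Finset.univ y (fun a _ => hy a) fun a ha => absurd (Finset.mem_univ a) ha

end alt

end Pool.Agent.Run7.h780.TW
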