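import Pool.Agent.Run7.h780.TW.Nodes
import Pool.Agent.W327.RK.Bas

/-!
# Automorphisms which move one point of the chain only
-/

set_option autoImplicit false
set_option linter.all false

namespace Pool.Agent.Run7.h780.TW

open WeierstrassCurve Pool.Agent.H901R3.MS Pool.Agent.Run7.h780.ZC Pool.Agent.Run7.h780.GR
open Pool.Agent.Y715.Nr (Au nrm)
open scoped Classical

/-- automorphisms of the algebraic numbers induced by local automorphisms -/
theorem restr {p : ℕ} [Fact p.Prime] (θ : AlgebraicClosure ℚ →+* PadicAlgCl p) (τ : Au p) :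
    ∃ g : AlgebraicClosure ℚ ≃ₐ[ℚ] AlgebraicClosure ℚ, ∀ x, θ (g x) = τ (θ x) := by
  have hN := normal_rat
  let : Algebra (AlgebraicClosure ℚ) (PadicAlgCl p) := θ.toAlgebra
  have : IsScalarTower ℚ (AlgebraicClosure ℚ) (PadicAlgCl p) :=
    IsScalarTower.of_algebraMap_eq fun x => by
      rw [eq_ratCast, eq_ratCast, map_ratCast]
  let τ' : PadicAlgCl p ≃ₐ[ℚ] PadicAlgCl p := τ.restrictScalars ℚ
  exact ⟨τ'.restrictNormal (AlgebraicClosure ℚ),
    fun x => τ'.restrictNormal_commutes (AlgebraicClosure ℚ) x⟩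

/-- the elements fixed by `τ` -/
noncomputable def Ef {p : ℕ} [Fact p.Prime] {k : Type} [Field k] (θ : k →+* PadicAlgCl p)
    (τ : Au p) : Subfield k :=
  RingHom.eqLocusField ((τ : PadicAlgCl p →+* PadicAlgCl p).comp θ) θ

lemma mem_Ef {p : ℕ} [Fact p.Prime] {k : Type} [Field k] {θ : k →+* PadicAlgCl p} {τ : Au p}
    {z : k} : z ∈ Ef θ τ ↔ τ (θ z) = θ z := Iff.rfl

/-- square roots near one are fixed -/
lemma rho_fix {τ : Au 2} {ρ z : PadicAlgCl 2} (h : ρ ^ 2 = z) (h1 : ‖ρ - 1‖ < 1 / 2)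
    (hz : τ z = z) : τ ρ = ρ := by
  have h2 : (τ ρ) ^ 2 = ρ ^ 2 := by rw [← map_pow, h, hz]
  rcases sq_eq_sq_iff_eq_or_eq_neg.1 h2 with h3 | h3
  · exact h3
  · exfalso
    have h4 : ‖τ (ρ - 1)‖ = ‖ρ - 1‖ := nrm τ _
    rw [map_sub, map_one, h3] at h4
    have h5 : -ρ - 1 = -(2 + (ρ - 1)) := by ring
    rw [h5, norm_neg, dom (by rw [n2]; exact h1), n2] at h4
    linarith

/-- square roots near one exist -/
lemma exists_rho {k : Type} [Field k] [IsAlgClosed k] (θ : k →+* PadicAlgCl 2) {w : k}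
    (h : ‖θ w‖ < 1 / 4) : ∃ ρ : k, ρ ^ 2 = 1 - w ∧ ‖θ ρ - 1‖ < 1 / 2 := by
  obtain ⟨ρ, hρ⟩ := IsAlgClosed.exists_pow_nat_eq (1 - w) (n := 2) (by norm_num)
  have h1 : ‖θ ρ - 1‖ * ‖θ ρ + 1‖ < 1 / 4 := by
    have e : (θ ρ - 1) * (θ ρ + 1) = -θ w := by
      have : (θ ρ) ^ 2 = 1 - θ w := by rw [← map_pow, hρ, map_sub, map_one]
      linear_combination this
    rw [← norm_mul, e, norm_neg]
    exact h
  by_cases h2 : ‖θ ρ - 1‖ < 1 / 2
  · exact ⟨ρ, hρ, h2⟩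
  · push Not at h2
    refine ⟨-ρ, by rw [neg_sq]; exact hρ, ?_⟩
    have e : θ (-ρ) - 1 = -(θ ρ + 1) := by rw [map_neg]; ring
    rw [e, norm_neg]
    by_contra h3
    push Not at h3
    nlinarith

namespace Ch

section
variable {k : Type} [Field k] [IsAlgClosed k] [CharZero k] {a₀ b₀ : k}

/-- the data of a node -/
noncomputable def dt (N : Nd a₀ b₀) : Finset k := {N.a, N.b, N.e₁, N.e₂, N.e₃, a₀, b₀} ∪ N.S

/-- all data up to `n` -/
noncomputable def D (c : Ch a₀ b₀) (X r₀ : k) : ℕ → Finset k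
  | 0 => {X, r₀} ∪ dt (c.N 0)
  | n + 1 => D c X r₀ n ∪ {c.g n} ∪ dt (c.N (n + 1))

variable (c : Ch a₀ b₀) {X r₀ : k}

lemma D_mono {m n : ℕ} (h : m ≤ n) : c.D X r₀ m ⊆ c.D X r₀ n := by
  induction h with
  | refl => exact Finset.Subset.refl _
  | step h ih =>
    refine ih.trans ?_
    intro z hz
    exact Finset.mem_union_left _ (Finset.mem_union_left _ hz)

lemma X_mem (n : ℕ) : X ∈ c.D X r₀ n := c.D_mono (Nat.zero_le n) (by simp [D])

lemma r_mem (n : ℕ) : r₀ ∈ c.D X r₀ n := c.D_mono (Nat.zero_le n) (by simp [D])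

lemma g_mem {m n : ℕ} (h : m < n) : c.g m ∈ c.D X r₀ n := c.D_mono h (by simp [D])

lemma dt_mem {m n : ℕ} (h : m ≤ n) {z : k} (hz : z ∈ dt (c.N m)) : z ∈ c.D X r₀ n := by
  apply c.D_mono h
  cases m with
  | zero => exact Finset.mem_union_right _ hz
  | succ m => exact Finset.mem_union_right _ hz

/-- the data of the next node are determined -/
lemma dt_up (E : Subfield k) {n : ℕ} (d : ∀ z ∈ dt (c.N n), z ∈ E) (hs : c.s n ∈ E) :
    ∀ z ∈ dt (c.N (n + 1)), z ∈ E := by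
  have ha := d (c.N n).a (by simp [dt])
  have h1 := d (c.N n).e₁ (by simp [dt])
  have h2 := d (c.N n).e₂ (by simp [dt])
  have h3 := d (c.N n).e₃ (by simp [dt])
  have ha0 := d a₀ (by simp [dt])
  have hb0 := d b₀ (by simp [dt])
  have m2 : (2 : k) ∈ E := by exact_mod_cast natCast_mem E 2
  have m4 : (4 : k) ∈ E := by exact_mod_cast natCast_mem E 4
  have m11 : (11 : k) ∈ E := by exact_mod_cast natCast_mem E 11
  have m15 : (15 : k) ∈ E := by exact_mod_cast natCast_mem E 15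
  intro z hz
  rw [dt, c.hN, Finset.mem_union] at hz
  rcases hz with hz | hz
  · simp only [Finset.mem_insert, Finset.mem_singleton] at hz
    rcases hz with rfl | rfl | rfl | rfl | rfl | rfl | rfl
    · show -4 * (c.N n).a - 15 * (c.N n).e₁ ^ 2 ∈ E
      exact sub_mem (mul_mem (neg_mem m4) ha) (mul_mem m15 (pow_mem h1 2))
    · show -2 * (c.N n).e₁ * (11 * (c.N n).e₁ ^ 2 + 4 * (c.N n).a) ∈ E
      exact mul_mem (mul_mem (neg_mem m2) h1)
        (add_mem (mul_mem m11 (pow_mem h1 2)) (mul_mem m4 ha))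
    · show (c.N n).e₁ + 2 * c.s n ∈ E
      exact add_mem h1 (mul_mem m2 hs)
    · show -2 * (c.N n).e₁ ∈ E
      exact mul_mem (neg_mem m2) h1
    · show (c.N n).e₁ - 2 * c.s n ∈ E
      exact sub_mem h1 (mul_mem m2 hs)
    · exact ha0
    · exact hb0
  · have hz' : z ∈ ({(c.N n).a, (c.N n).e₁} : Finset k) ∪ (c.N n).S := hz
    rw [Finset.mem_union, Finset.mem_insert, Finset.mem_singleton] at hz'
    rcases hz' with (rfl | rfl) | hz'
    · exact ha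
    · exact h1
    · exact d z (Finset.mem_union_right _ hz')

lemma D_up (E : Subfield k) {n : ℕ} (h : ∀ z ∈ c.D X r₀ n, z ∈ E) (hg : c.g n ∈ E) :
    ∀ z ∈ c.D X r₀ (n + 1), z ∈ E := by
  have d : ∀ z ∈ dt (c.N n), z ∈ E := fun z hz => h z (c.dt_mem le_rfl hz)
  have hs : c.s n ∈ E := by
    rw [s_eq (c.N n) (c.s n)]
    exact mul_mem hg (sub_mem (d _ (by simp [dt])) (d _ (by simp [dt])))
  intro z hz
  rw [D, Finset.mem_union, Finset.mem_union, Finset.mem_singleton] at hz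
  rcases hz with (hz | rfl) | hz
  · exact h z hz
  · exact hg
  · exact c.dt_up E d hs z hz

lemma K_mem (E : Subfield k) {n : ℕ} (h : ∀ z ∈ c.D X r₀ n, z ∈ E) {m : ℕ} (hm : m ≤ n) :
    (c.N m).K ∈ E := by
  have d : ∀ z ∈ dt (c.N m), z ∈ E := fun z hz => h z (c.dt_mem hm hz)
  exact div_mem (sub_mem (d _ (by simp [dt])) (d _ (by simp [dt])))
    (sub_mem (d _ (by simp [dt])) (d _ (by simp [dt])))

variable {θ : k →+* PadicAlgCl 2}

lemma K_norm (h1 : ‖θ (c.N 0).K‖ < 1) (n : ℕ) : ‖θ (c.N n).K‖ < 1 ∧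
    min ‖θ (c.N 0).K‖ (1 / 16) ≤ ‖θ (c.N n).K‖ := by
  induction n with
  | zero => exact ⟨h1, min_le_left _ _⟩
  | succ n ih =>
    have h2 := step_norm (κ := θ (c.N n).K) (σ := θ (c.g n)) (κ' := θ (c.N (n + 1)).K)
      (by rw [← map_pow, c.g_sq]) (by
        rw [c.K_succ, map_div₀, map_mul, map_pow, map_add, map_one, map_ofNat]) ih.1
    refine ⟨h2.2, ?_⟩
    obtain ⟨m, hm⟩ : ∃ m, m = min ‖θ (c.N 0).K‖ (1 / 16) := ⟨_, rfl⟩
    rw [← hm] at ih ⊢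
    have hm0 : 0 ≤ m := by rw [hm]; exact le_min (norm_nonneg _) (by norm_num)
    have hm1 : m ≤ 1 / 16 := by rw [hm]; exact min_le_right _ _
    by_contra hcon
    push Not at hcon
    have h3 : ‖θ (c.N (n + 1)).K‖ ^ 2 < m ^ 2 :=
      pow_lt_pow_left₀ hcon (norm_nonneg _) two_ne_zero
    rw [h2.1] at h3
    nlinarith [ih.2]

/-- **infinitely many square roots are new** -/
theorem inf (h1 : ‖θ (c.N 0).K‖ < 1) (hs : Sgn (θ (c.N 0).K) (θ (c.g 0))) (n₀ : ℕ) :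
    ∃ n, n₀ ≤ n ∧ ∃ τ : Au 2, (∀ z ∈ c.D X r₀ n, z ∈ Ef θ τ) ∧ τ (θ (c.g n)) = -θ (c.g n) := by
  by_contra hcon
  push Not at hcon
  have hg : ∀ n, n₀ ≤ n → ∀ τ : Au 2, (∀ z ∈ c.D X r₀ n, z ∈ Ef θ τ) → c.g n ∈ Ef θ τ := by
    intro n hn τ hτ
    have h2 := hcon n hn τ hτ
    have h3 : (τ (θ (c.g n))) ^ 2 = (θ (c.g n)) ^ 2 := by
      have h4 : τ (θ (c.N n).K) = θ (c.N n).K := c.K_mem (Ef θ τ) hτ le_rfl
      rw [← map_pow, ← map_pow, c.g_sq, h4]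
    rcases sq_eq_sq_iff_eq_or_eq_neg.1 h3 with h4 | h4
    · exact h4
    · exact absurd h4 h2
  have hall : ∀ τ : Au 2, (∀ z ∈ c.D X r₀ n₀, z ∈ Ef θ τ) → ∀ n, n₀ ≤ n →
      ∀ z ∈ c.D X r₀ n, z ∈ Ef θ τ := by
    intro τ hτ n hn
    induction hn with
    | refl => exact hτ
    | step hn ih => exact c.D_up (Ef θ τ) ih (hg _ hn τ ih)
  obtain ⟨F, hF⟩ : ∃ F, F = IntermediateField.adjoin ℚ_[2]
      ((((c.D X r₀ n₀).image θ : Finset (PadicAlgCl 2)) : Set (PadicAlgCl 2))) := ⟨_, rfl⟩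
  have hfin : FiniteDimensional ℚ_[2] F := by
    rw [hF]
    exact IntermediateField.finiteDimensional_adjoin
      fun x _ => (Algebra.IsAlgebraic.isAlgebraic x).isIntegral
  refine tower (κ := fun n => θ (c.N n).K) (σ := fun n => θ (c.g n)) ?_ ?_ ?_ h1 hs F ?_
  · intro n
    show θ (c.g n) ^ 2 = θ (c.N n).K
    rw [← map_pow, c.g_sq]
  · intro n
    show θ (c.N (n + 1)).K = 4 * θ (c.g n) / (1 + θ (c.g n)) ^ 2
    rw [c.K_succ, map_div₀, map_mul, map_pow, map_add, map_one, map_ofNat]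
  · show θ (c.N 0).K ≠ 0
    exact (map_ne_zero θ).2 (c.K_ne 0)
  · intro n
    show θ (c.N n).K ∈ F
    apply Pool.Agent.W327.RK.mem_of_fixed
    intro τ hτ
    have h2 : ∀ z ∈ c.D X r₀ n₀, z ∈ Ef θ τ := by
      intro z hz
      rw [mem_Ef]
      apply hτ
      rw [hF]
      apply IntermediateField.subset_adjoin
      exact Finset.mem_coe.2 (Finset.mem_image_of_mem θ hz)
    exact c.K_mem (Ef θ τ) (hall τ h2 _ (le_max_left n₀ n)) (le_max_right n₀ n)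

end

section
variable {a₀ b₀ : AlgebraicClosure ℚ} (c : Ch a₀ b₀) {X r₀ : AlgebraicClosure ℚ}
  {θ : AlgebraicClosure ℚ →+* PadicAlgCl 2}

/-- the same for the automorphisms of the algebraic numbers -/
theorem moves (h1 : ‖θ (c.N 0).K‖ < 1) (hs : Sgn (θ (c.N 0).K) (θ (c.g 0)))
    {ρ : ℕ → AlgebraicClosure ℚ} (hρ : ∀ n, ρ n ^ 2 = 1 - X / (c.N n).K)
    (hρ1 : ∀ n, ‖θ (ρ n) - 1‖ < 1 / 2) (n₀ : ℕ) :
    ∃ n, n₀ ≤ n ∧ ∃ g : AlgebraicClosure ℚ ≃ₐ[ℚ] AlgebraicClosure ℚ,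
      (∀ z ∈ c.D X r₀ n, g z = z) ∧ g (c.g n) = -c.g n ∧ ∀ m ≤ n, g (ρ m) = ρ m := by
  obtain ⟨n, hn, τ, hτ, hτg⟩ := c.inf (X := X) (r₀ := r₀) h1 hs n₀
  obtain ⟨g, hg⟩ := restr θ τ
  refine ⟨n, hn, g, fun z hz => θ.injective ?_, θ.injective ?_, fun m hm => θ.injective ?_⟩
  · rw [hg]; exact hτ z hz
  · rw [hg, map_neg]; exact hτg
  · rw [hg]
    apply rho_fix (z := θ (1 - X / (c.N m).K)) (by rw [← map_pow, hρ]) (hρ1 m)
    exact sub_mem (one_mem (Ef θ τ)) (div_mem (hτ _ (c.X_mem n)) (c.K_mem (Ef θ τ) hτ hm))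

end

end Ch

end Pool.Agent.Run7.h780.TW
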