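import Pool.Agent.Run7.h780.TW.Pow

/-!
# Two systems which meet
-/

set_option autoImplicit false
set_option linter.all false

namespace Pool.Agent.Run7.h780.TW

open WeierstrassCurve Pool.Agent.H901R3.MS Pool.Agent.Run7.h780.ZC Pool.Agent.Run7.h780.GR
open scoped Classical

/-- a multiple of the point in a system with a small parameter -/
theorem exists_param2 {θ : AlgebraicClosure ℚ →+* PadicAlgCl 2} {a b : AlgebraicClosure ℚ}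
    (hD : Disc a b) {P : Pt a b} (hP : ∀ n : ℕ, n ≠ 0 → n • P ≠ 0) {ε : ℝ} (hε : 0 < ε) :
    ∃ (X : AlgebraicClosure ℚ) (m : ℕ), X ≠ 0 ∧ ‖θ X‖ ≤ ε ∧ m ≠ 0 ∧ Pr X (m • P) := by
  obtain ⟨e₁, e₂, e₃, hrt⟩ := exists_Rt hD
  obtain ⟨C, hC⟩ : ∃ C : ℝ, C = max (max ‖θ e₁‖ ‖θ e₂‖) (ε⁻¹ * ‖θ (e₃ - e₁)‖) := ⟨_, rfl⟩
  obtain ⟨m, x, y, h, hm, hmP, hx⟩ := exists_mult θ hD hP C
  have h1 : ‖θ e₁‖ < ‖θ x‖ := lt_of_le_of_lt (by
    rw [hC]; exact (le_max_left _ _).trans (le_max_left _ _)) hx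
  have h2 : ‖θ e₂‖ < ‖θ x‖ := lt_of_le_of_lt (by
    rw [hC]; exact (le_max_right _ _).trans (le_max_left _ _)) hx
  have h3 : ε⁻¹ * ‖θ (e₃ - e₁)‖ < ‖θ x‖ := lt_of_le_of_lt (by
    rw [hC]; exact le_max_right _ _) hx
  have n1 : x ≠ e₁ := by
    rintro rfl
    exact lt_irrefl _ h1
  have n2 : x ≠ e₂ := by
    rintro rfl
    exact lt_irrefl _ h2
  obtain ⟨y', hT, h', e, hk⟩ := add_T hrt h n1 n2
  have nx : ‖θ (x - e₁)‖ = ‖θ x‖ := by rw [map_sub, dom_sub h1]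
  have nx0 : 0 < ‖θ x‖ := lt_of_le_of_lt (norm_nonneg _) h1
  refine ⟨_, m, ?_, ?_, hm, nd0 hrt, y', hk, h', ?_⟩
  · exact div_ne_zero (sub_ne_zero.2 hrt.n13.symm) (sub_ne_zero.2 n1)
  · rw [map_div₀, norm_div, nx, div_le_iff₀ nx0]
    have h4 := mul_le_mul_of_nonneg_left h3.le hε.le
    rwa [← mul_assoc, mul_inv_cancel₀ hε.ne', one_mul] at h4
  · have hT2 : 2 • (Affine.Point.some _ _ hT : Pt a b) = 0 := by
      rw [two_nsmul, add_opp hT hT rfl (by rw [neg_zero])]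
    have e2 : (2 • (m • P) : Pt a b) = 2 • (Affine.Point.some _ _ h' : Pt a b) := by
      rw [← e, hmP, smul_add, hT2, add_zero]
    exact e2

/-- points with a large abscissa have infinite order, after scaling -/
theorem nontors_scaled {p : ℕ} [Fact p.Prime] {θ : AlgebraicClosure ℚ →+* PadicAlgCl p}
    {a₀ b₀ s x y : AlgebraicClosure ℚ} (hs0 : s ≠ 0) (na : ‖θ (s ^ 4 * a₀)‖ ≤ 1)
    (nb : ‖θ (s ^ 6 * b₀)‖ ≤ 1) (h : (CV a₀ b₀).toAffine.Nonsingular x y)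
    (hx : (p : ℝ) ^ 2 < ‖θ (s ^ 2 * x)‖) {n : ℕ} (hn : n ≠ 0) :
    n • (Affine.Point.some x y h : Pt a₀ b₀) ≠ 0 := by
  intro h0
  obtain ⟨g, -, hg⟩ := exists_tr (RingHom.id (AlgebraicClosure ℚ)) hs0
    (A := a₀) (B := b₀) (A' := s ^ 4 * a₀) (B' := s ^ 6 * b₀) rfl rfl
  obtain ⟨h', he⟩ := hg x y h
  have h3 : n • (Affine.Point.some _ _ h' : Pt (s ^ 4 * a₀) (s ^ 6 * b₀)) = 0 := by
    have h4 : g (n • (Affine.Point.some x y h : Pt a₀ b₀)) = 0 := by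
      have h5 := congrArg g h0
      rw [map_zero] at h5
      exact h5
    rw [map_nsmul, he] at h4
    exact h4
  exact nontors na nb h' (by rw [RingHom.id_apply]; exact hx) hn h3

lemma disc_eq {k : Type} [Field k] {a b e₁ e₂ e₃ : k} (h : Rt a b e₁ e₂ e₃) :
    4 * a ^ 3 + 27 * b ^ 2 = -((e₁ - e₂) ^ 2 * (e₁ - e₃) ^ 2 * (e₂ - e₃) ^ 2) := by
  have h3 : e₃ = -e₁ - e₂ := by linear_combination h.sum
  rw [h.ha, h.hb, h3]
  ring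

/-- **the bridge** between two systems -/
theorem exists_bridge {θ : AlgebraicClosure ℚ →+* PadicAlgCl 2} {X₁ X₂ : AlgebraicClosure ℚ}
    (h10 : X₁ ≠ 0) (hlt : ‖θ X₁‖ < ‖θ X₂‖) (h2 : ‖θ X₂‖ ≤ 1 / 512) :
    ∃ (c d : AlgebraicClosure ℚ) (R : Pt c d), Disc c d ∧
      ‖θ (c ^ 3 / (4 * c ^ 3 + 27 * d ^ 2))‖ = ‖θ X₂‖ ^ 2 / ‖θ X₁‖ ^ 2 ∧
      (∀ n : ℕ, n ≠ 0 → n • R ≠ 0) ∧ Pr X₁ R ∧ Pr X₂ R := by
  have n10 : 0 < ‖θ X₁‖ := norm_pos_iff.2 ((map_ne_zero θ).2 h10)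
  have n20 : 0 < ‖θ X₂‖ := n10.trans hlt
  have h20 : X₂ ≠ 0 := by
    rintro rfl
    rw [map_zero, norm_zero] at n20
    exact lt_irrefl _ n20
  have h12 : X₁ ≠ X₂ := by
    rintro rfl
    exact lt_irrefl _ hlt
  have n11 : X₁ ≠ 1 := by
    rintro rfl
    rw [map_one, norm_one] at hlt
    linarith
  have n21 : X₂ ≠ 1 := by
    rintro rfl
    rw [map_one, norm_one] at h2
    norm_num at h2
  obtain ⟨e₁, he₁⟩ : ∃ e : AlgebraicClosure ℚ, e = -(X₁ + X₂) / 3 := ⟨_, rfl⟩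
  obtain ⟨c, hc⟩ : ∃ c : AlgebraicClosure ℚ, c = e₁ * (e₁ + X₂) + e₁ * (e₁ + X₁) +
    (e₁ + X₂) * (e₁ + X₁) := ⟨_, rfl⟩
  obtain ⟨d, hd⟩ : ∃ d : AlgebraicClosure ℚ, d = -(e₁ * (e₁ + X₂) * (e₁ + X₁)) := ⟨_, rfl⟩
  have hrt : Rt c d e₁ (e₁ + X₂) (e₁ + X₁) := by
    refine ⟨?_, hc, hd, ?_, ?_, ?_⟩
    · rw [he₁]; ring
    · intro h; exact h20 (by linear_combination -h)
    · intro h; exact h10 (by linear_combination -h)
    · intro h; exact h12 (by linear_combination -h)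
  have hD : Disc c d := disc_of hrt
  have hcX : c = -(X₂ ^ 2 + X₁ * (X₁ - X₂)) / 3 := by rw [hc, he₁]; ring
  obtain ⟨y, hy⟩ := IsAlgClosed.exists_pow_nat_eq ((1 - X₁) * (1 - X₂)) (n := 2) (by norm_num)
  have hxy : (CV c d).toAffine.Nonsingular (e₁ + 1) y := by
    rw [nonsingular_iff hD]
    show y ^ 2 = (e₁ + 1) ^ 3 + c * (e₁ + 1) + d
    rw [hrt.fac, hy]
    ring
  have n3' : ‖θ (3 : AlgebraicClosure ℚ)‖ = 1 := by rw [map_ofNat]; exact n3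
  have nq : ‖θ (X₂ ^ 2 + X₁ * (X₁ - X₂))‖ = ‖θ X₂‖ ^ 2 := by
    have h1 : ‖θ (X₁ - X₂)‖ = ‖θ X₂‖ := by
      rw [map_sub, ← norm_neg, neg_sub, dom_sub hlt]
    have h3 : ‖θ (X₁ * (X₁ - X₂))‖ < ‖θ (X₂ ^ 2)‖ := by
      rw [map_mul, norm_mul, h1, map_pow, norm_pow, pow_two]
      exact mul_lt_mul_of_pos_right hlt n20
    rw [map_add, dom h3, map_pow, norm_pow]
  have nc : ‖θ c‖ = ‖θ X₂‖ ^ 2 := by
    rw [hcX, map_div₀, map_neg, norm_div, norm_neg, nq, n3', div_one]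
  refine ⟨c, d, Affine.Point.some _ _ hxy, hD, ?_, ?_, ?_, ?_⟩
  · have h1 : ‖θ (X₂ - X₁)‖ = ‖θ X₂‖ := by rw [map_sub, dom_sub hlt]
    have e : 4 * c ^ 3 + 27 * d ^ 2 = -(X₂ ^ 2 * X₁ ^ 2 * (X₂ - X₁) ^ 2) := by
      rw [disc_eq hrt]; ring
    rw [e, map_div₀, norm_div, map_pow, norm_pow, nc, map_neg, norm_neg, map_mul, map_mul, map_pow,
      map_pow, map_pow, norm_mul, norm_mul, norm_pow, norm_pow, norm_pow, h1]
    field_simp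
  · intro n hn
    obtain ⟨s, hs⟩ := IsAlgClosed.exists_pow_nat_eq X₂⁻¹ (n := 2) (by norm_num)
    have hs0 : s ≠ 0 := by
      rintro rfl
      rw [zero_pow two_ne_zero] at hs
      exact inv_ne_zero h20 hs.symm
    have e1' : ‖θ e₁‖ ≤ ‖θ X₂‖ := by
      rw [he₁, map_div₀, map_neg, norm_div, norm_neg, n3', div_one, map_add]
      exact (IsUltrametricDist.norm_add_le_max _ _).trans (max_le hlt.le le_rfl)
    have e2' : ‖θ (e₁ + X₂)‖ ≤ ‖θ X₂‖ := by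
      rw [map_add]
      exact (IsUltrametricDist.norm_add_le_max _ _).trans (max_le e1' le_rfl)
    have e3' : ‖θ (e₁ + X₁)‖ ≤ ‖θ X₂‖ := by
      rw [map_add]
      exact (IsUltrametricDist.norm_add_le_max _ _).trans (max_le e1' hlt.le)
    have hs4 : s ^ 4 = (X₂⁻¹) ^ 2 := by rw [← hs]; ring
    have hs6 : s ^ 6 = (X₂⁻¹) ^ 3 := by rw [← hs]; ring
    refine nontors_scaled (θ := θ) hs0 ?_ ?_ hxy ?_ hn
    · rw [hs4, map_mul, norm_mul, nc, map_pow, norm_pow, map_inv₀, norm_inv]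
      field_simp
      exact le_rfl
    · rw [hs6, map_mul, norm_mul, map_pow, norm_pow, map_inv₀, norm_inv, hd, map_neg, norm_neg,
        map_mul, map_mul, norm_mul, norm_mul]
      have h5 : ‖θ e₁‖ * ‖θ (e₁ + X₂)‖ * ‖θ (e₁ + X₁)‖ ≤ ‖θ X₂‖ * ‖θ X₂‖ * ‖θ X₂‖ :=
        mul_le_mul (mul_le_mul e1' e2' (norm_nonneg _) n20.le) e3' (norm_nonneg _) (by positivity)
      calc ‖θ X₂‖⁻¹ ^ 3 * (‖θ e₁‖ * ‖θ (e₁ + X₂)‖ * ‖θ (e₁ + X₁)‖) ≤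
          ‖θ X₂‖⁻¹ ^ 3 * (‖θ X₂‖ * ‖θ X₂‖ * ‖θ X₂‖) := mul_le_mul_of_nonneg_left h5 (by positivity)
        _ = 1 := by field_simp
    · have h6 : ‖θ (e₁ + 1)‖ = 1 := by
        rw [add_comm, map_add, map_one, dom (by rw [norm_one]; linarith), norm_one]
      rw [hs, map_mul, norm_mul, h6, mul_one, map_inv₀, norm_inv]
      have h7 : (512 : ℝ) ≤ ‖θ X₂‖⁻¹ := by
        rw [le_inv_comm₀ (by norm_num) n20]
        linarith
      push_cast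
      linarith
  · have m1 : e₁ + 1 ≠ e₁ := by
      intro h; exact one_ne_zero (by linear_combination h : (1 : AlgebraicClosure ℚ) = 0)
    have m2 : e₁ + 1 ≠ e₁ + X₂ := by
      intro h; exact n21 (by linear_combination -h)
    obtain ⟨y', hT, h', e, hk⟩ := add_T hrt hxy m1 m2
    have ex : (e₁ + X₁ - e₁) / (e₁ + 1 - e₁) = X₁ := by
      rw [add_sub_cancel_left, add_sub_cancel_left, div_one]
    have hT2 : 2 • (Affine.Point.some _ _ hT : Pt c d) = 0 := by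
      rw [two_nsmul, add_opp hT hT rfl (by rw [neg_zero])]
    have e2 : (2 • Affine.Point.some _ _ hxy : Pt c d) = 2 • (Affine.Point.some _ _ h' : Pt c d) := by
      rw [← e, smul_add, hT2, add_zero]
    have key : ∀ (Z : AlgebraicClosure ℚ), (e₁ + X₁ - e₁) / (e₁ + 1 - e₁) = Z →
        Pr Z (Affine.Point.some _ _ hxy : Pt c d) := by
      rintro Z rfl
      exact ⟨nd0 hrt, y', hk, h', e2⟩
    exact key X₁ ex
  · have m1 : e₁ + 1 ≠ e₁ := by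
      intro h; exact one_ne_zero (by linear_combination h : (1 : AlgebraicClosure ℚ) = 0)
    have m2 : e₁ + 1 ≠ e₁ + X₁ := by
      intro h; exact n11 (by linear_combination -h)
    obtain ⟨y', hT, h', e, hk⟩ := add_T hrt.swap23 hxy m1 m2
    have ex : (e₁ + X₂ - e₁) / (e₁ + 1 - e₁) = X₂ := by
      rw [add_sub_cancel_left, add_sub_cancel_left, div_one]
    have hT2 : 2 • (Affine.Point.some _ _ hT : Pt c d) = 0 := by
      rw [two_nsmul, add_opp hT hT rfl (by rw [neg_zero])]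
    have e2 : (2 • Affine.Point.some _ _ hxy : Pt c d) = 2 • (Affine.Point.some _ _ h' : Pt c d) := by
      rw [← e, smul_add, hT2, add_zero]
    have key : ∀ (Z : AlgebraicClosure ℚ), (e₁ + X₂ - e₁) / (e₁ + 1 - e₁) = Z →
        Pr Z (Affine.Point.some _ _ hxy : Pt c d) := by
      rintro Z rfl
      exact ⟨nd0 hrt.swap23, y', hk, h', e2⟩
    exact key X₂ ex

/-- the group of the system -/
noncomputable def Lam (X : AlgebraicClosure ℚ) (m : ℕ) {a₁ b₁ : AlgebraicClosure ℚ} (P₁ : Pt a₁ b₁)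
    (a b : AlgebraicClosure ℚ) : AddSubgroup (Pt a b) := AddSubgroup.closure {x | Gn X m P₁ a b x}

section lam
variable {X : AlgebraicClosure ℚ} {m : ℕ} {a₁ b₁ : AlgebraicClosure ℚ} {P₁ : Pt a₁ b₁}

lemma lam_point (h : Pr X (m • P₁) ∨ ∃ n : ℕ, n ≠ 0 ∧ n • P₁ = 0) : P₁ ∈ Lam X m P₁ a₁ b₁ := by
  apply AddSubgroup.subset_closure
  rcases h with h | ⟨n, hn, h⟩
  · exact Gn.pt rfl rfl rfl h
  · exact Gn.tor n hn h

lemma lam_inf {θ : AlgebraicClosure ℚ →+* PadicAlgCl 2} (hX0 : X ≠ 0) (hX : ‖θ X‖ ≤ 1 / 512)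
    (hm : m ≠ 0) {a b : AlgebraicClosure ℚ} (hD : Disc a b) :
    ∃ Q : ℕ → Pt a b, LinearIndependent ℤ Q ∧ ∀ n, Q n ∈ Lam X m P₁ a b := by
  obtain ⟨P, hP, h⟩ := one_curve2 (θ := θ) hD hX0 hX
  refine ⟨fun n => m • P n, ?_, fun n => AddSubgroup.subset_closure ?_⟩
  · rw [linearIndependent_iff] at hP ⊢
    intro l hl
    have h6 : Finsupp.linearCombination ℤ P ((m : ℤ) • l) = 0 := by
      rw [map_zsmul, ← hl, Finsupp.linearCombination_apply, Finsupp.linearCombination_apply,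
        Finsupp.sum, Finsupp.sum, Finset.smul_sum]
      refine Finset.sum_congr rfl fun n _ => ?_
      rw [natCast_zsmul, smul_comm]
    exact (smul_eq_zero.1 (hP _ h6)).resolve_left (by exact_mod_cast hm)
  · obtain ⟨N, y, hN, hy, e⟩ := h n
    exact Gn.main N y hN hy (congrArg (fun z => m • z) e)

lemma lam_tor {a b : AlgebraicClosure ℚ} (T : Pt a b) (n : ℕ) (hn : n ≠ 0) (h : n • T = 0) :
    T ∈ Lam X m P₁ a b := AddSubgroup.subset_closure (Gn.tor n hn h)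

lemma lam_ortho {a b c d : AlgebraicClosure ℚ} (hD : Disc a b) (hD' : Disc c d) {x : Pt a b}
    (hx : x ∈ Lam X m P₁ a b) {y : Pt c d} (hy : y ∈ Lam X m P₁ c d) :
    cyc x y ∈ RatEquivZero a b c d := by
  obtain ⟨B, hB⟩ := exists_bil hD hD'
  have h3 : B x y = 0 :=
    closure_ortho B (fun s hs t ht => gn_ortho hD hD' B hB hs ht) hx hy
  rw [hB] at h3
  exact (QuotientAddGroup.eq_zero_iff _).1 h3

lemma lam_pr {a b : AlgebraicClosure ℚ} {R : Pt a b} (h : Pr X R) : m • 2 • R ∈ Lam X m P₁ a b := by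
  obtain ⟨N, y, hN, hy, e⟩ := h
  exact AddSubgroup.subset_closure (Gn.main N y hN hy (congrArg (fun z => m • z) e))

end lam

/-- a system of groups of infinite rank with trivial zero-cycles -/
def Sy (Λ : (a b : AlgebraicClosure ℚ) → AddSubgroup (Pt a b)) : Prop :=
  (∀ a b, Disc a b → ∃ Q : ℕ → Pt a b, LinearIndependent ℤ Q ∧ ∀ n, Q n ∈ Λ a b) ∧
  (∀ a b, ∀ (T : Pt a b) (n : ℕ), n ≠ 0 → n • T = 0 → T ∈ Λ a b) ∧
  ∀ (r : ℕ) (a b : Fin r → AlgebraicClosure ℚ), (∀ i, Disc (a i) (b i)) →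
    ∀ Z : ((i : Fin r) → Pt (a i) (b i)) →₀ ℤ, (∀ x ∈ Z.support, ∀ i, x i ∈ Λ (a i) (b i)) →
      Z.sum (fun _ m => m) = 0 → Z.sum (fun x m => m • x) = 0 → Z ∈ REP a b

lemma sy_lam {θ : AlgebraicClosure ℚ →+* PadicAlgCl 2} {X : AlgebraicClosure ℚ} {m : ℕ}
    {a₁ b₁ : AlgebraicClosure ℚ} (P₁ : Pt a₁ b₁) (hX0 : X ≠ 0) (hX : ‖θ X‖ ≤ 1 / 512)
    (hm : m ≠ 0) : Sy (Lam X m P₁) := by
  refine ⟨fun a b hD => lam_inf hX0 hX hm hD, fun a b T n hn h => lam_tor T n hn h,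
    fun r a b hD Z hZ hdeg hsum => albanese hD Z (fun x hx i j _ => ?_) hdeg hsum⟩
  exact lam_ortho (hD i) (hD j) (hZ x hx i) (hZ x hx j)

/-- a small parameter for each point -/
lemma exists_small (θ : AlgebraicClosure ℚ →+* PadicAlgCl 2) {a b : AlgebraicClosure ℚ}
    (hD : Disc a b) (P : Pt a b) {ε : ℝ} (hε : 0 < ε) : ∃ (X : AlgebraicClosure ℚ) (m : ℕ),
      X ≠ 0 ∧ ‖θ X‖ ≤ ε ∧ m ≠ 0 ∧ (Pr X (m • P) ∨ ∃ n : ℕ, n ≠ 0 ∧ n • P = 0) := by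
  by_cases h : ∀ n : ℕ, n ≠ 0 → n • P ≠ 0
  · obtain ⟨X, m, h1, h2, h3, h4⟩ := exists_param2 (θ := θ) hD h hε
    exact ⟨X, m, h1, h2, h3, Or.inl h4⟩
  · push Not at h
    obtain ⟨j, hj⟩ := exists_pow_lt_of_lt_one hε (show (1 / 2 : ℝ) < 1 by norm_num)
    refine ⟨2 ^ j, 1, by simp, ?_, one_ne_zero, Or.inr h⟩
    rw [map_pow, map_ofNat, norm_pow, n2]
    exact hj.le

/-- **two systems which meet** -/
theorem meeting {a₁ b₁ a₂ b₂ : AlgebraicClosure ℚ} (hD₁ : Disc a₁ b₁) (hD₂ : Disc a₂ b₂)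
    (P₁ : Pt a₁ b₁) (P₂ : Pt a₂ b₂) (J : Finset (AlgebraicClosure ℚ)) :
    ∃ (Λ₁ Λ₂ : (a b : AlgebraicClosure ℚ) → AddSubgroup (Pt a b)) (c d : AlgebraicClosure ℚ)
      (R : Pt c d), Sy Λ₁ ∧ Sy Λ₂ ∧ P₁ ∈ Λ₁ a₁ b₁ ∧ P₂ ∈ Λ₂ a₂ b₂ ∧ Disc c d ∧
        c ^ 3 / (4 * c ^ 3 + 27 * d ^ 2) ∉ J ∧ (∀ n : ℕ, n ≠ 0 → n • R ≠ 0) ∧
        R ∈ Λ₁ c d ∧ R ∈ Λ₂ c d ∧
        ∀ a b, Disc a b → ∀ P ∈ Λ₁ a b ⊔ Λ₂ a b, cyc P R ∈ RatEquivZero a b c d := by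
  obtain ⟨θ⟩ := exists_emb (PadicAlgCl 2)
  obtain ⟨X₂, m₂, h20, h2, hm₂, hP₂⟩ := exists_small θ hD₂ P₂ (ε := 1 / 512) (by norm_num)
  have n20 : 0 < ‖θ X₂‖ := norm_pos_iff.2 ((map_ne_zero θ).2 h20)
  obtain ⟨M, hM⟩ : ∃ M : ℝ, M = ∑ j ∈ J, ‖θ j‖ := ⟨_, rfl⟩
  have hM0 : 0 ≤ M := by rw [hM]; exact Finset.sum_nonneg fun j _ => norm_nonneg _
  obtain ⟨X₁, m₁, h10, h1, hm₁, hP₁⟩ := exists_small θ hD₁ P₁ (ε := ‖θ X₂‖ / (M + 2))
    (by positivity)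
  have n10 : 0 < ‖θ X₁‖ := norm_pos_iff.2 ((map_ne_zero θ).2 h10)
  rw [le_div_iff₀ (by positivity)] at h1
  have hlt : ‖θ X₁‖ < ‖θ X₂‖ := by nlinarith
  obtain ⟨c, d, R, hD, hj, hR, hr1, hr2⟩ := exists_bridge h10 hlt h2
  have hm : 2 * m₁ * m₂ ≠ 0 := mul_ne_zero (mul_ne_zero two_ne_zero hm₁) hm₂
  have r1 : (2 * m₁ * m₂) • R ∈ Lam X₁ m₁ P₁ c d := by
    have e : (2 * m₁ * m₂) • R = m₂ • (m₁ • 2 • R) := by
      rw [smul_smul, smul_smul]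
      congr 1
      ring
    rw [e]
    exact nsmul_mem (lam_pr hr1) _
  have r2 : (2 * m₁ * m₂) • R ∈ Lam X₂ m₂ P₂ c d := by
    have e : (2 * m₁ * m₂) • R = m₁ • (m₂ • 2 • R) := by
      rw [smul_smul, smul_smul]
      congr 1
      ring
    rw [e]
    exact nsmul_mem (lam_pr hr2) _
  refine ⟨Lam X₁ m₁ P₁, Lam X₂ m₂ P₂, c, d, (2 * m₁ * m₂) • R,
    sy_lam P₁ h10 (hlt.le.trans h2) hm₁, sy_lam P₂ h20 h2 hm₂, lam_point hP₁, lam_point hP₂, hD,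
    ?_, ?_, r1, r2, ?_⟩
  · intro hJ
    have h3 : ‖θ (c ^ 3 / (4 * c ^ 3 + 27 * d ^ 2))‖ ≤ M := by
      rw [hM]
      exact Finset.single_le_sum (f := fun j => ‖θ j‖) (fun j _ => norm_nonneg _) hJ
    rw [hj, div_le_iff₀ (by positivity)] at h3
    have h4 : (‖θ X₁‖ * (M + 2)) ^ 2 ≤ ‖θ X₂‖ ^ 2 := pow_le_pow_left₀ (by positivity) h1 2
    have h5 : 0 < ‖θ X₁‖ ^ 2 := by positivity
    nlinarith
  · intro n hn
    rw [smul_smul]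
    exact hR _ (mul_ne_zero hn hm)
  · intro a b hab P hP
    obtain ⟨p, hp, q, hq, rfl⟩ := AddSubgroup.mem_sup.1 hP
    obtain ⟨B, hB⟩ := exists_bil hab hD
    have b1 : B p ((2 * m₁ * m₂) • R) = 0 := by
      rw [hB]; exact (QuotientAddGroup.eq_zero_iff _).2 (lam_ortho hab hD hp r1)
    have b2 : B q ((2 * m₁ * m₂) • R) = 0 := by
      rw [hB]; exact (QuotientAddGroup.eq_zero_iff _).2 (lam_ortho hab hD hq r2)
    have b3 : B (p + q) ((2 * m₁ * m₂) • R) = 0 := by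
      rw [map_add, AddMonoidHom.add_apply, b1, b2, add_zero]
    rw [hB] at b3
    exact (QuotientAddGroup.eq_zero_iff _).1 b3

end Pool.Agent.Run7.h780.TW
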