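import Pool.Agent.Run7.h780.TW.All

/-!
# Multiples of a point of infinite order come close to the origin
-/

set_option autoImplicit false
set_option linter.all false

namespace Pool.Agent.Run7.h780.TW

open WeierstrassCurve Pool.Agent.H901R3.MS Pool.Agent.Run7.h780.ZC Pool.Agent.Run7.h780.GR
open scoped Classical

section alg
variable {k : Type} [Field k] [CharZero k] {a b : k}

/-- the abscissa of a difference -/
lemma sub_x {x₁ y₁ x₂ y₂ x₃ y₃ : k} (h₁ : (CV a b).toAffine.Nonsingular x₁ y₁)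
    (h₂ : (CV a b).toAffine.Nonsingular x₂ y₂) (h₃ : (CV a b).toAffine.Nonsingular x₃ y₃)
    (hx : x₁ ≠ x₂) (h : (Affine.Point.some _ _ h₁ - Affine.Point.some _ _ h₂ : Pt a b) =
      Affine.Point.some _ _ h₃) :
    (y₁ + y₂) ^ 2 = (x₃ + x₁ + x₂) * (x₁ - x₂) ^ 2 := by
  have h₂' : (CV a b).toAffine.Nonsingular x₂ (-y₂) := neg_ns h₂
  obtain ⟨h₃', e⟩ := add_ne h₁ h₂' hx _ _ _ rfl rfl rfl
  rw [sub_eq_add_neg, neg_some' h₂ h₂', e, Affine.Point.some.injEq] at h
  rw [← h.1]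
  have : x₁ - x₂ ≠ 0 := sub_ne_zero.2 hx
  field_simp
  ring

/-- the abscissa of the double -/
lemma dbl_x {x₁ y₁ x₃ y₃ : k} (h₁ : (CV a b).toAffine.Nonsingular x₁ y₁)
    (h₃ : (CV a b).toAffine.Nonsingular x₃ y₃)
    (h : (2 • (Affine.Point.some _ _ h₁ : Pt a b)) = Affine.Point.some _ _ h₃) :
    (3 * x₁ ^ 2 + a) ^ 2 = (x₃ + 2 * x₁) * (2 * y₁) ^ 2 := by
  have hy : y₁ ≠ 0 := by
    intro h0
    rw [two_nsmul, add_opp h₁ h₁ rfl (by rw [h0, neg_zero])] at h
    exact Affine.Point.some_ne_zero _ h.symm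
  obtain ⟨h₃', e⟩ := add_dbl h₁ h₁ rfl (by
    intro h0
    apply hy
    have : 2 * y₁ = 0 := by linear_combination h0
    exact (mul_eq_zero.1 this).resolve_left two_ne_zero) _ _ _ rfl rfl rfl
  rw [two_nsmul, e, Affine.Point.some.injEq] at h
  rw [← h.1]
  field_simp
  ring

/-- two points with the same abscissa -/
lemma same_x {x y₁ y₂ : k} (h₁ : (CV a b).toAffine.Nonsingular x y₁)
    (h₂ : (CV a b).toAffine.Nonsingular x y₂) :
    (Affine.Point.some _ _ h₁ : Pt a b) = Affine.Point.some _ _ h₂ ∨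
      (Affine.Point.some _ _ h₁ : Pt a b) = -Affine.Point.some _ _ h₂ := by
  have e1 := eqn_of h₁
  have e2 := eqn_of h₂
  have h3 : (y₁ - y₂) * (y₁ + y₂) = 0 := by
    have e1' : y₁ ^ 2 = x ^ 3 + a * x + b := e1
    have e2' : y₂ ^ 2 = x ^ 3 + a * x + b := e2
    linear_combination e1' - e2'
  rcases mul_eq_zero.1 h3 with h | h
  · left
    have := sub_eq_zero.1 h
    subst this
    rfl
  · right
    have : y₁ = -y₂ := eq_neg_of_add_eq_zero_left h
    subst this
    rw [neg_some' h₂ h₁]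

end alg

open Filter Topology in
/-- **multiples of a point of infinite order come close to the origin** -/
theorem exists_mult {p : ℕ} [Fact p.Prime] (θ : AlgebraicClosure ℚ →+* PadicAlgCl p)
    {a b : AlgebraicClosure ℚ} (hD : Disc a b) {P : Pt a b} (hP : ∀ n : ℕ, n ≠ 0 → n • P ≠ 0)
    (C : ℝ) : ∃ (m : ℕ) (x y : AlgebraicClosure ℚ) (h : (CV a b).toAffine.Nonsingular x y),
      m ≠ 0 ∧ m • P = Affine.Point.some x y h ∧ C < ‖θ x‖ := by
  by_contra hcon
  push Not at hcon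
  -- the coordinates
  have hsome : ∀ n : ℕ, ∃ (x y : AlgebraicClosure ℚ) (h : (CV a b).toAffine.Nonsingular x y),
      (n + 1) • P = Affine.Point.some x y h := by
    intro n
    have h := hP (n + 1) (Nat.succ_ne_zero n)
    rcases hq : (n + 1) • P with _ | ⟨x, y, hxy⟩
    · exact absurd hq h
    · exact ⟨x, y, hxy, rfl⟩
  choose x y hxy hn using hsome
  have hb : ∀ n, ‖θ (x n)‖ ≤ C := fun n => hcon (n + 1) _ _ (hxy n) (Nat.succ_ne_zero n) (hn n)
  have hC : 0 ≤ C := (norm_nonneg _).trans (hb 0)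
  -- the field
  obtain ⟨S, hS⟩ : ∃ S : Finset (PadicAlgCl p), S = {θ a, θ b, θ (x 0), θ (y 0)} := ⟨_, rfl⟩
  obtain ⟨F, hF⟩ : ∃ F : IntermediateField ℚ_[p] (PadicAlgCl p),
      F = IntermediateField.adjoin ℚ_[p] (S : Set (PadicAlgCl p)) := ⟨_, rfl⟩
  have hfin : FiniteDimensional ℚ_[p] F := by
    rw [hF]
    exact IntermediateField.finiteDimensional_adjoin fun z _ =>
      (Algebra.IsAlgebraic.isAlgebraic z).isIntegral
  have hmem : ∀ z ∈ S, z ∈ F := by
    intro z hz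
    rw [hF]
    exact IntermediateField.subset_adjoin _ _ hz
  have ha : θ a ∈ F := hmem _ (by rw [hS]; simp)
  have hb' : θ b ∈ F := hmem _ (by rw [hS]; simp)
  have hx0 : θ (x 0) ∈ F := hmem _ (by rw [hS]; simp)
  have hy0 : θ (y 0) ∈ F := hmem _ (by rw [hS]; simp)
  have hrat : ∀ n, θ (x n) ∈ F ∧ θ (y n) ∈ F := by
    intro n
    have h0 : RatF F θ P := by
      have e := hn 0
      rw [zero_add, one_smul] at e
      rw [e]
      rintro ⟨u, w⟩ hz
      simp only [coords, Option.mem_def, Option.some.injEq, Prod.mk.injEq] at hz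
      obtain ⟨rfl, rfl⟩ := hz
      exact ⟨hx0, hy0⟩
    rw [ratF_iff ha hb'] at h0
    have h1 := AddSubgroup.nsmul_mem _ h0 (n + 1)
    rw [← ratF_iff ha hb', hn n] at h1
    exact h1 (x n, y n) rfl
  -- compactness
  have hprop : ProperSpace F := FiniteDimensional.proper ℚ_[p] F
  obtain ⟨R, hR⟩ : ∃ R : ℝ, R = max C (C ^ 3 + ‖θ a‖ * C + ‖θ b‖ + 1) := ⟨_, rfl⟩
  have hby : ∀ n, ‖θ (y n)‖ ≤ C ^ 3 + ‖θ a‖ * C + ‖θ b‖ + 1 := by
    intro n
    have e : (θ (y n)) ^ 2 = (θ (x n)) ^ 3 + θ a * θ (x n) + θ b := by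
      have e1 : y n ^ 2 = x n ^ 3 + a * x n + b := eqn_of (hxy n)
      rw [← map_pow, e1]
      simp only [map_add, map_mul, map_pow]
    have h1 : ‖θ (y n)‖ ^ 2 ≤ C ^ 3 + ‖θ a‖ * C + ‖θ b‖ := by
      rw [← norm_pow, e]
      refine (norm_add_le _ _).trans (add_le_add ((norm_add_le _ _).trans (add_le_add ?_ ?_)) le_rfl)
      · rw [norm_pow]; exact pow_le_pow_left₀ (norm_nonneg _) (hb n) 3
      · rw [norm_mul]; exact mul_le_mul_of_nonneg_left (hb n) (norm_nonneg _)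
    nlinarith [norm_nonneg (θ (y n)), sq_nonneg (‖θ (y n)‖ - 1)]
  let u : ℕ → F × F := fun n => (⟨θ (x n), (hrat n).1⟩, ⟨θ (y n), (hrat n).2⟩)
  have hu : ∀ n, u n ∈ Metric.closedBall (0 : F × F) R := by
    intro n
    rw [mem_closedBall_zero_iff, Prod.norm_def]
    refine max_le ?_ ?_
    · show ‖θ (x n)‖ ≤ R
      rw [hR]; exact (hb n).trans (le_max_left _ _)
    · show ‖θ (y n)‖ ≤ R
      rw [hR]; exact (hby n).trans (le_max_right _ _)
  obtain ⟨z, -, φ, hφ, hlim⟩ := (isCompact_closedBall (0 : F × F) R).tendsto_subseq hu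
  have hX : Tendsto (fun n => θ (x (φ n))) atTop (𝓝 (z.1 : PadicAlgCl p)) :=
    (continuous_subtype_val.tendsto _).comp ((continuous_fst.tendsto z).comp hlim)
  have hY : Tendsto (fun n => θ (y (φ n))) atTop (𝓝 (z.2 : PadicAlgCl p)) :=
    (continuous_subtype_val.tendsto _).comp ((continuous_snd.tendsto z).comp hlim)
  obtain ⟨X, hX'⟩ : ∃ X, X = (z.1 : PadicAlgCl p) := ⟨_, rfl⟩
  obtain ⟨Y, hY'⟩ : ∃ Y, Y = (z.2 : PadicAlgCl p) := ⟨_, rfl⟩
  rw [← hX'] at hX
  rw [← hY'] at hY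
  have hs : Tendsto (fun n : ℕ => n + 1) atTop atTop := tendsto_add_atTop_nat 1
  have hX1 := hX.comp hs
  have hY1 := hY.comp hs
  simp only [Function.comp_def] at hX1 hY1
  -- the differences
  have hd : ∀ n, ‖(θ (y (φ (n + 1))) + θ (y (φ n))) ^ 2‖ ≤
      C * ‖(θ (x (φ (n + 1))) - θ (x (φ n))) ^ 2‖ := by
    intro n
    have hlt : φ n < φ (n + 1) := hφ (Nat.lt_succ_self n)
    have hne : x (φ (n + 1)) ≠ x (φ n) := by
      intro h
      have key : ∀ (u w : AlgebraicClosure ℚ) (hu : (CV a b).toAffine.Nonsingular u w),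
          u = x (φ n) → (φ (n + 1) + 1) • P = Affine.Point.some _ _ hu → False := by
        rintro u w hu rfl hP'
        rcases same_x hu (hxy (φ n)) with h1 | h1
        · rw [← hP', ← hn (φ n)] at h1
          apply hP (φ (n + 1) - φ n) (by omega)
          have : φ (n + 1) + 1 = (φ (n + 1) - φ n) + (φ n + 1) := by omega
          rw [this, add_smul] at h1
          exact add_eq_right.1 h1
        · rw [← hP', ← hn (φ n)] at h1
          apply hP ((φ (n + 1) + 1) + (φ n + 1)) (by omega)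
          rw [add_smul, h1, neg_add_cancel]
      exact key _ _ (hxy _) h (hn _)
    obtain ⟨e, he⟩ : ∃ e, φ (n + 1) = e + 1 + φ n := ⟨φ (n + 1) - φ n - 1, by omega⟩
    have h3 : (Affine.Point.some _ _ (hxy (φ (n + 1))) - Affine.Point.some _ _ (hxy (φ n)) :
        Pt a b) = Affine.Point.some _ _ (hxy e) := by
      rw [← hn, ← hn, ← hn, sub_eq_iff_eq_add, ← add_smul]
      congr 1
      omega
    have h4 := sub_x (hxy (φ (n + 1))) (hxy (φ n)) (hxy e) hne h3
    have h5 := congrArg θ h4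
    simp only [map_mul, map_pow, map_add, map_sub] at h5
    rw [h5, norm_mul]
    refine mul_le_mul_of_nonneg_right ?_ (norm_nonneg _)
    refine (IsUltrametricDist.norm_add_le_max _ _).trans (max_le ?_ (hb _))
    exact (IsUltrametricDist.norm_add_le_max _ _).trans (max_le (hb _) (hb _))
  have hY0 : Y = 0 := by
    have l1 : Tendsto (fun n => ‖(θ (y (φ (n + 1))) + θ (y (φ n))) ^ 2‖) atTop
        (𝓝 ‖(Y + Y) ^ 2‖) := ((hY1.add hY).pow 2).norm
    have l2 : Tendsto (fun n => C * ‖(θ (x (φ (n + 1))) - θ (x (φ n))) ^ 2‖) atTop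
        (𝓝 (C * ‖(X - X) ^ 2‖)) := (((hX1.sub hX).pow 2).norm).const_mul C
    have l3 := le_of_tendsto_of_tendsto' l1 l2 hd
    rw [sub_self, zero_pow two_ne_zero, norm_zero, mul_zero] at l3
    have l4 : (Y + Y) ^ 2 = 0 := norm_le_zero_iff.1 l3
    have l5 : Y + Y = 0 := pow_eq_zero_iff (two_ne_zero) |>.1 l4
    rw [← two_mul] at l5
    exact (mul_eq_zero.1 l5).resolve_left two_ne_zero
  -- the doubles
  have hdd : ∀ n, ‖(3 * (θ (x (φ n))) ^ 2 + θ a) ^ 2‖ ≤ C * ‖(2 * θ (y (φ n))) ^ 2‖ := by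
    intro n
    have h3 : (2 • (Affine.Point.some _ _ (hxy (φ n)) : Pt a b)) =
        Affine.Point.some _ _ (hxy (2 * φ n + 1)) := by
      rw [← hn, ← hn, smul_smul]
      congr 1
    have h4 := dbl_x (hxy (φ n)) (hxy _) h3
    have h5 := congrArg θ h4
    simp only [map_mul, map_pow, map_add, map_ofNat] at h5
    rw [h5, norm_mul]
    refine mul_le_mul_of_nonneg_right ?_ (norm_nonneg _)
    refine (IsUltrametricDist.norm_add_le_max _ _).trans (max_le (hb _) ?_)
    rw [norm_mul]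
    have h2 : ‖(2 : PadicAlgCl p)‖ ≤ 1 := by
      have := IsUltrametricDist.norm_natCast_le_one (PadicAlgCl p) 2
      simpa using this
    exact (mul_le_of_le_one_left (norm_nonneg _) h2).trans (hb _)
  have hX0 : 3 * X ^ 2 + θ a = 0 := by
    have l1 : Tendsto (fun n => ‖(3 * (θ (x (φ n))) ^ 2 + θ a) ^ 2‖) atTop
        (𝓝 ‖(3 * X ^ 2 + θ a) ^ 2‖) :=
      ((((hX.pow 2).const_mul 3).add_const (θ a)).pow 2).norm
    have l2 : Tendsto (fun n => C * ‖(2 * θ (y (φ n))) ^ 2‖) atTop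
        (𝓝 (C * ‖(2 * Y) ^ 2‖)) := (((hY.const_mul 2).pow 2).norm).const_mul C
    have l3 := le_of_tendsto_of_tendsto' l1 l2 hdd
    rw [hY0, mul_zero, zero_pow two_ne_zero, norm_zero, mul_zero] at l3
    exact pow_eq_zero_iff (two_ne_zero) |>.1 (norm_le_zero_iff.1 l3)
  have hE : Y ^ 2 = X ^ 3 + θ a * X + θ b := by
    have l1 : Tendsto (fun n => (θ (y (φ n))) ^ 2) atTop (𝓝 (Y ^ 2)) := hY.pow 2
    have l2 : Tendsto (fun n => (θ (x (φ n))) ^ 3 + θ a * θ (x (φ n)) + θ b) atTop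
        (𝓝 (X ^ 3 + θ a * X + θ b)) := ((hX.pow 3).add (hX.const_mul (θ a))).add_const (θ b)
    refine tendsto_nhds_unique l1 (l2.congr fun n => ?_)
    have e1 : y (φ n) ^ 2 = x (φ n) ^ 3 + a * x (φ n) + b := eqn_of (hxy (φ n))
    have e2 := congrArg θ e1
    simp only [map_add, map_mul, map_pow] at e2
    exact e2.symm
  apply hD
  apply θ.injective
  rw [map_zero]
  simp only [map_add, map_mul, map_pow, map_ofNat]
  have ea : θ a = -3 * X ^ 2 := by linear_combination hX0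
  have eb : θ b = 2 * X ^ 3 := by
    rw [hY0, ea] at hE
    linear_combination -hE
  rw [ea, eb]
  ring

end Pool.Agent.Run7.h780.TW
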