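import Pool.Agent.W571.RK.L3
import Pool.Agent.Y715.Nr

/-!
# The Landen tower at a place above two is infinite
-/

set_option autoImplicit false
set_option linter.all false

namespace Pool.Agent.Run7.h780.TW

open Pool.Agent.W237.RK Pool.Agent.Y715.Nr Pool.Agent.W571.RK

/-- the value groups of finite extensions are discrete -/
lemma val_disc {p : ℕ} [Fact p.Prime] (F : IntermediateField ℚ_[p] (PadicAlgCl p))
    [FiniteDimensional ℚ_[p] F] : ∃ M : ℕ, 0 < M ∧ ∀ x ∈ F, x ≠ 0 → ∃ k : ℤ,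
      ‖x‖ ^ M = (p : ℝ) ^ k := by
  have hp : p.Prime := Fact.out
  refine ⟨(Module.finrank ℚ_[p] F).factorial, Nat.factorial_pos _, fun x hx hx0 => ?_⟩
  have hint : IsIntegral ℚ_[p] x := (Algebra.IsAlgebraic.isAlgebraic x).isIntegral
  have hd : (minpoly ℚ_[p] x).natDegree ≤ Module.finrank ℚ_[p] F := by
    have h1 : minpoly ℚ_[p] x = minpoly ℚ_[p] (⟨x, hx⟩ : F) :=
      (minpoly.algebraMap_eq (A := ℚ_[p]) (B := F) (B' := PadicAlgCl p)
        (algebraMap F (PadicAlgCl p)).injective ⟨x, hx⟩)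
    rw [h1]
    exact minpoly.natDegree_le _
  have hd0 : 0 < (minpoly ℚ_[p] x).natDegree := minpoly.natDegree_pos hint
  obtain ⟨e, he⟩ := Nat.dvd_factorial hd0 hd
  have h2 := spectralNorm.spectralNorm_eq_norm_coeff_zero_rpow ℚ_[p] (PadicAlgCl p) x
  rw [PadicAlgCl.spectralNorm_eq] at h2
  have h3 : ‖x‖ ^ (minpoly ℚ_[p] x).natDegree = ‖(minpoly ℚ_[p] x).coeff 0‖ := by
    rw [h2, ← Real.rpow_natCast, ← Real.rpow_mul (norm_nonneg _), one_div,
      inv_mul_cancel₀ (by exact_mod_cast hd0.ne'), Real.rpow_one]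
  have h4 : (minpoly ℚ_[p] x).coeff 0 ≠ 0 := minpoly.coeff_zero_ne_zero hint hx0
  rw [Padic.norm_eq_zpow_neg_valuation h4] at h3
  refine ⟨-((minpoly ℚ_[p] x).coeff 0).valuation * e, ?_⟩
  rw [he, pow_mul, h3, zpow_mul, zpow_natCast]

lemma no_seq {c : ℕ → ℝ} (hc : ∀ n, 0 < c n) (hs : ∀ n, c (n + 1) ^ 2 = c n) {M : ℕ}
    (hM : 0 < M) (hk : ∀ n, ∃ k : ℤ, c n ^ M = (2 : ℝ) ^ k) : c 0 = 1 := by
  choose k hk using hk
  have h1 : ∀ n, k n = 2 * k (n + 1) := by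
    intro n
    have h2 : (2 : ℝ) ^ (k n) = (2 : ℝ) ^ (2 * k (n + 1)) := by
      rw [← hk n, ← hs n, ← pow_mul, mul_comm 2 M, pow_mul, hk (n + 1), ← zpow_natCast, ← zpow_mul]
      congr 1
      push_cast
      ring
    exact zpow_right_injective₀ (by norm_num) (by norm_num) h2
  have h3 : ∀ n, k 0 = 2 ^ n * k n := by
    intro n
    induction n with
    | zero => simp
    | succ n ih => rw [ih, h1 n]; ring
  have h4 : k 0 = 0 := by
    by_contra hne
    have h5 : (2 : ℤ) ^ ((k 0).natAbs) ∣ k 0 := ⟨_, h3 _⟩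
    have h6 := Int.natAbs_dvd_natAbs.2 h5
    have h7 := Nat.le_of_dvd (Int.natAbs_pos.2 hne) h6
    rw [Int.natAbs_pow] at h7
    have h8 := Nat.lt_two_pow_self (n := (k 0).natAbs)
    simp only [Int.reduceAbs] at h7
    omega
  have h5 := hk 0
  rw [h4, zpow_zero] at h5
  exact (pow_eq_one_iff_of_nonneg (hc 0).le hM.ne').1 h5


lemma n2 : ‖(2 : PadicAlgCl 2)‖ = 1 / 2 := by
  have h := norm_p_Om (p := 2)
  push_cast at h
  rw [h, one_div]

lemma n4 : ‖(4 : PadicAlgCl 2)‖ = 1 / 4 := by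
  have : (4 : PadicAlgCl 2) = 2 * 2 := by norm_num
  rw [this, norm_mul, n2]; norm_num

lemma n8 : ‖(8 : PadicAlgCl 2)‖ = 1 / 8 := by
  have : (8 : PadicAlgCl 2) = 2 * 4 := by norm_num
  rw [this, norm_mul, n2, n4]; norm_num

lemma n16 : ‖(16 : PadicAlgCl 2)‖ = 1 / 16 := by
  have : (16 : PadicAlgCl 2) = 4 * 4 := by norm_num
  rw [this, norm_mul, n4]; norm_num

lemma dom {p : ℕ} [Fact p.Prime] {x y : PadicAlgCl p} (h : ‖y‖ < ‖x‖) : ‖x + y‖ = ‖x‖ := by
  rw [IsUltrametricDist.norm_add_eq_max_of_norm_ne_norm h.ne', max_eq_left h.le]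

lemma dom_sub {p : ℕ} [Fact p.Prime] {x y : PadicAlgCl p} (h : ‖y‖ < ‖x‖) : ‖x - y‖ = ‖x‖ := by
  rw [sub_eq_add_neg]
  exact dom (by rwa [norm_neg])

/-- powers of elements near one -/
lemma pow_near {p : ℕ} [Fact p.Prime] {y : PadicAlgCl p} {c : ℝ} (hc : c ≤ 1) (h : ‖y - 1‖ ≤ c)
    (M : ℕ) : ‖y ^ M - 1‖ ≤ c := by
  have hc0 : 0 ≤ c := (norm_nonneg _).trans h
  have hy : ‖y‖ ≤ 1 := by
    have : y = (y - 1) + 1 := by ring
    rw [this]
    refine (IsUltrametricDist.norm_add_le_max _ _).trans (max_le (h.trans hc) (by rw [norm_one]))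
  induction M with
  | zero => simpa using hc0
  | succ n ih =>
    have : y ^ (n + 1) - 1 = y ^ n * (y - 1) + (y ^ n - 1) := by ring
    rw [this]
    refine (IsUltrametricDist.norm_add_le_max _ _).trans (max_le ?_ ih)
    rw [norm_mul, norm_pow]
    calc ‖y‖ ^ n * ‖y - 1‖ ≤ 1 * c := mul_le_mul (pow_le_one₀ (norm_nonneg _) hy) h
          (norm_nonneg _) zero_le_one
      _ = c := one_mul c

/-- the perturbation in the ordinary case -/
lemma perturb {w : PadicAlgCl 2} (hw : ‖w‖ ≤ 1) {M : ℕ} (h : 1 / 4 < ‖w ^ M - 1‖) :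
    ‖(w / (1 + 4 * w) ^ 2) ^ M - 1‖ = ‖w ^ M - 1‖ := by
  have h1 : ‖(1 + 4 * w) ^ 2 - 1‖ ≤ 1 / 8 := by
    have : (1 + 4 * w) ^ 2 - 1 = 8 * (w + 2 * w ^ 2) := by ring
    rw [this, norm_mul, n8]
    have h2 : ‖w + 2 * w ^ 2‖ ≤ 1 := by
      refine (IsUltrametricDist.norm_add_le_max _ _).trans (max_le hw ?_)
      rw [norm_mul, norm_pow, n2]
      have := pow_le_one₀ (norm_nonneg w) hw (n := 2)
      linarith
    linarith
  have h2 : ‖((1 + 4 * w) ^ 2) ^ M - 1‖ ≤ 1 / 8 := pow_near (by norm_num) h1 M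
  have h3 : ‖((1 + 4 * w) ^ 2) ^ M‖ = 1 := by
    have : ((1 + 4 * w) ^ 2) ^ M = 1 + (((1 + 4 * w) ^ 2) ^ M - 1) := by ring
    rw [this, dom (by rw [norm_one]; linarith), norm_one]
  have h4 : ((1 + 4 * w) ^ 2) ^ M ≠ 0 := by
    intro h0
    rw [h0, norm_zero] at h3
    exact zero_ne_one h3
  have e : (w / (1 + 4 * w) ^ 2) ^ M - 1 =
      ((w ^ M - 1) - (((1 + 4 * w) ^ 2) ^ M - 1)) / ((1 + 4 * w) ^ 2) ^ M := by
    rw [div_pow]
    field_simp
    ring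
  rw [e, norm_div, h3, div_one, dom_sub (by linarith)]

/-- the good choice of the square root -/
def Sgn (κ σ : PadicAlgCl 2) : Prop :=
  ‖κ‖ = 1 / 16 → ∃ M : ℕ, 1 / 4 < ‖(σ / 4) ^ M - 1‖ ∧ ‖(σ / 4) ^ M - 1‖ < 1

lemma exists_sgn {κ σ : PadicAlgCl 2} (h : σ ^ 2 = κ) : Sgn κ σ ∨ Sgn κ (-σ) := by
  by_cases hκ : ‖κ‖ = 1 / 16
  · have hw : ‖σ / 4‖ = 1 := by
      have h1 : ‖σ / 4‖ ^ 2 = 1 := by
        rw [norm_div, n4, div_pow, ← norm_pow, h, hκ]; norm_num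
      exact (pow_eq_one_iff_of_nonneg (norm_nonneg _) two_ne_zero).1 h1
    obtain ⟨ζ, hζ, hn⟩ := l3 2 (σ / 4) hw.le
    rcases hζ with rfl | ⟨M, hM, hζM⟩
    · rw [sub_zero, hw] at hn
      exact absurd hn (lt_irrefl _)
    · have h1 : ‖(σ / 4) ^ M - 1‖ < 1 := by
        have hζ1 : ‖ζ‖ ≤ 1 := by
          have : ζ = σ / 4 - (σ / 4 - ζ) := by ring
          rw [this]
          exact (norm_sub_le_max' _ _).trans (max_le hw.le hn.le)
        have hζ0 : ‖ζ‖ = 1 := by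
          have : ζ = σ / 4 - (σ / 4 - ζ) := by ring
          rw [this, dom_sub (by rw [hw]; exact hn), hw]
        have hz0 : ζ ≠ 0 := by
          rintro rfl
          rw [norm_zero] at hζ0
          exact zero_ne_one hζ0
        have h2 : ‖σ / 4 / ζ - 1‖ < 1 := by
          have : σ / 4 / ζ - 1 = (σ / 4 - ζ) / ζ := by field_simp
          rw [this, norm_div, hζ0, div_one]
          exact hn
        have h3 := pow_near h2.le le_rfl M
        rw [div_pow, hζM, div_one] at h3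
        exact h3.trans_lt h2
      by_cases h2 : 1 / 4 < ‖(σ / 4) ^ M - 1‖
      · exact Or.inl fun _ => ⟨M, h2, h1⟩
      · right
        intro _
        push Not at h2
        have hodd : Odd M := Nat.not_even_iff_odd.1 fun he => hM he.two_dvd
        have h3 : ‖(-σ / 4) ^ M - 1‖ = 1 / 2 := by
          have e : (-σ / 4) ^ M - 1 = -(2 + ((σ / 4) ^ M - 1)) := by
            rw [neg_div, hodd.neg_pow]; ring
          rw [e, norm_neg, dom, n2]
          rw [n2]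
          linarith
        exact ⟨M, by rw [h3]; norm_num, by rw [h3]; norm_num⟩
  · exact Or.inl fun h1 => absurd h1 hκ

/-- the norms in the tower -/
lemma step_norm {κ σ κ' : PadicAlgCl 2} (hσ : σ ^ 2 = κ) (hκ : κ' = 4 * σ / (1 + σ) ^ 2)
    (h1 : ‖κ‖ < 1) : ‖κ'‖ ^ 2 = ‖κ‖ / 16 ∧ ‖κ'‖ < 1 := by
  have h2 : ‖σ‖ < 1 := by
    by_contra hcon
    push Not at hcon
    have : 1 ≤ ‖σ‖ ^ 2 := one_le_pow₀ hcon
    rw [← norm_pow, hσ] at this
    linarith
  have h3 : ‖1 + σ‖ = 1 := by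
    rw [dom (by rw [norm_one]; exact h2), norm_one]
  have h4 : ‖κ'‖ = ‖σ‖ / 4 := by
    rw [hκ, norm_div, norm_mul, n4, norm_pow, h3]; ring
  refine ⟨?_, by rw [h4]; linarith⟩
  rw [h4, div_pow, ← norm_pow, hσ]; norm_num

/-- **the tower is infinite** -/
theorem tower {κ σ : ℕ → PadicAlgCl 2} (hσ : ∀ n, σ n ^ 2 = κ n)
    (hκ : ∀ n, κ (n + 1) = 4 * σ n / (1 + σ n) ^ 2) (h0 : κ 0 ≠ 0) (h1 : ‖κ 0‖ < 1)
    (hs : Sgn (κ 0) (σ 0)) (F : IntermediateField ℚ_[2] (PadicAlgCl 2))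
    [FiniteDimensional ℚ_[2] F] : ¬ ∀ n, κ n ∈ F := by
  intro hF
  obtain ⟨M, hM, hk⟩ := val_disc F
  have hlt : ∀ n, ‖κ n‖ < 1 := by
    intro n
    induction n with
    | zero => exact h1
    | succ n ih => exact (step_norm (hσ n) (hκ n) ih).2
  have hsq : ∀ n, ‖κ (n + 1)‖ ^ 2 = ‖κ n‖ / 16 := fun n =>
    (step_norm (hσ n) (hκ n) (hlt n)).1
  have hpos : ∀ n, 0 < ‖κ n‖ := by
    intro n
    induction n with
    | zero => exact norm_pos_iff.2 h0
    | succ n ih =>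
      have h2 : 0 < ‖κ (n + 1)‖ ^ 2 := by rw [hsq]; positivity
      by_contra hcon
      push Not at hcon
      have h3 : ‖κ (n + 1)‖ = 0 := le_antisymm hcon (norm_nonneg _)
      rw [h3] at h2
      norm_num at h2
  have hne : ∀ n, κ n ≠ 0 := fun n => norm_pos_iff.1 (hpos n)
  -- the norm of the first element
  have hb : 16 * ‖κ 0‖ = 1 := by
    refine no_seq (c := fun n => 16 * ‖κ n‖) (fun n => mul_pos (by norm_num) (hpos n)) ?_ hM ?_
    · intro n
      show (16 * ‖κ (n + 1)‖) ^ 2 = 16 * ‖κ n‖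
      rw [mul_pow, hsq]; ring
    · intro n
      obtain ⟨k, hk⟩ := hk _ (hF n) (hne n)
      refine ⟨4 * M + k, ?_⟩
      show (16 * ‖κ n‖) ^ M = 2 ^ (4 * (M : ℤ) + k)
      rw [mul_pow, hk, zpow_add₀ (by norm_num), zpow_mul]
      norm_num
  have hall : ∀ n, ‖κ n‖ = 1 / 16 := by
    intro n
    induction n with
    | zero => linarith
    | succ n ih =>
      have h2 := hsq n
      rw [ih] at h2
      have h3 : (‖κ (n + 1)‖ - 1 / 16) * (‖κ (n + 1)‖ + 1 / 16) = 0 := by nlinarith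
      rcases mul_eq_zero.1 h3 with h | h
      · linarith
      · linarith [hpos (n + 1)]
  obtain ⟨m, hm1, hm2⟩ := hs (hall 0)
  have hwn : ∀ n, ‖σ n / 4‖ = 1 := by
    intro n
    have h1 : ‖σ n / 4‖ ^ 2 = 1 := by
      rw [norm_div, n4, div_pow, ← norm_pow, hσ, hall]; norm_num
    exact (pow_eq_one_iff_of_nonneg (norm_nonneg _) two_ne_zero).1 h1
  have hu : ∀ n, κ (n + 1) / 16 = (σ n / 4) / (1 + 4 * (σ n / 4)) ^ 2 := by
    intro n
    have e4 : 4 * (σ n / 4) = σ n := by field_simp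
    rw [hκ, e4]
    field_simp
    norm_num
    ring
  have huw : ∀ n, κ n / 16 = (σ n / 4) ^ 2 := by
    intro n
    rw [div_pow, hσ]; norm_num
  -- the distances from one
  have hd : ∀ n, 1 / 4 < ‖(κ (n + 1) / 16) ^ m - 1‖ ∧ ‖(κ (n + 1) / 16) ^ m - 1‖ < 1 ∧
      ‖(κ (n + 2) / 16) ^ m - 1‖ ^ 2 = ‖(κ (n + 1) / 16) ^ m - 1‖ := by
    have key : ∀ n, 1 / 4 < ‖(κ n / 16) ^ m - 1‖ → ‖(κ n / 16) ^ m - 1‖ < 1 →
        ‖(κ (n + 1) / 16) ^ m - 1‖ ^ 2 = ‖(κ n / 16) ^ m - 1‖ ∧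
          1 / 4 < ‖(κ (n + 1) / 16) ^ m - 1‖ ∧ ‖(κ (n + 1) / 16) ^ m - 1‖ < 1 := by
      intro n k1 k2
      obtain ⟨s, hs⟩ : ∃ s, s = (σ n / 4) ^ m := ⟨_, rfl⟩
      have e1 : (κ n / 16) ^ m - 1 = (s - 1) * (s + 1) := by
        rw [huw, hs, ← pow_mul, mul_comm 2 m, pow_mul]; ring
      have e2 : ‖s - 1‖ * ‖s + 1‖ = ‖(κ n / 16) ^ m - 1‖ := by rw [e1, norm_mul]
      have e3 : s + 1 = (s - 1) + 2 := by ring
      have h5 : 1 / 2 < ‖s - 1‖ := by
        by_contra hcon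
        push Not at hcon
        have h6 : ‖s + 1‖ ≤ 1 / 2 := by
          rw [e3]
          exact (IsUltrametricDist.norm_add_le_max _ _).trans (max_le hcon n2.le)
        have h7 : ‖s - 1‖ * ‖s + 1‖ ≤ 1 / 2 * (1 / 2) :=
          mul_le_mul hcon h6 (norm_nonneg _) (by norm_num)
        linarith
      have h6 : ‖s + 1‖ = ‖s - 1‖ := by
        rw [e3, dom (by rw [n2]; exact h5)]
      have h7 : ‖(κ (n + 1) / 16) ^ m - 1‖ = ‖s - 1‖ := by
        rw [hu, perturb (hwn n).le (by rw [← hs]; linarith), ← hs]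
      refine ⟨by rw [h7, ← e2, h6, sq], by rw [h7]; linarith, ?_⟩
      rw [h7]
      by_contra hcon
      push Not at hcon
      rw [h6] at e2
      nlinarith
    have base : 1 / 4 < ‖(κ (0 + 1) / 16) ^ m - 1‖ ∧ ‖(κ (0 + 1) / 16) ^ m - 1‖ < 1 := by
      rw [hu, perturb (hwn 0).le hm1]
      exact ⟨hm1, hm2⟩
    have all : ∀ n, 1 / 4 < ‖(κ (n + 1) / 16) ^ m - 1‖ ∧ ‖(κ (n + 1) / 16) ^ m - 1‖ < 1 := by
      intro n
      induction n with
      | zero => exact base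
      | succ n ih => exact (key (n + 1) ih.1 ih.2).2
    exact fun n => ⟨(all n).1, (all n).2, (key (n + 1) (all n).1 (all n).2).1⟩
  have hf : ‖(κ (0 + 1) / 16) ^ m - 1‖ = 1 := by
    refine no_seq (c := fun n => ‖(κ (n + 1) / 16) ^ m - 1‖) (fun n => ?_) ?_ hM ?_
    · have := (hd n).1
      show 0 < ‖(κ (n + 1) / 16) ^ m - 1‖
      linarith
    · exact fun n => (hd n).2.2
    · intro n
      apply hk
      · apply sub_mem _ (one_mem F)
        apply pow_mem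
        have h16 : (16 : PadicAlgCl 2) ∈ F := by
          exact_mod_cast natCast_mem F 16
        exact div_mem (hF _) h16
      · intro h
        have := (hd n).1
        rw [h, norm_zero] at this
        norm_num at this
  have := (hd 0).2.1
  linarith

end Pool.Agent.Run7.h780.TW
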