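import Pool.Agent.Run7.h780.GR.Act
import Pool.Agent.Run7.h780.GR.Rel
import Pool.Agent.Run7.h780.TW.Tower

/-!
# Chains of curves
-/

set_option autoImplicit false
set_option linter.all false

namespace Pool.Agent.Run7.h780.TW

open WeierstrassCurve Pool.Agent.H901R3.MS Pool.Agent.Run7.h780.ZC Pool.Agent.Run7.h780.GR
open scoped Classical

section gen
variable {k : Type} [Field k] [IsAlgClosed k] [CharZero k]

/-- a curve with a map to the curve with the coefficients `a₀, b₀` -/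
structure Nd (a₀ b₀ : k) where
  a : k
  b : k
  e₁ : k
  e₂ : k
  e₃ : k
  rt : Rt a b e₁ e₂ e₃
  f : Pt a b → Pt a₀ b₀
  S : Finset k
  good : Good f S

variable {a₀ b₀ : k}

/-- the cross ratio -/
def Nd.K (N : Nd a₀ b₀) : k := kap N.e₁ N.e₂ N.e₃

lemma iso_next (N : Nd a₀ b₀) : Iso2 (-4 * N.a - 15 * N.e₁ ^ 2)
    (-2 * N.e₁ * (11 * N.e₁ ^ 2 + 4 * N.a)) N.a N.b N.e₁ := ⟨rfl, rfl, N.rt.root1⟩

lemma disc_next (N : Nd a₀ b₀) : Disc N.a N.b := disc_of N.rt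

lemma t_eq (N : Nd a₀ b₀) : 4 * N.a + 3 * N.e₁ ^ 2 = -(N.e₂ - N.e₃) ^ 2 := by
  have h1 : N.e₃ = -N.e₁ - N.e₂ := by linear_combination N.rt.sum
  rw [N.rt.ha, h1]; ring

lemma t_ne (N : Nd a₀ b₀) : 4 * N.a + 3 * N.e₁ ^ 2 ≠ 0 := by
  rw [t_eq]
  exact neg_ne_zero.2 (pow_ne_zero _ (sub_ne_zero.2 N.rt.n23))

/-- the next curve -/
noncomputable def Nd.next (N : Nd a₀ b₀) (s : k) (hs : s ^ 2 = (N.e₁ - N.e₂) * (N.e₁ - N.e₃)) :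
    Nd a₀ b₀ where
  a := -4 * N.a - 15 * N.e₁ ^ 2
  b := -2 * N.e₁ * (11 * N.e₁ ^ 2 + 4 * N.a)
  e₁ := N.e₁ + 2 * s
  e₂ := -2 * N.e₁
  e₃ := N.e₁ - 2 * s
  rt := Rt_next N.rt hs
  f := fun P => N.f (psi (iso_next N) (disc_next N) P)
  S := {N.a, N.e₁} ∪ N.S
  good := N.good.comp (psi_good (iso_next N) (disc_next N) (t_ne N))

/-- the square root of the cross ratio -/
def Nd.sg (N : Nd a₀ b₀) (s : k) : k := s / (N.e₁ - N.e₂)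

lemma sg_sq (N : Nd a₀ b₀) {s : k} (hs : s ^ 2 = (N.e₁ - N.e₂) * (N.e₁ - N.e₃)) :
    N.sg s ^ 2 = N.K := by
  have h := sub_ne_zero.2 N.rt.n12
  unfold Nd.sg Nd.K kap
  rw [div_pow, hs]
  field_simp

lemma s_eq (N : Nd a₀ b₀) (s : k) : s = N.sg s * (N.e₁ - N.e₂) := by
  have h := sub_ne_zero.2 N.rt.n12
  unfold Nd.sg
  rw [div_mul_cancel₀ _ h]

lemma three_e (N : Nd a₀ b₀) {s : k} (hs : s ^ 2 = (N.e₁ - N.e₂) * (N.e₁ - N.e₃)) :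
    3 * N.e₁ = (1 + N.sg s ^ 2) * (N.e₁ - N.e₂) := by
  have h := sub_ne_zero.2 N.rt.n12
  have h13 : N.e₁ - N.e₃ = N.sg s ^ 2 * (N.e₁ - N.e₂) := by
    rw [sg_sq N hs, Nd.K, kap, div_mul_cancel₀ _ h]
  linear_combination h13 + N.rt.sum

lemma diff_next (N : Nd a₀ b₀) {s : k} (hs : s ^ 2 = (N.e₁ - N.e₂) * (N.e₁ - N.e₃)) :
    (N.next s hs).e₁ - (N.next s hs).e₂ = (1 + N.sg s) ^ 2 * (N.e₁ - N.e₂) := by
  show (N.e₁ + 2 * s) - (-2 * N.e₁) = _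
  have h := three_e N hs
  have h2 := s_eq N s
  linear_combination h + 2 * h2

lemma sg_one (N : Nd a₀ b₀) {s : k} (hs : s ^ 2 = (N.e₁ - N.e₂) * (N.e₁ - N.e₃)) :
    1 + N.sg s ≠ 0 := by
  intro h
  have h1 := diff_next N hs
  rw [h] at h1
  exact sub_ne_zero.2 (N.next s hs).rt.n12 (by rw [h1]; ring)

lemma K_next (N : Nd a₀ b₀) {s : k} (hs : s ^ 2 = (N.e₁ - N.e₂) * (N.e₁ - N.e₃)) :
    (N.next s hs).K = 4 * N.sg s / (1 + N.sg s) ^ 2 := by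
  have h := sub_ne_zero.2 N.rt.n12
  have h1 := sg_one N hs
  unfold Nd.K kap
  rw [diff_next N hs]
  show ((N.e₁ + 2 * s) - (N.e₁ - 2 * s)) / _ = _
  have h2 := s_eq N s
  rw [div_eq_div_iff (mul_ne_zero (pow_ne_zero _ h1) h) (pow_ne_zero _ h1)]
  linear_combination 4 * (1 + N.sg s) ^ 2 * h2

/-- a chain -/
structure Ch (a₀ b₀ : k) where
  N : ℕ → Nd a₀ b₀
  s : ℕ → k
  hs : ∀ n, s n ^ 2 = ((N n).e₁ - (N n).e₂) * ((N n).e₁ - (N n).e₃)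
  hN : ∀ n, N (n + 1) = (N n).next (s n) (hs n)

theorem exists_chain (N₀ : Nd a₀ b₀) (Q : Nd a₀ b₀ → k → Prop)
    (hQ : ∀ N, ∃ s, s ^ 2 = (N.e₁ - N.e₂) * (N.e₁ - N.e₃) ∧ Q N s) :
    ∃ c : Ch a₀ b₀, c.N 0 = N₀ ∧ ∀ n, Q (c.N n) (c.s n) := by
  choose s hs hq using hQ
  let N : ℕ → Nd a₀ b₀ := fun n => Nat.rec N₀ (fun _ M => M.next (s M) (hs M)) n
  exact ⟨⟨N, fun n => s (N n), fun n => hs (N n), fun n => rfl⟩, rfl, fun n => hq (N n)⟩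

namespace Ch

variable (c : Ch a₀ b₀)

/-- the square roots of the cross ratios -/
noncomputable def g (n : ℕ) : k := (c.N n).sg (c.s n)

lemma g_sq (n : ℕ) : c.g n ^ 2 = (c.N n).K := sg_sq _ (c.hs n)

lemma K_succ (n : ℕ) : (c.N (n + 1)).K = 4 * c.g n / (1 + c.g n) ^ 2 := by
  rw [c.hN]; exact K_next _ _

lemma diff_succ (n : ℕ) : (c.N (n + 1)).e₁ - (c.N (n + 1)).e₂ =
    (1 + c.g n) ^ 2 * ((c.N n).e₁ - (c.N n).e₂) := by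
  rw [c.hN]; exact diff_next _ _

lemma g_ne (n : ℕ) : c.g n ≠ 0 := by
  intro h
  have h1 := c.g_sq n
  rw [h] at h1
  exact kap_ne_zero (c.N n).rt (by unfold Nd.K at h1; rw [← h1]; ring)

lemma g_one (n : ℕ) : 1 + c.g n ≠ 0 := sg_one _ (c.hs n)

lemma K_ne (n : ℕ) : (c.N n).K ≠ 0 := kap_ne_zero (c.N n).rt

/-- the square roots of `-(e₁ - e₂) X (1 - X)` -/
noncomputable def r (r₀ : k) : ℕ → k
  | 0 => r₀
  | n + 1 => r r₀ n * (1 + c.g n)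

lemma r_sq {X r₀ : k} (h : r₀ ^ 2 = -(((c.N 0).e₁ - (c.N 0).e₂) * X * (1 - X))) (n : ℕ) :
    c.r r₀ n ^ 2 = -(((c.N n).e₁ - (c.N n).e₂) * X * (1 - X)) := by
  induction n with
  | zero => exact h
  | succ n ih =>
    show (c.r r₀ n * (1 + c.g n)) ^ 2 = _
    rw [mul_pow, ih, diff_succ]; ring

/-- the ordinates -/
noncomputable def y (X r₀ : k) (ρ : ℕ → k) (n : ℕ) : k :=
  (c.N n).K * (1 - (c.N n).K) * ((c.N n).e₁ - (c.N n).e₂) / (X - (c.N n).K) ^ 2 * c.r r₀ n *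
    c.g n * ρ n

lemma y_ns {X r₀ : k} {ρ : ℕ → k} (h : r₀ ^ 2 = -(((c.N 0).e₁ - (c.N 0).e₂) * X * (1 - X)))
    (hρ : ∀ n, ρ n ^ 2 = 1 - X / (c.N n).K) (hX : ∀ n, X ≠ (c.N n).K) (n : ℕ) :
    (CV (c.N n).a (c.N n).b).toAffine.Nonsingular
      (xi (c.N n).e₁ (c.N n).e₂ (c.N n).e₃ X) (c.y X r₀ ρ n) := by
  rw [nonsingular_iff (disc_of (c.N n).rt)]
  have h1 : X ≠ kap (c.N n).e₁ (c.N n).e₂ (c.N n).e₃ := hX n
  have h2 := cubic_xi (c.N n).rt h1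
  have hK := c.K_ne n
  have hXK : X - (c.N n).K ≠ 0 := sub_ne_zero.2 (hX n)
  show (c.y X r₀ ρ n) ^ 2 = _ ^ 3 + _ * _ + _
  rw [h2]
  unfold y
  rw [mul_pow, mul_pow, mul_pow, hρ, g_sq, c.r_sq h]
  show _ = (c.N n).K ^ 2 * (1 - (c.N n).K) ^ 2 * _ * _ * _ / (X - (c.N n).K) ^ 3
  field_simp
  ring

end Ch

end gen

end Pool.Agent.Run7.h780.TW
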