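import Pool.Agent.Run7.h780.TW.Loc

/-!
# The points of the chain have infinite order
-/

set_option autoImplicit false
set_option linter.all false

namespace Pool.Agent.Run7.h780.TW

open WeierstrassCurve Pool.Agent.H901R3.MS Pool.Agent.Run7.h780.ZC Pool.Agent.Run7.h780.GR
open scoped Classical

/-- good reduction at `θ` -/
structure Gd {p : ℕ} [Fact p.Prime] {k : Type} [Field k] [IsAlgClosed k] [CharZero k]
    (θ : k →+* PadicAlgCl p) {a₀ b₀ : k} (N : Nd a₀ b₀) : Prop where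
  a : ‖θ N.a‖ ≤ 1
  e₁ : ‖θ N.e₁‖ ≤ 1
  e₂ : ‖θ N.e₂‖ ≤ 1
  e₃ : ‖θ N.e₃‖ ≤ 1
  d12 : ‖θ (N.e₁ - N.e₂)‖ = 1
  d13 : ‖θ (N.e₁ - N.e₃)‖ = 1
  d23 : ‖θ (N.e₂ - N.e₃)‖ = 1
  S : ∀ z ∈ N.S, ‖θ z‖ ≤ 1

section
variable {p : ℕ} [Fact p.Prime] {k : Type} [Field k] [IsAlgClosed k] [CharZero k]
  {θ : k →+* PadicAlgCl p} {a₀ b₀ : k}

lemma int_le (c : ℤ) : ‖(c : PadicAlgCl p)‖ ≤ 1 := norm_le_of_int (by
  exact isIntegral_algebraMap (R := ℤ) (A := PadicAlgCl p) (x := c))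

lemma add_le {x y : PadicAlgCl p} (hx : ‖x‖ ≤ 1) (hy : ‖y‖ ≤ 1) : ‖x + y‖ ≤ 1 :=
  (IsUltrametricDist.norm_add_le_max _ _).trans (max_le hx hy)

lemma sub_le {x y : PadicAlgCl p} (hx : ‖x‖ ≤ 1) (hy : ‖y‖ ≤ 1) : ‖x - y‖ ≤ 1 := by
  rw [sub_eq_add_neg]; exact add_le hx (by rwa [norm_neg])

lemma mul_le {x y : PadicAlgCl p} (hx : ‖x‖ ≤ 1) (hy : ‖y‖ ≤ 1) : ‖x * y‖ ≤ 1 := by
  rw [norm_mul]; exact mul_le_one₀ hx (norm_nonneg _) hy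

lemma pow_le {x : PadicAlgCl p} (hx : ‖x‖ ≤ 1) (n : ℕ) : ‖x ^ n‖ ≤ 1 := by
  rw [norm_pow]; exact pow_le_one₀ (norm_nonneg _) hx

lemma unit_of_mul {x y : PadicAlgCl p} (hx : ‖x‖ ≤ 1) (hy : ‖y‖ ≤ 1) (h : ‖x * y‖ = 1) :
    ‖x‖ = 1 := by
  rw [norm_mul] at h
  apply le_antisymm hx
  by_contra hcon
  push Not at hcon
  nlinarith [norm_nonneg x, norm_nonneg y]

lemma four_norm (hp : 2 < p) : ‖(4 : PadicAlgCl p)‖ = 1 := by
  have : (4 : PadicAlgCl p) = 2 * 2 := by norm_num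
  rw [this, norm_mul, norm_two hp, mul_one]

lemma Gd.s_norm {N : Nd a₀ b₀} (h : Gd θ N) {s : k}
    (hs : s ^ 2 = (N.e₁ - N.e₂) * (N.e₁ - N.e₃)) : ‖θ s‖ = 1 := by
  have h1 : ‖θ s‖ ^ 2 = 1 := by
    rw [← norm_pow, ← map_pow, hs, map_mul, norm_mul, h.d12, h.d13, one_mul]
  exact (pow_eq_one_iff_of_nonneg (norm_nonneg _) two_ne_zero).1 h1

lemma Gd.next (hp : 2 < p) {N : Nd a₀ b₀} (h : Gd θ N) {s : k}
    (hs : s ^ 2 = (N.e₁ - N.e₂) * (N.e₁ - N.e₃)) : Gd θ (N.next s hs) := by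
  have ns := h.s_norm hs
  have m2 : ‖(2 : PadicAlgCl p)‖ ≤ 1 := (norm_two hp).le
  have m4 : ‖(4 : PadicAlgCl p)‖ ≤ 1 := (four_norm hp).le
  have m3 : ‖(3 : PadicAlgCl p)‖ ≤ 1 := by exact_mod_cast int_le (p := p) 3
  have m11 : ‖(11 : PadicAlgCl p)‖ ≤ 1 := by exact_mod_cast int_le (p := p) 11
  have m15 : ‖(15 : PadicAlgCl p)‖ ≤ 1 := by exact_mod_cast int_le (p := p) 15
  have hu : ‖3 * θ N.e₁ + 2 * θ s‖ ≤ 1 := add_le (mul_le m3 h.e₁) (mul_le m2 ns.le)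
  have hv : ‖3 * θ N.e₁ - 2 * θ s‖ ≤ 1 := sub_le (mul_le m3 h.e₁) (mul_le m2 ns.le)
  have huv : ‖(3 * θ N.e₁ + 2 * θ s) * (3 * θ N.e₁ - 2 * θ s)‖ = 1 := by
    have e : (3 * θ N.e₁ + 2 * θ s) * (3 * θ N.e₁ - 2 * θ s) = (θ (N.e₂ - N.e₃)) ^ 2 := by
      have h1 : (3 * N.e₁ + 2 * s) * (3 * N.e₁ - 2 * s) = (N.e₂ - N.e₃) ^ 2 := by
        have h2 : N.e₃ = -N.e₁ - N.e₂ := by linear_combination N.rt.sum
        have h3 : (3 * N.e₁ + 2 * s) * (3 * N.e₁ - 2 * s) = 9 * N.e₁ ^ 2 - 4 * s ^ 2 := by ring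
        rw [h3, hs, h2]; ring
      have h4 := congrArg θ h1
      simp only [map_mul, map_add, map_sub, map_pow, map_ofNat] at h4 ⊢
      exact h4
    rw [e, norm_pow, h.d23, one_pow]
  have hu1 := unit_of_mul hu hv huv
  have hv1 := unit_of_mul hv hu (by rw [mul_comm]; exact huv)
  refine ⟨?_, ?_, ?_, ?_, ?_, ?_, ?_, ?_⟩
  · show ‖θ (-4 * N.a - 15 * N.e₁ ^ 2)‖ ≤ 1
    simp only [map_mul, map_sub, map_neg, map_pow, map_ofNat]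
    exact sub_le (mul_le (by rwa [norm_neg]) h.a) (mul_le m15 (pow_le h.e₁ 2))
  · show ‖θ (N.e₁ + 2 * s)‖ ≤ 1
    simp only [map_mul, map_add, map_ofNat]
    exact add_le h.e₁ (mul_le m2 ns.le)
  · show ‖θ (-2 * N.e₁)‖ ≤ 1
    simp only [map_mul, map_neg, map_ofNat]
    exact mul_le (by rwa [norm_neg]) h.e₁
  · show ‖θ (N.e₁ - 2 * s)‖ ≤ 1
    simp only [map_mul, map_sub, map_ofNat]
    exact sub_le h.e₁ (mul_le m2 ns.le)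
  · show ‖θ (N.e₁ + 2 * s - -2 * N.e₁)‖ = 1
    have e : θ (N.e₁ + 2 * s - -2 * N.e₁) = 3 * θ N.e₁ + 2 * θ s := by
      simp only [map_mul, map_sub, map_add, map_neg, map_ofNat]; ring
    rw [e]; exact hu1
  · show ‖θ (N.e₁ + 2 * s - (N.e₁ - 2 * s))‖ = 1
    have e : θ (N.e₁ + 2 * s - (N.e₁ - 2 * s)) = 4 * θ s := by
      simp only [map_mul, map_sub, map_add, map_ofNat]; ring
    rw [e, norm_mul, four_norm hp, ns, one_mul]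
  · show ‖θ (-2 * N.e₁ - (N.e₁ - 2 * s))‖ = 1
    have e : θ (-2 * N.e₁ - (N.e₁ - 2 * s)) = -(3 * θ N.e₁ - 2 * θ s) := by
      simp only [map_mul, map_sub, map_neg, map_ofNat]; ring
    rw [e, norm_neg]; exact hv1
  · intro z hz
    have hz' : z ∈ ({N.a, N.e₁} : Finset k) ∪ N.S := hz
    rw [Finset.mem_union, Finset.mem_insert, Finset.mem_singleton] at hz'
    rcases hz' with (rfl | rfl) | hz'
    · exact h.a
    · exact h.e₁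
    · exact h.S z hz'

lemma Gd.K {N : Nd a₀ b₀} (h : Gd θ N) : ‖θ N.K‖ = 1 := by
  show ‖θ ((N.e₁ - N.e₃) / (N.e₁ - N.e₂))‖ = 1
  rw [map_div₀, norm_div, h.d13, h.d12, div_one]

end

/-- **the points have infinite order** -/
theorem inf_order {p : ℕ} [Fact p.Prime] (hp : 2 < p) {θ : AlgebraicClosure ℚ →+* PadicAlgCl p}
    {a₀ b₀ : AlgebraicClosure ℚ} {N : Nd a₀ b₀} (h : Gd θ N) (na : ‖θ a₀‖ ≤ 1) (nb : ‖θ b₀‖ ≤ 1)
    {s : AlgebraicClosure ℚ} (hs : s ^ 2 = (N.e₁ - N.e₂) * (N.e₁ - N.e₃))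
    {X y : AlgebraicClosure ℚ} (hX0 : X ≠ 0) (hX : (p : ℝ) ^ 2 * ‖θ X‖ < 1)
    (hxy : (CV (N.next s hs).a (N.next s hs).b).toAffine.Nonsingular
      (xi (N.next s hs).e₁ (N.next s hs).e₂ (N.next s hs).e₃ X) y) {n : ℕ} (hn : n ≠ 0) :
    n • (N.next s hs).f (Affine.Point.some _ _ hxy) ≠ 0 := by
  have hp1 : (1 : ℝ) < p := by exact_mod_cast (Fact.out : p.Prime).one_lt
  have h' := h.next hp hs
  have nX0 : 0 < ‖θ X‖ := norm_pos_iff.2 ((map_ne_zero θ).2 hX0)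
  have hp2 : (1 : ℝ) < (p : ℝ) ^ 2 := one_lt_pow₀ hp1 (by norm_num)
  have nX : ‖θ X‖ < 1 := by nlinarith
  obtain ⟨e₁, he₁⟩ : ∃ e, e = (N.next s hs).e₁ := ⟨_, rfl⟩
  obtain ⟨e₂, he₂⟩ : ∃ e, e = (N.next s hs).e₂ := ⟨_, rfl⟩
  obtain ⟨e₃, he₃⟩ : ∃ e, e = (N.next s hs).e₃ := ⟨_, rfl⟩
  have he2' : e₂ = -2 * N.e₁ := he₂
  obtain ⟨κ, hκ⟩ : ∃ κ, κ = kap e₁ e₂ e₃ := ⟨_, rfl⟩
  have nκ : ‖θ κ‖ = 1 := by rw [hκ, he₁, he₂, he₃]; exact h'.K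
  have nXκ : ‖θ (X - κ)‖ = 1 := by
    have : θ (X - κ) = -(θ κ - θ X) := by rw [map_sub]; ring
    rw [this, norm_neg, dom_sub (by rw [nκ]; exact nX), nκ]
  have hXκ : X - κ ≠ 0 := by
    intro h0
    rw [h0, map_zero, norm_zero] at nXκ
    exact zero_ne_one nXκ
  obtain ⟨x, hx⟩ : ∃ x, x = xi e₁ e₂ e₃ X := ⟨_, rfl⟩
  have hxe : x - e₂ = (e₃ - e₂) * X / (X - κ) := by
    rw [hx, xi, ← hκ]
    field_simp
    ring
  have nxe : ‖θ (x - e₂)‖ = ‖θ X‖ := by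
    have h1 : ‖θ (e₃ - e₂)‖ = 1 := by
      have : e₃ - e₂ = -(e₂ - e₃) := by ring
      rw [this, map_neg, norm_neg, he₂, he₃]; exact h'.d23
    rw [hxe, map_div₀, map_mul, norm_div, norm_mul, h1, nXκ, one_mul, div_one]
  have hx2 : x + 2 * N.e₁ ≠ 0 := by
    intro h0
    have : x - e₂ = 0 := by rw [he2']; linear_combination h0
    rw [this, map_zero, norm_zero] at nxe
    linarith
  have nx : ‖θ x‖ ≤ 1 := by
    have : θ x = θ (x - e₂) + θ e₂ := by rw [← map_add]; congr 1; ring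
    rw [this]
    exact add_le (by rw [nxe]; exact nX.le) (by rw [he₂]; exact h'.e₂)
  have hxy' : (CV (-4 * N.a - 15 * N.e₁ ^ 2) (-2 * N.e₁ * (11 * N.e₁ ^ 2 + 4 * N.a))).toAffine.Nonsingular
      x y := by rw [hx, he₁, he₂, he₃]; exact hxy
  have hf : (N.next s hs).f (Affine.Point.some _ _ hxy) =
      N.f (psi (iso_next N) (disc_next N) (Affine.Point.some x y hxy')) := by
    show N.f (psi (iso_next N) (disc_next N) (Affine.Point.some _ _ hxy)) = _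
    congr 2
    rw [Affine.Point.some.injEq]
    exact ⟨by rw [hx, he₁, he₂, he₃], rfl⟩
  rw [hf, psi_neg (iso_next N) (disc_next N) hxy' hx2]
  -- the abscissa of the image
  have nq : ‖θ ((4 * N.a + 3 * N.e₁ ^ 2) / (x + 2 * N.e₁))‖ = ‖θ X‖⁻¹ := by
    have h1 : x + 2 * N.e₁ = x - e₂ := by rw [he2']; ring
    rw [t_eq, h1, map_div₀, norm_div, nxe, map_neg, norm_neg, map_pow, norm_pow, h.d23, one_pow,
      one_div]
  have hinv : (p : ℝ) ^ 2 < ‖θ X‖⁻¹ := by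
    rw [lt_inv_comm₀ (by positivity) nX0, inv_eq_one_div, lt_div_iff₀ (by positivity), mul_comm]
    exact hX
  have nx1 : ‖θ ((x - (4 * N.a + 3 * N.e₁ ^ 2) / (x + 2 * N.e₁)) / 4)‖ = ‖θ X‖⁻¹ := by
    rw [map_div₀, norm_div, map_ofNat, four_norm hp, div_one, map_sub]
    have e : θ x - θ ((4 * N.a + 3 * N.e₁ ^ 2) / (x + 2 * N.e₁)) =
        -(θ ((4 * N.a + 3 * N.e₁ ^ 2) / (x + 2 * N.e₁)) - θ x) := by ring
    rw [e, norm_neg, dom_sub (by rw [nq]; linarith), nq]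
  obtain ⟨x', y', h2, e1, e2⟩ := N.good.big p hp θ h.S _ _
    ((nonsingular_iff (disc_next N)).2 ((iso_next N).eqn (fun h2 => (disc_next N)
      (by rw [h2, zero_mul])) hx2 (eqn_of hxy'))) (by rw [nx1]; linarith)
  rw [e1]
  apply nontors na nb h2 _ hn
  rw [e2, nx1]
  exact hinv

end Pool.Agent.Run7.h780.TW
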