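import Pool.Agent.Run7.h780.TW.Pow

/-!
# Zero-cycles on products of punctured elliptic curves
-/

set_option autoImplicit false
set_option linter.all false

namespace Pool.Agent.Run7.h780.TW

open WeierstrassCurve Pool.Agent.H901R3.MS Pool.Agent.Run7.h780.ZC Pool.Agent.Run7.h780.GR
open scoped Classical

section
variable {k : Type} [Field k] [IsAlgClosed k] [CharZero k] {r : ℕ} {a b : Fin r → k}

/-- the classes of the points of the boundary -/
noncomputable def Bd (a b : Fin r → k) : AddSubgroup (CHP a b) :=
  AddSubgroup.closure {c | ∃ x : (i : Fin r) → Pt (a i) (b i), (∃ i, x i = 0) ∧ c = cl x}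

lemma cl_bd {x : (i : Fin r) → Pt (a i) (b i)} {i : Fin r} (h : x i = 0) : cl x ∈ Bd a b :=
  AddSubgroup.subset_closure ⟨x, ⟨i, h⟩, rfl⟩

/-- additivity in one coordinate, modulo the boundary -/
lemma bd_add (hD : ∀ i, Disc (a i) (b i)) (x : (i : Fin r) → Pt (a i) (b i)) (i : Fin r)
    (P Q : Pt (a i) (b i)) : cl (Function.update x i P) + cl (Function.update x i Q) -
      cl (Function.update x i (P + Q)) ∈ Bd a b := by
  have h := cl_add x i (hD i) P Q
  rw [sub_eq_zero] at h
  rw [h]
  exact cl_bd (i := i) (Function.update_self _ _ _)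

/-- orthogonal coordinates -/
lemma bd_two (x : (i : Fin r) → Pt (a i) (b i)) (i j : Fin r) (hij : i ≠ j)
    (h : cyc (x i) (x j) ∈ RatEquivZero (a i) (b i) (a j) (b j)) : cl x ∈ Bd a b := by
  have h1 := cl_two x i j (x i) (x j) h
  rw [Function.update_eq_self, Function.update_eq_self] at h1
  have h2 : cl x = cl (Function.update x j 0) + cl (Function.update (Function.update x i 0) j (x j)) -
      cl (Function.update (Function.update x i 0) j 0) := by
    rw [← sub_eq_zero, ← h1]
    abel
  rw [h2]
  refine AddSubgroup.sub_mem _ (AddSubgroup.add_mem _ (cl_bd (i := j) (Function.update_self _ _ _))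
    (cl_bd (i := i) ?_)) (cl_bd (i := j) (Function.update_self _ _ _))
  rw [Function.update_of_ne hij, Function.update_self]

/-- changing one coordinate by an orthogonal point -/
lemma bd_one (hD : ∀ i, Disc (a i) (b i)) (x : (i : Fin r) → Pt (a i) (b i)) (i j : Fin r)
    (hij : i ≠ j) (P : Pt (a j) (b j))
    (h : cyc (x i) (x j - P) ∈ RatEquivZero (a i) (b i) (a j) (b j)) :
    cl x - cl (Function.update x j P) ∈ Bd a b := by
  have h1 := bd_add hD x j (x j - P) P
  rw [sub_add_cancel, Function.update_eq_self] at h1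
  have h2 : cl (Function.update x j (x j - P)) ∈ Bd a b := by
    refine bd_two _ i j hij ?_
    rw [Function.update_of_ne hij, Function.update_self]
    exact h
  have h3 : cl x - cl (Function.update x j P) = cl (Function.update x j (x j - P)) -
      (cl (Function.update x j (x j - P)) + cl (Function.update x j P) - cl x) := by abel
  rw [h3]
  exact AddSubgroup.sub_mem _ h2 h1

/-- changing several coordinates -/
lemma bd_many (hD : ∀ i, Disc (a i) (b i)) (x y : (i : Fin r) → Pt (a i) (b i)) (i₀ : Fin r)
    (h0 : x i₀ = y i₀)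
    (h : ∀ j, j ≠ i₀ → cyc (y i₀) (x j - y j) ∈ RatEquivZero (a i₀) (b i₀) (a j) (b j)) :
    cl x - cl y ∈ Bd a b := by
  have key : ∀ S : Finset (Fin r),
      cl (fun l => if l ∈ S then x l else y l) - cl y ∈ Bd a b := by
    intro S
    induction S using Finset.induction_on with
    | empty => simp [AddSubgroup.zero_mem]
    | insert j S hj ih =>
      by_cases hji : j = i₀
      · have e : (fun l => if l ∈ insert j S then x l else y l) =
            (fun l => if l ∈ S then x l else y l) := by
          funext l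
          by_cases hl : l = j
          · subst hl
            subst hji
            simp [hj, h0]
          · simp [hl]
        rw [e]
        exact ih
      · have e : (fun l => if l ∈ S then x l else y l) =
            Function.update (fun l => if l ∈ insert j S then x l else y l) j (y j) := by
          funext l
          by_cases hl : l = j
          · subst hl
            simp [hj]
          · rw [Function.update_of_ne hl]
            simp [hl]
        have h2 := bd_one hD (fun l => if l ∈ insert j S then x l else y l) i₀ j (Ne.symm hji)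
          (y j) (by
            have e1 : (if i₀ ∈ insert j S then x i₀ else y i₀) = y i₀ := by
              split_ifs
              · exact h0
              · rfl
            simp only [Finset.mem_insert_self, if_true]
            rw [e1]
            exact h j hji)
        rw [← e] at h2
        have h3 := AddSubgroup.add_mem _ h2 ih
        rwa [sub_add_sub_cancel] at h3
  have h1 := key Finset.univ
  simpa using h1

/-- cycles which agree on the open part with a cycle rationally equivalent to zero -/
lemma of_bd {Z : ((i : Fin r) → Pt (a i) (b i)) →₀ ℤ}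
    (h : (QuotientAddGroup.mk Z : CHP a b) ∈ Bd a b) :
    ∃ z ∈ REP a b, ∀ x, (∀ i, x i ≠ 0) → Z x = z x := by
  have key : ∀ c ∈ Bd a b, ∃ B : ((i : Fin r) → Pt (a i) (b i)) →₀ ℤ,
      (QuotientAddGroup.mk B : CHP a b) = c ∧ ∀ x, (∀ i, x i ≠ 0) → B x = 0 := by
    intro c hc
    induction hc using AddSubgroup.closure_induction with
    | mem c hc =>
      obtain ⟨x, ⟨i, hi⟩, rfl⟩ := hc
      refine ⟨Finsupp.single x 1, rfl, fun y hy => ?_⟩
      rw [Finsupp.single_apply, if_neg]
      rintro rfl
      exact hy i hi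
    | zero => exact ⟨0, rfl, fun _ _ => rfl⟩
    | add c d _ _ hc hd =>
      obtain ⟨B, rfl, hB⟩ := hc
      obtain ⟨B', rfl, hB'⟩ := hd
      refine ⟨B + B', rfl, fun x hx => ?_⟩
      rw [Finsupp.add_apply, hB x hx, hB' x hx, add_zero]
    | neg c _ hc =>
      obtain ⟨B, rfl, hB⟩ := hc
      refine ⟨-B, rfl, fun x hx => ?_⟩
      rw [Finsupp.neg_apply, hB x hx, neg_zero]
  obtain ⟨B, hB, hB'⟩ := key _ h
  refine ⟨Z - B, ?_, fun x hx => ?_⟩
  · rw [← QuotientAddGroup.eq_zero_iff]
    have : (QuotientAddGroup.mk (Z - B) : CHP a b) =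
        (QuotientAddGroup.mk Z : CHP a b) - QuotientAddGroup.mk B := rfl
    rw [this, hB, sub_self]
  · rw [Finsupp.sub_apply, hB' x hx, sub_zero]

end

/-- **points of products of punctured elliptic curves** -/
theorem system_open {a₁ b₁ : AlgebraicClosure ℚ} (P₁ : Pt a₁ b₁) (hD₁ : Disc a₁ b₁) :
    ∃ Λ : (a b : AlgebraicClosure ℚ) → AddSubgroup (Pt a b), P₁ ∈ Λ a₁ b₁ ∧
      (∀ a b, Disc a b → ∃ Q : ℕ → Pt a b, LinearIndependent ℤ Q ∧ ∀ n, Q n ∈ Λ a b) ∧
      (∀ a b, ∀ (T : Pt a b) (n : ℕ), n ≠ 0 → n • T = 0 → T ∈ Λ a b) ∧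
      ∀ (r : ℕ) (a b : Fin r → AlgebraicClosure ℚ), (∀ i, Disc (a i) (b i)) →
        ∀ (x y : (i : Fin r) → Pt (a i) (b i)) (i₀ : Fin r), x i₀ = y i₀ →
          x i₀ ∈ Λ (a i₀) (b i₀) → (∀ i, x i - y i ∈ Λ (a i) (b i)) →
            ∃ z ∈ REP a b, ∀ u : (i : Fin r) → Pt (a i) (b i), (∀ i, u i ≠ 0) →
              (Finsupp.single x 1 - Finsupp.single y 1 :
                ((i : Fin r) → Pt (a i) (b i)) →₀ ℤ) u = z u := by
  obtain ⟨Λ, h1, h2, h3, h4⟩ := system P₁ hD₁
  refine ⟨Λ, h1, h2, h3, fun r a b hD x y i₀ h0 hx hxy => of_bd ?_⟩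
  have h := bd_many hD x y i₀ h0 (fun j hj => h4 _ _ _ _ (hD i₀) (hD j) _ (by rw [← h0]; exact hx)
    _ (hxy j))
  exact h

end Pool.Agent.Run7.h780.TW
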