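import Pool.Agent.Run7.h780.TW.Odd

/-!
# The points of the chain and the automorphisms
-/

set_option autoImplicit false
set_option linter.all false

namespace Pool.Agent.Run7.h780.TW

open WeierstrassCurve Pool.Agent.H901R3.MS Pool.Agent.Run7.h780.ZC Pool.Agent.Run7.h780.GR
open scoped Classical

section
variable {a₀ b₀ : AlgebraicClosure ℚ}

lemma xi_fix {N : Nd a₀ b₀} {g : AlgebraicClosure ℚ ≃ₐ[ℚ] AlgebraicClosure ℚ}
    (hfix : ∀ z ∈ Ch.dt N, g z = z) {X : AlgebraicClosure ℚ} (gX : g X = X) :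
    g (xi N.e₁ N.e₂ N.e₃ X) = xi N.e₁ N.e₂ N.e₃ X := by
  have g1 : g N.e₁ = N.e₁ := hfix _ (by simp [Ch.dt])
  have g2 : g N.e₂ = N.e₂ := hfix _ (by simp [Ch.dt])
  have g3 : g N.e₃ = N.e₃ := hfix _ (by simp [Ch.dt])
  have gk : g (kap N.e₁ N.e₂ N.e₃) = kap N.e₁ N.e₂ N.e₃ := by
    rw [kap, map_div₀, map_sub, map_sub, g1, g2, g3]
  unfold xi
  rw [map_add, map_div₀, map_mul, map_sub, map_sub, gk, g3, g2, gX]

lemma act_pos {N : Nd a₀ b₀} {g : AlgebraicClosure ℚ ≃ₐ[ℚ] AlgebraicClosure ℚ}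
    (hfix : ∀ z ∈ Ch.dt N, g z = z) {X : AlgebraicClosure ℚ} (gX : g X = X)
    (ga : g a₀ = a₀) (gb : g b₀ = b₀) {y : AlgebraicClosure ℚ}
    (h : (CV N.a N.b).toAffine.Nonsingular (xi N.e₁ N.e₂ N.e₃ X) y) (gy : g y = y) :
    pmap (g : AlgebraicClosure ℚ →+* AlgebraicClosure ℚ) ga gb
      (N.f (Affine.Point.some _ _ h)) = N.f (Affine.Point.some _ _ h) := by
  symm
  apply pmap_unique
  apply N.good.gal (g : AlgebraicClosure ℚ →+* AlgebraicClosure ℚ)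
    (fun z hz => hfix z (Finset.mem_union_right _ hz))
  show some (xi N.e₁ N.e₂ N.e₃ X, y) = some (g (xi N.e₁ N.e₂ N.e₃ X), g y)
  rw [xi_fix hfix gX, gy]

lemma act_neg {N : Nd a₀ b₀} {g : AlgebraicClosure ℚ ≃ₐ[ℚ] AlgebraicClosure ℚ}
    (hfix : ∀ z ∈ Ch.dt N, g z = z) {X : AlgebraicClosure ℚ} (gX : g X = X)
    (ga : g a₀ = a₀) (gb : g b₀ = b₀) {y : AlgebraicClosure ℚ}
    (h : (CV N.a N.b).toAffine.Nonsingular (xi N.e₁ N.e₂ N.e₃ X) y) (gy : g y = -y) :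
    pmap (g : AlgebraicClosure ℚ →+* AlgebraicClosure ℚ) ga gb
      (N.f (Affine.Point.some _ _ h)) = -N.f (Affine.Point.some _ _ h) := by
  rw [← N.good.neg]
  symm
  apply pmap_unique
  apply N.good.gal (g : AlgebraicClosure ℚ →+* AlgebraicClosure ℚ)
    (fun z hz => hfix z (Finset.mem_union_right _ hz))
  rw [neg_some' h (neg_ns h)]
  show some (xi N.e₁ N.e₂ N.e₃ X, -y) = some (g (xi N.e₁ N.e₂ N.e₃ X), g y)
  rw [xi_fix hfix gX, gy]

/-- the action on the ordinates -/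
lemma y_act (c : Ch a₀ b₀) {X r₀ : AlgebraicClosure ℚ} {ρ : ℕ → AlgebraicClosure ℚ}
    {g : AlgebraicClosure ℚ ≃ₐ[ℚ] AlgebraicClosure ℚ} {n : ℕ}
    (hfix : ∀ z ∈ Ch.dt (c.N n), g z = z) (gX : g X = X) (gρ : g (ρ n) = ρ n) {ε δ : ℤ}
    (gr : g (c.r r₀ n) = (δ : AlgebraicClosure ℚ) * c.r r₀ n)
    (gg : g (c.g n) = (ε : AlgebraicClosure ℚ) * c.g n) :
    g (c.y X r₀ ρ n) = ((ε * δ : ℤ) : AlgebraicClosure ℚ) * c.y X r₀ ρ n := by
  have g1 : g (c.N n).e₁ = (c.N n).e₁ := hfix _ (by simp [Ch.dt])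
  have g2 : g (c.N n).e₂ = (c.N n).e₂ := hfix _ (by simp [Ch.dt])
  have g3 : g (c.N n).e₃ = (c.N n).e₃ := hfix _ (by simp [Ch.dt])
  have gk : g (c.N n).K = (c.N n).K := by
    show g (kap _ _ _) = kap _ _ _
    rw [kap, map_div₀, map_sub, map_sub, g1, g2, g3]
  unfold Ch.y
  simp only [map_mul, map_div₀, map_sub, map_pow, map_one, gk, g1, g2, gX, gρ, gr, gg]
  push_cast
  ring

lemma r_act (c : Ch a₀ b₀) {r₀ : AlgebraicClosure ℚ}
    {g : AlgebraicClosure ℚ ≃ₐ[ℚ] AlgebraicClosure ℚ} {n : ℕ} (hg : ∀ m < n, g (c.g m) = c.g m)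
    {δ : ℤ} (gr : g r₀ = (δ : AlgebraicClosure ℚ) * r₀) :
    g (c.r r₀ n) = (δ : AlgebraicClosure ℚ) * c.r r₀ n := by
  induction n with
  | zero => exact gr
  | succ n ih =>
    show g (c.r r₀ n * (1 + c.g n)) = _ * (c.r r₀ n * (1 + c.g n))
    rw [map_mul, ih (fun m hm => hg m (Nat.lt_succ_of_lt hm)), map_add, map_one,
      hg n (Nat.lt_succ_self n)]
    ring

/-- the points of the chain -/
noncomputable def Ch.R (c : Ch a₀ b₀) {X r₀ : AlgebraicClosure ℚ} {ρ : ℕ → AlgebraicClosure ℚ}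
    (h : ∀ n, (CV (c.N n).a (c.N n).b).toAffine.Nonsingular
      (xi (c.N n).e₁ (c.N n).e₂ (c.N n).e₃ X) (c.y X r₀ ρ n)) (n : ℕ) : Pt a₀ b₀ :=
  (c.N n).f (Affine.Point.some _ _ (h n))

/-- **one point is moved** -/
theorem one_moved (c : Ch a₀ b₀) {X r₀ : AlgebraicClosure ℚ} {ρ : ℕ → AlgebraicClosure ℚ}
    (h : ∀ n, (CV (c.N n).a (c.N n).b).toAffine.Nonsingular
      (xi (c.N n).e₁ (c.N n).e₂ (c.N n).e₃ X) (c.y X r₀ ρ n))
    {θ : AlgebraicClosure ℚ →+* PadicAlgCl 2}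
    (h1 : ‖θ (c.N 0).K‖ < 1) (hs : Sgn (θ (c.N 0).K) (θ (c.g 0)))
    (hρ : ∀ n, ρ n ^ 2 = 1 - X / (c.N n).K) (hρ1 : ∀ n, ‖θ (ρ n) - 1‖ < 1 / 2) (n₀ : ℕ) :
    ∃ n, n₀ ≤ n ∧ ∃ G : Pt a₀ b₀ →+ Pt a₀ b₀, (∀ m < n, G (c.R h m) = c.R h m) ∧
      G (c.R h n) = -c.R h n := by
  obtain ⟨n, hn, g, hD, hgn, hgρ⟩ := c.moves (r₀ := r₀) h1 hs hρ hρ1 n₀
  have ga : g a₀ = a₀ := hD _ (c.dt_mem (Nat.zero_le n) (by simp [Ch.dt]))
  have gb : g b₀ = b₀ := hD _ (c.dt_mem (Nat.zero_le n) (by simp [Ch.dt]))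
  have gX : g X = X := hD _ (c.X_mem n)
  have gr₀ : g r₀ = ((1 : ℤ) : AlgebraicClosure ℚ) * r₀ := by
    rw [hD _ (c.r_mem n)]; push_cast; ring
  have hdt : ∀ m ≤ n, ∀ z ∈ Ch.dt (c.N m), g z = z := fun m hm z hz => hD z (c.dt_mem hm hz)
  have hgm : ∀ m < n, g (c.g m) = c.g m := fun m hm => hD _ (c.g_mem hm)
  have hr : ∀ m ≤ n, g (c.r r₀ m) = ((1 : ℤ) : AlgebraicClosure ℚ) * c.r r₀ m := fun m hm =>
    r_act c (fun j hj => hgm j (lt_of_lt_of_le hj hm)) gr₀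
  refine ⟨n, hn, pmap (g : AlgebraicClosure ℚ →+* AlgebraicClosure ℚ) ga gb, ?_, ?_⟩
  · intro m hm
    apply act_pos (hdt m hm.le) gX ga gb
    have := y_act c (hdt m hm.le) gX (hgρ m hm.le) (hr m hm.le) (ε := 1)
      (by rw [hgm m hm]; push_cast; ring)
    rw [this]; push_cast; ring
  · apply act_neg (hdt n le_rfl) gX ga gb
    have := y_act c (hdt n le_rfl) gX (hgρ n le_rfl) (hr n le_rfl) (ε := -1)
      (by rw [hgn]; push_cast; ring)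
    rw [this]; push_cast; ring

/-- **infinitely many independent points** -/
theorem exists_indep {A : Type} [AddCommGroup A] (R : ℕ → A)
    (h : ∀ n₀, ∃ n, n₀ ≤ n ∧ ∃ G : A →+ A, (∀ m < n, G (R m) = R m) ∧ G (R n) = -R n)
    (hR : ∀ n, n ≠ 0 → ∀ m : ℕ, m ≠ 0 → m • R n ≠ 0) :
    ∃ φ : ℕ → ℕ, StrictMono φ ∧ (∀ j, φ j ≠ 0) ∧ LinearIndependent ℤ fun j => R (φ j) := by
  have hfr : ∃ᶠ n in Filter.atTop, n ≠ 0 ∧ ∃ G : A →+ A, (∀ m < n, G (R m) = R m) ∧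
      G (R n) = -R n := by
    rw [Filter.frequently_atTop]
    intro n₀
    obtain ⟨n, hn, hG⟩ := h (n₀ + 1)
    exact ⟨n, by omega, by omega, hG⟩
  obtain ⟨φ, hφ, hall⟩ := Filter.extraction_of_frequently_atTop hfr
  refine ⟨φ, hφ, fun j => (hall j).1, ?_⟩
  rw [linearIndependent_iff]
  intro l hl
  by_contra hne
  have hsup : l.support.Nonempty := Finsupp.support_nonempty_iff.2 hne
  obtain ⟨K, hK⟩ : ∃ K, K = l.support.max' hsup := ⟨_, rfl⟩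
  have hKm : K ∈ l.support := by rw [hK]; exact Finset.max'_mem _ _
  obtain ⟨-, G, hG1, hG2⟩ := hall K
  rw [Finsupp.linearCombination_apply, Finsupp.sum] at hl
  have h2 : ∑ j ∈ l.support, l j • G (R (φ j)) = 0 := by
    have := congrArg G hl
    rw [map_sum, map_zero] at this
    simpa only [map_zsmul] using this
  have h3 : ∑ j ∈ l.support, l j • (R (φ j) - G (R (φ j))) = 0 := by
    simp only [smul_sub, Finset.sum_sub_distrib]
    rw [hl, h2, sub_zero]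
  rw [Finset.sum_eq_single K] at h3
  · rw [hG2, sub_neg_eq_add, ← two_zsmul, smul_smul] at h3
    have h4 : (l K * 2).natAbs • R (φ K) = 0 := by
      rcases Int.natAbs_eq (l K * 2) with h | h
      · rw [← natCast_zsmul, ← h]; exact h3
      · rw [← natCast_zsmul]
        have : ((l K * 2).natAbs : ℤ) = -(l K * 2) := by omega
        rw [this, neg_smul, h3, neg_zero]
    refine hR _ (hall K).1 _ ?_ h4
    have := Finsupp.mem_support_iff.1 hKm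
    omega
  · intro j hj hjK
    have hlt : j < K := lt_of_le_of_ne (by rw [hK]; exact Finset.le_max' _ _ hj) hjK
    rw [hG1 _ (hφ hlt), sub_self, smul_zero]
  · exact fun h => absurd hKm h

end

end Pool.Agent.Run7.h780.TW
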