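import Pool.Agent.Run7.h780.TW.Pts

/-!
# The first curve of the chain
-/

set_option autoImplicit false
set_option linter.all false

namespace Pool.Agent.Run7.h780.TW

open WeierstrassCurve Pool.Agent.H901R3.MS Pool.Agent.Run7.h780.ZC Pool.Agent.Run7.h780.GR
open scoped Classical

variable {k : Type} [Field k] [IsAlgClosed k] [CharZero k] {a₀ b₀ : k}

/-- the curve itself -/
noncomputable def nd0 {e₁ e₂ e₃ : k} (h : Rt a₀ b₀ e₁ e₂ e₃) : Nd a₀ b₀ where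
  a := a₀
  b := b₀
  e₁ := e₁
  e₂ := e₂
  e₃ := e₃
  rt := h
  f := fun P => P
  S := ∅
  good := good_id

lemma nd0_K (θ : k →+* PadicAlgCl 2) {e₁ e₂ e₃ : k} (h : Rt a₀ b₀ e₁ e₂ e₃)
    (hlt : ‖θ (e₁ - e₃)‖ < ‖θ (e₁ - e₂)‖) : ‖θ (nd0 h).K‖ < 1 := by
  show ‖θ ((e₁ - e₃) / (e₁ - e₂))‖ < 1
  rw [map_div₀, norm_div, div_lt_one]
  · exact hlt
  · exact lt_of_le_of_lt (norm_nonneg _) hlt

theorem exists_start (θ : k →+* PadicAlgCl 2) (hD : Disc a₀ b₀) :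
    ∃ N₀ : Nd a₀ b₀, ‖θ N₀.K‖ < 1 := by
  obtain ⟨e₁, e₂, e₃, h⟩ := exists_Rt hD
  rcases lt_trichotomy ‖θ (e₁ - e₃)‖ ‖θ (e₁ - e₂)‖ with h1 | h1 | h1
  · exact ⟨nd0 h, nd0_K θ h h1⟩
  · have h3 : ‖θ (e₂ - e₃)‖ ≤ ‖θ (e₁ - e₂)‖ := by
      have : θ (e₂ - e₃) = θ (e₁ - e₃) - θ (e₁ - e₂) := by rw [← map_sub]; congr 1; ring
      rw [this, sub_eq_add_neg]
      refine (IsUltrametricDist.norm_add_le_max _ _).trans ?_
      rw [norm_neg, h1, max_self]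
    rcases h3.lt_or_eq with h2 | h2
    · refine ⟨nd0 h.swap12, nd0_K θ h.swap12 ?_⟩
      have : ‖θ (e₂ - e₁)‖ = ‖θ (e₁ - e₂)‖ := by
        rw [← norm_neg, ← map_neg, neg_sub]
      rw [this]; exact h2
    · obtain ⟨s, hs⟩ := IsAlgClosed.exists_pow_nat_eq ((e₁ - e₂) * (e₁ - e₃)) (n := 2) (by norm_num)
      have hs' : s ^ 2 = ((nd0 h).e₁ - (nd0 h).e₂) * ((nd0 h).e₁ - (nd0 h).e₃) := hs
      refine ⟨(nd0 h).next s hs', ?_⟩
      have n12 : ‖θ (e₁ - e₂)‖ ≠ 0 := norm_ne_zero_iff.2 ((map_ne_zero θ).2 (sub_ne_zero.2 h.n12))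
      have hK : ‖θ (nd0 h).K‖ = 1 := by
        show ‖θ ((e₁ - e₃) / (e₁ - e₂))‖ = 1
        rw [map_div₀, norm_div, h1, div_self n12]
      have hK1 : ‖θ (1 - (nd0 h).K)‖ = 1 := by
        have e : 1 - (nd0 h).K = -((e₂ - e₃) / (e₁ - e₂)) := by
          show 1 - (e₁ - e₃) / (e₁ - e₂) = _
          have := sub_ne_zero.2 h.n12
          field_simp
          ring
        rw [e, map_neg, norm_neg, map_div₀, norm_div, h2, div_self n12]
      obtain ⟨σ, hσ⟩ : ∃ σ, σ = (nd0 h).sg s := ⟨_, rfl⟩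
      have hσ2 : σ ^ 2 = (nd0 h).K := by rw [hσ]; exact sg_sq _ hs'
      have nσ : ‖θ σ‖ = 1 := by
        have : ‖θ σ‖ ^ 2 = 1 := by rw [← norm_pow, ← map_pow, hσ2, hK]
        exact (pow_eq_one_iff_of_nonneg (norm_nonneg _) two_ne_zero).1 this
      have nu : ‖1 + θ σ‖ = 1 := by
        apply unit_of_mul (y := 1 - θ σ) (add_le (by rw [norm_one]) nσ.le)
          (sub_le (by rw [norm_one]) nσ.le)
        have e : (1 + θ σ) * (1 - θ σ) = θ (1 - (nd0 h).K) := by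
          rw [← hσ2, map_sub, map_one, map_pow]; ring
        rw [e]; exact hK1
      rw [K_next, ← hσ, map_div₀, map_mul, map_pow, map_add, map_one, map_ofNat, norm_div, norm_mul,
        norm_pow, nu, nσ, n4]
      norm_num
  · exact ⟨nd0 h.swap23, nd0_K θ h.swap23 h1⟩

/-- the chain with the good signs -/
theorem exists_good_chain (θ : k →+* PadicAlgCl 2) (N₀ : Nd a₀ b₀) :
    ∃ c : Ch a₀ b₀, c.N 0 = N₀ ∧ Sgn (θ (c.N 0).K) (θ (c.g 0)) := by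
  obtain ⟨c, h0, hc⟩ := exists_chain N₀ (fun N s => Sgn (θ N.K) (θ (N.sg s))) (by
    intro N
    obtain ⟨s, hs⟩ := IsAlgClosed.exists_pow_nat_eq ((N.e₁ - N.e₂) * (N.e₁ - N.e₃)) (n := 2)
      (by norm_num)
    have h1 : (θ (N.sg s)) ^ 2 = θ N.K := by rw [← map_pow, sg_sq N hs]
    rcases exists_sgn h1 with h2 | h2
    · exact ⟨s, hs, h2⟩
    · refine ⟨-s, by rw [neg_sq]; exact hs, ?_⟩
      have e : N.sg (-s) = -N.sg s := by unfold Nd.sg; rw [neg_div]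
      rw [e, map_neg]
      exact h2)
  exact ⟨c, h0, hc 0⟩

/-- orthogonality of the points with the same parameter -/
theorem ortho' {a b c d : k} (hD : Disc a b) (hD' : Disc c d)
    (B : Pt a b →+ Pt c d →+ CH a b c d) (hB : ∀ P Q, B P Q = QuotientAddGroup.mk (cyc P Q))
    (N : Nd a b) (N' : Nd c d) {X y y' : k} (hX : X ≠ N.K) (hX' : X ≠ N'.K)
    (h : (CV N.a N.b).toAffine.Nonsingular (xi N.e₁ N.e₂ N.e₃ X) y)
    (h' : (CV N'.a N'.b).toAffine.Nonsingular (xi N'.e₁ N'.e₂ N'.e₃ X) y') :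
    2 • B (N.f (Affine.Point.some _ _ h)) (N'.f (Affine.Point.some _ _ h')) = 0 := by
  obtain ⟨B', hB'⟩ := exists_bil (disc_of N.rt) (disc_of N'.rt)
  have h1 := rel_all N.rt N'.rt (disc_of N.rt) (disc_of N'.rt) B' hB' h h' hX hX' rfl rfl
  rw [hB', ← QuotientAddGroup.mk_nsmul] at h1
  have h2 := (QuotientAddGroup.eq_zero_iff _).1 h1
  have h3 := N.good.mor.push N'.good.mor h2
  have h4 : Finsupp.mapDomain (Prod.map N.f N'.f)
      (2 • cyc (Affine.Point.some _ _ h : Pt N.a N.b) (Affine.Point.some _ _ h' : Pt N'.a N'.b)) =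
      2 • cyc (N.f (Affine.Point.some _ _ h)) (N'.f (Affine.Point.some _ _ h')) := by
    rw [two_nsmul, two_nsmul, Finsupp.mapDomain_add, map_cyc N.good.zero N'.good.zero]
  rw [h4] at h3
  rw [hB, ← QuotientAddGroup.mk_nsmul]
  exact (QuotientAddGroup.eq_zero_iff _).2 h3

end Pool.Agent.Run7.h780.TW
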