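import Pool.Agent.Run7.h780.TW.Mult

/-!
# The system through a given point
-/

set_option autoImplicit false
set_option linter.all false

namespace Pool.Agent.Run7.h780.TW

open WeierstrassCurve Pool.Agent.H901R3.MS Pool.Agent.Run7.h780.ZC Pool.Agent.Run7.h780.GR
open scoped Classical

section gen
variable {k : Type} [Field k] [IsAlgClosed k] [CharZero k]

/-- translation by a point of order two -/
lemma add_T {a b e₁ e₂ e₃ x y : k} (hrt : Rt a b e₁ e₂ e₃)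
    (h : (CV a b).toAffine.Nonsingular x y) (h1 : x ≠ e₁) (h2 : x ≠ e₂) :
    ∃ (y' : k) (hT : (CV a b).toAffine.Nonsingular e₂ 0)
      (h' : (CV a b).toAffine.Nonsingular (xi e₁ e₂ e₃ ((e₃ - e₁) / (x - e₁))) y'),
      (Affine.Point.some _ _ h + Affine.Point.some _ _ hT : Pt a b) = Affine.Point.some _ _ h' ∧
      (e₃ - e₁) / (x - e₁) ≠ kap e₁ e₂ e₃ := by
  have hD := disc_of hrt
  have hT : (CV a b).toAffine.Nonsingular e₂ 0 := (nonsingular_iff hD).2 (by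
    unfold Eqn
    have := hrt.swap12.root1
    linear_combination -this)
  obtain ⟨h₃, e⟩ := add_ne h hT h2 _ _ _ rfl rfl rfl
  have hE : y ^ 2 = (x - e₁) * (x - e₂) * (x - e₃) := by
    have h3 : y ^ 2 = x ^ 3 + a * x + b := eqn_of h
    rw [h3, hrt.fac]
  have n1 : x - e₁ ≠ 0 := sub_ne_zero.2 h1
  have n2 : x - e₂ ≠ 0 := sub_ne_zero.2 h2
  have n12 : e₁ - e₂ ≠ 0 := sub_ne_zero.2 hrt.n12
  have n13 : e₁ - e₃ ≠ 0 := sub_ne_zero.2 hrt.n13
  have hk : (e₃ - e₁) / (x - e₁) - kap e₁ e₂ e₃ = -((e₁ - e₃) * (x - e₂)) / ((x - e₁) * (e₁ - e₂)) := by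
    rw [kap]
    field_simp
    ring
  have hk0 : (e₃ - e₁) / (x - e₁) - kap e₁ e₂ e₃ ≠ 0 := by
    rw [hk]
    exact div_ne_zero (neg_ne_zero.2 (mul_ne_zero n13 n2)) (mul_ne_zero n1 n12)
  have hx : ((y - 0) / (x - e₂)) ^ 2 - x - e₂ = xi e₁ e₂ e₃ ((e₃ - e₁) / (x - e₁)) := by
    have hxi : xi e₁ e₂ e₃ ((e₃ - e₁) / (x - e₁)) =
        e₂ + (e₁ - e₂) * (e₃ - e₂) / (x - e₂) := by
      rw [xi, ← sub_eq_zero]
      rw [hk]
      field_simp
      rw [kap]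
      field_simp
      ring
    rw [hxi, sub_zero, div_pow, hE]
    have hs := hrt.sum
    field_simp
    linear_combination (e₂ - x) * hs
  have key : ∀ X, ((y - 0) / (x - e₂)) ^ 2 - x - e₂ = X → ∃ (y' : k)
      (h' : (CV a b).toAffine.Nonsingular X y'),
      (Affine.Point.some _ _ h + Affine.Point.some _ _ hT : Pt a b) = Affine.Point.some _ _ h' := by
    rintro X rfl
    exact ⟨_, h₃, e⟩
  obtain ⟨y', h', e'⟩ := key _ hx
  exact ⟨y', hT, h', e', sub_ne_zero.1 hk0⟩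

/-- the points of finite order are orthogonal to all points -/
lemma tor_left {a b c d : k} (hD' : Disc c d) (B : Pt a b →+ Pt c d →+ CH a b c d) {P : Pt a b}
    {n : ℕ} (hn : n ≠ 0) (hP : n • P = 0) (Q : Pt c d) : B P Q = 0 := by
  obtain ⟨R, rfl⟩ := Pool.Agent.TH954.exists_nsmul_eq hD' (Nat.one_le_iff_ne_zero.2 hn) Q
  rw [map_nsmul, ← AddMonoidHom.nsmul_apply, ← map_nsmul, hP, map_zero, AddMonoidHom.zero_apply]

lemma tor_right {a b c d : k} (hD : Disc a b) (B : Pt a b →+ Pt c d →+ CH a b c d) {Q : Pt c d}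
    {n : ℕ} (hn : n ≠ 0) (hQ : n • Q = 0) (P : Pt a b) : B P Q = 0 := by
  obtain ⟨R, rfl⟩ := Pool.Agent.TH954.exists_nsmul_eq hD (Nat.one_le_iff_ne_zero.2 hn) P
  rw [map_nsmul, AddMonoidHom.nsmul_apply, ← map_nsmul, hQ, map_zero]

/-- the diagonal points -/
lemma diag_zero {a b : k} (hD : Disc a b) (B : Pt a b →+ Pt a b →+ CH a b a b)
    (hB : ∀ P Q, B P Q = QuotientAddGroup.mk (cyc P Q)) (P : Pt a b) : B P P = 0 := by
  obtain ⟨R, rfl⟩ := Pool.Agent.TH954.exists_nsmul_eq hD (n := 2) (by norm_num) P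
  have h1 : 2 • B R R = 0 := by
    rcases R with _ | ⟨x, y, h⟩
    · change 2 • B 0 0 = 0
      rw [map_zero, smul_zero]
    · have key : ∀ (u w : k) (hu : (CV a b).toAffine.Nonsingular u w), u = 1 ^ 2 * x →
          w = 1 ^ 3 * y → 2 • B (Affine.Point.some _ _ h) (Affine.Point.some _ _ hu) = 0 := by
        rintro u w hu rfl rfl
        exact scale_rel hD hD one_ne_zero (by ring) (by ring) B hB h hu
      exact key x y h (by ring) (by ring)
  rw [map_nsmul, map_nsmul, AddMonoidHom.nsmul_apply, h1, smul_zero]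

end gen

/-- a multiple of the point in the system -/
theorem exists_param {θ : AlgebraicClosure ℚ →+* PadicAlgCl 2} {a b : AlgebraicClosure ℚ}
    (hD : Disc a b) {P : Pt a b} (hP : ∀ n : ℕ, n ≠ 0 → n • P ≠ 0) :
    ∃ (X : AlgebraicClosure ℚ) (m : ℕ) (N : Nd a b) (y : AlgebraicClosure ℚ) (_ : X ≠ N.K)
      (h : (CV N.a N.b).toAffine.Nonsingular (xi N.e₁ N.e₂ N.e₃ X) y),
        X ≠ 0 ∧ ‖θ X‖ ≤ 1 / 512 ∧ m ≠ 0 ∧
          2 • (m • P) = 2 • N.f (Affine.Point.some _ _ h) := by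
  obtain ⟨e₁, e₂, e₃, hrt⟩ := exists_Rt hD
  obtain ⟨C, hC⟩ : ∃ C : ℝ, C = max (max ‖θ e₁‖ ‖θ e₂‖) (512 * ‖θ (e₃ - e₁)‖) := ⟨_, rfl⟩
  obtain ⟨m, x, y, h, hm, hmP, hx⟩ := exists_mult θ hD hP C
  have h1 : ‖θ e₁‖ < ‖θ x‖ := lt_of_le_of_lt (by
    rw [hC]; exact (le_max_left _ _).trans (le_max_left _ _)) hx
  have h2 : ‖θ e₂‖ < ‖θ x‖ := lt_of_le_of_lt (by
    rw [hC]; exact (le_max_right _ _).trans (le_max_left _ _)) hx
  have h3 : 512 * ‖θ (e₃ - e₁)‖ < ‖θ x‖ := lt_of_le_of_lt (by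
    rw [hC]; exact le_max_right _ _) hx
  have n1 : x ≠ e₁ := by
    rintro rfl
    exact lt_irrefl _ h1
  have n2 : x ≠ e₂ := by
    rintro rfl
    exact lt_irrefl _ h2
  obtain ⟨y', hT, h', e, hk⟩ := add_T hrt h n1 n2
  have nx : ‖θ (x - e₁)‖ = ‖θ x‖ := by rw [map_sub, dom_sub h1]
  have nx0 : 0 < ‖θ x‖ := lt_of_le_of_lt (norm_nonneg _) h1
  refine ⟨_, m, nd0 hrt, y', hk, h', ?_, ?_, hm, ?_⟩
  · exact div_ne_zero (sub_ne_zero.2 hrt.n13.symm) (sub_ne_zero.2 n1)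
  · rw [map_div₀, norm_div, nx, div_le_iff₀ nx0]
    linarith
  · have hT2 : 2 • (Affine.Point.some _ _ hT : Pt a b) = 0 := by
      rw [two_nsmul, add_opp hT hT rfl (by rw [neg_zero])]
    have e2 : (2 • (m • P) : Pt a b) = 2 • (Affine.Point.some _ _ h' : Pt a b) := by
      rw [← e, hmP, smul_add, hT2, add_zero]
    exact e2

/-- twice the point is twice a point with the parameter `X` -/
def Pr (X : AlgebraicClosure ℚ) {a b : AlgebraicClosure ℚ} (P : Pt a b) : Prop :=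
  ∃ (N : Nd a b) (y : AlgebraicClosure ℚ) (_ : X ≠ N.K)
    (h : (CV N.a N.b).toAffine.Nonsingular (xi N.e₁ N.e₂ N.e₃ X) y),
      2 • P = 2 • N.f (Affine.Point.some _ _ h)

lemma pr_ortho2 {X a b c d : AlgebraicClosure ℚ} (hD : Disc a b) (hD' : Disc c d)
    (B : Pt a b →+ Pt c d →+ CH a b c d) (hB : ∀ P Q, B P Q = QuotientAddGroup.mk (cyc P Q))
    {P : Pt a b} {Q : Pt c d} {N : Nd a b} {y : AlgebraicClosure ℚ} (hN : X ≠ N.K)
    (hy : (CV N.a N.b).toAffine.Nonsingular (xi N.e₁ N.e₂ N.e₃ X) y)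
    (hP : P = N.f (Affine.Point.some _ _ hy)) (hQ : Pr X Q) : 2 • B P Q = 0 := by
  obtain ⟨N', y', hN', hy', e'⟩ := hQ
  have h := ortho' hD hD' B hB N N' hN hN' hy hy'
  rw [← map_nsmul, e', map_nsmul, hP, h]

lemma pr_ortho3 {X a b c d : AlgebraicClosure ℚ} (hD : Disc a b) (hD' : Disc c d)
    (B : Pt a b →+ Pt c d →+ CH a b c d) (hB : ∀ P Q, B P Q = QuotientAddGroup.mk (cyc P Q))
    {P : Pt a b} {Q : Pt c d} {N : Nd c d} {y : AlgebraicClosure ℚ} (hN : X ≠ N.K)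
    (hy : (CV N.a N.b).toAffine.Nonsingular (xi N.e₁ N.e₂ N.e₃ X) y)
    (hQ : Q = N.f (Affine.Point.some _ _ hy)) (hP : Pr X P) : 2 • B P Q = 0 := by
  obtain ⟨N', y', hN', hy', e'⟩ := hP
  have h := ortho' hD hD' B hB N' N hN' hN hy' hy
  have e3 : 2 • B P Q = B (2 • P) Q := by
    rw [map_nsmul, AddMonoidHom.nsmul_apply]
  rw [e3, e', map_nsmul, hQ, AddMonoidHom.nsmul_apply, h]

/-- the generators -/
inductive Gn (X : AlgebraicClosure ℚ) (m : ℕ) {a₁ b₁ : AlgebraicClosure ℚ} (P₁ : Pt a₁ b₁)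
    (a b : AlgebraicClosure ℚ) (x : Pt a b) : Prop
  | main (N : Nd a b) (y : AlgebraicClosure ℚ) (hN : X ≠ N.K)
      (h : (CV N.a N.b).toAffine.Nonsingular (xi N.e₁ N.e₂ N.e₃ X) y)
      (e : x = m • 2 • N.f (Affine.Point.some _ _ h)) : Gn X m P₁ a b x
  | tor (n : ℕ) (hn : n ≠ 0) (h : n • x = 0) : Gn X m P₁ a b x
  | pt (ha : a = a₁) (hb : b = b₁) (h : coords x = coords P₁) (hP : Pr X (m • x)) :
      Gn X m P₁ a b x

lemma gn_ortho {X : AlgebraicClosure ℚ} {m : ℕ} {a₁ b₁ : AlgebraicClosure ℚ} {P₁ : Pt a₁ b₁}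
    {a b c d : AlgebraicClosure ℚ} (hD : Disc a b) (hD' : Disc c d)
    (B : Pt a b →+ Pt c d →+ CH a b c d) (hB : ∀ P Q, B P Q = QuotientAddGroup.mk (cyc P Q))
    {P : Pt a b} {Q : Pt c d} (hP : Gn X m P₁ a b P) (hQ : Gn X m P₁ c d Q) : B P Q = 0 := by
  rcases hP with ⟨N, y, hN, hy, e⟩ | ⟨n, hn, h⟩ | ⟨ha, hb, h, hp⟩
  · rcases hQ with ⟨N', y', hN', hy', e'⟩ | ⟨n, hn, h⟩ | ⟨ha, hb, h, hp⟩
    · have h := ortho' hD hD' B hB N N' hN hN' hy hy'
      rw [e, e', map_nsmul, map_nsmul, map_nsmul, map_nsmul, AddMonoidHom.nsmul_apply,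
        AddMonoidHom.nsmul_apply, h, smul_zero, smul_zero, smul_zero]
    · exact tor_right hD B hn h P
    · have h1 := pr_ortho2 hD hD' B hB hN hy rfl hp
      rw [e, map_nsmul, map_nsmul, AddMonoidHom.nsmul_apply, AddMonoidHom.nsmul_apply]
      rw [map_nsmul] at h1
      rw [smul_comm]
      exact h1
  · exact tor_left hD' B hn h Q
  · rcases hQ with ⟨N', y', hN', hy', e'⟩ | ⟨n, hn, h'⟩ | ⟨ha', hb', h', hp'⟩
    · have h1 := pr_ortho3 hD hD' B hB hN' hy' rfl hp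
      rw [e', map_nsmul, map_nsmul]
      rw [map_nsmul, AddMonoidHom.nsmul_apply] at h1
      rw [smul_comm]
      exact h1
    · exact tor_right hD B hn h' P
    · subst ha hb ha' hb'
      have e1 : P = P₁ := coords_injective h
      have e2 : Q = P₁ := coords_injective h'
      rw [e1, e2]
      exact diag_zero hD B hB P₁

/-- **the system through a given point** -/
theorem system {a₁ b₁ : AlgebraicClosure ℚ} (P₁ : Pt a₁ b₁) (hD₁ : Disc a₁ b₁) :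
    ∃ Λ : (a b : AlgebraicClosure ℚ) → AddSubgroup (Pt a b), P₁ ∈ Λ a₁ b₁ ∧
      (∀ a b, Disc a b → ∃ Q : ℕ → Pt a b, LinearIndependent ℤ Q ∧ ∀ n, Q n ∈ Λ a b) ∧
      (∀ a b, ∀ (T : Pt a b) (n : ℕ), n ≠ 0 → n • T = 0 → T ∈ Λ a b) ∧
      ∀ a b c d, Disc a b → Disc c d → ∀ x ∈ Λ a b, ∀ y ∈ Λ c d,
        cyc x y ∈ RatEquivZero a b c d := by
  obtain ⟨θ⟩ := exists_emb (PadicAlgCl 2)
  -- the parameter
  obtain ⟨X, m, hX0, hX, hm, hPX⟩ : ∃ (X : AlgebraicClosure ℚ) (m : ℕ), X ≠ 0 ∧ ‖θ X‖ ≤ 1 / 512 ∧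
      m ≠ 0 ∧ (Pr X (m • P₁) ∨ ∃ n : ℕ, n ≠ 0 ∧ n • P₁ = 0) := by
    by_cases h : ∀ n : ℕ, n ≠ 0 → n • P₁ ≠ 0
    · obtain ⟨X, m, N, y, hN, hy, h1, h2, h3, h4⟩ := exists_param (θ := θ) hD₁ h
      exact ⟨X, m, h1, h2, h3, Or.inl ⟨N, y, hN, hy, h4⟩⟩
    · push Not at h
      refine ⟨2 ^ 9, 1, by norm_num, ?_, one_ne_zero, Or.inr h⟩
      rw [map_pow, map_ofNat, norm_pow, n2]
      norm_num
  refine ⟨fun a b => AddSubgroup.closure {x | Gn X m P₁ a b x}, ?_, ?_, ?_, ?_⟩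
  · apply AddSubgroup.subset_closure
    rcases hPX with h | ⟨n, hn, h⟩
    · exact Gn.pt rfl rfl rfl h
    · exact Gn.tor n hn h
  · intro a b hD
    obtain ⟨P, hP, h⟩ := one_curve2 (θ := θ) hD hX0 hX
    refine ⟨fun n => m • P n, ?_, fun n => AddSubgroup.subset_closure ?_⟩
    · rw [linearIndependent_iff] at hP ⊢
      intro l hl
      have h6 : Finsupp.linearCombination ℤ P ((m : ℤ) • l) = 0 := by
        rw [map_zsmul, ← hl, Finsupp.linearCombination_apply, Finsupp.linearCombination_apply,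
          Finsupp.sum, Finsupp.sum, Finset.smul_sum]
        refine Finset.sum_congr rfl fun n _ => ?_
        rw [natCast_zsmul, smul_comm]
      exact (smul_eq_zero.1 (hP _ h6)).resolve_left (by exact_mod_cast hm)
    · obtain ⟨N, y, hN, hy, e⟩ := h n
      exact Gn.main N y hN hy (congrArg (fun z => m • z) e)
  · intro a b T n hn h
    exact AddSubgroup.subset_closure (Gn.tor n hn h)
  · intro a b c d hD hD' x hx y hy
    obtain ⟨B, hB⟩ := exists_bil hD hD'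
    have h3 : B x y = 0 :=
      closure_ortho B (fun s hs t ht => gn_ortho hD hD' B hB hs ht) hx hy
    rw [hB] at h3
    exact (QuotientAddGroup.eq_zero_iff _).1 h3

end Pool.Agent.Run7.h780.TW
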