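import Pool.Agent.Run7.h780.TW.Core
import Pool.Agent.Run7.h780.GR.Main

/-!
# One system of isotropic subgroups of infinite rank for all curves
-/

set_option autoImplicit false
set_option linter.all false

namespace Pool.Agent.Run7.h780.TW

open WeierstrassCurve Pool.Agent.H901R3.MS Pool.Agent.Run7.h780.ZC Pool.Agent.Run7.h780.GR
open scoped Classical

section gen
variable {k : Type} [Field k] [IsAlgClosed k] [CharZero k] {a₀ b₀ : k}

/-- the chain from a later curve on -/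
noncomputable def Ch.shift (c : Ch a₀ b₀) (m : ℕ) : Ch a₀ b₀ where
  N := fun n => c.N (n + m)
  s := fun n => c.s (n + m)
  hs := fun n => c.hs (n + m)
  hN := fun n => by
    have h := c.hN (n + m)
    have e : n + 1 + m = n + m + 1 := by omega
    rw [e]; exact h

/-- the sixteenfold norms tend to one -/
lemma exists_large (c : Ch a₀ b₀) {θ : k →+* PadicAlgCl 2} (h1 : ‖θ (c.N 0).K‖ < 1) :
    ∃ n, 1 / 64 < ‖θ (c.N n).K‖ := by
  by_contra hcon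
  push Not at hcon
  have h2 : ∀ n, ‖θ (c.N (n + 1)).K‖ ^ 2 = ‖θ (c.N n).K‖ / 16 := fun n =>
    (step_norm (κ := θ (c.N n).K) (σ := θ (c.g n)) (κ' := θ (c.N (n + 1)).K)
      (by rw [← map_pow, c.g_sq]) (by
        rw [c.K_succ, map_div₀, map_mul, map_pow, map_add, map_one, map_ofNat])
      (c.K_norm h1 n).1).1
  have hpos : ∀ n, 0 < ‖θ (c.N n).K‖ := fun n =>
    norm_pos_iff.2 ((map_ne_zero θ).2 (c.K_ne n))
  have h3 : ∀ n, 4 ^ n * ‖θ (c.N 0).K‖ ≤ ‖θ (c.N n).K‖ := by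
    intro n
    induction n with
    | zero => simp
    | succ n ih =>
      have h4 := h2 n
      have h5 := hcon (n + 1)
      have h6 : ‖θ (c.N (n + 1)).K‖ ^ 2 ≤ ‖θ (c.N (n + 1)).K‖ * (1 / 64) := by
        rw [sq]; exact mul_le_mul_of_nonneg_left h5 (hpos _).le
      rw [h4] at h6
      rw [pow_succ]
      linarith
  obtain ⟨n, hn⟩ := pow_unbounded_of_one_lt (1 / ‖θ (c.N 0).K‖) (show (1 : ℝ) < 4 by norm_num)
  have h4 := h3 n
  have h5 := hcon n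
  rw [div_lt_iff₀ (hpos 0)] at hn
  linarith

end gen

/-- good reduction of the curve with the coefficients `a, b` -/
def GR0 {p : ℕ} [Fact p.Prime] (θ : AlgebraicClosure ℚ →+* PadicAlgCl p)
    (a b : AlgebraicClosure ℚ) : Prop :=
  ‖θ a‖ ≤ 1 ∧ ‖θ b‖ ≤ 1 ∧ ‖θ (4 * a ^ 3 + 27 * b ^ 2)‖ = 1

variable {a₀ b₀ : AlgebraicClosure ℚ}

lemma disc_of_GR {p : ℕ} [Fact p.Prime] {θ : AlgebraicClosure ℚ →+* PadicAlgCl p}
    (h : GR0 θ a₀ b₀) : Disc a₀ b₀ := by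
  apply mul_ne_zero two_ne_zero
  intro h0
  have h1 := h.2.2
  rw [h0, map_zero, norm_zero] at h1
  exact zero_ne_one h1

/-- roots of integral polynomials -/
lemma root_le {p : ℕ} [Fact p.Prime] {θ : AlgebraicClosure ℚ →+* PadicAlgCl p}
    (ha : ‖θ a₀‖ ≤ 1) (hb : ‖θ b₀‖ ≤ 1) {e : AlgebraicClosure ℚ}
    (h : e ^ 3 + a₀ * e + b₀ = 0) : ‖θ e‖ ≤ 1 := by
  by_contra hcon
  push Not at hcon
  have h1 : θ e ^ 3 = -(θ a₀ * θ e + θ b₀) := by
    have := congrArg θ h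
    simp only [map_add, map_mul, map_pow, map_zero] at this
    linear_combination this
  have h2 : ‖θ e‖ ^ 3 ≤ ‖θ e‖ := by
    rw [← norm_pow, h1, norm_neg]
    refine (IsUltrametricDist.norm_add_le_max _ _).trans (max_le ?_ (hb.trans hcon.le))
    rw [norm_mul]
    exact mul_le_of_le_one_left (norm_nonneg _) ha
  have h3 : 1 < ‖θ e‖ ^ 2 := one_lt_pow₀ hcon (by norm_num)
  nlinarith

lemma gd_nd0 {p : ℕ} [Fact p.Prime] {θ : AlgebraicClosure ℚ →+* PadicAlgCl p}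
    (h : GR0 θ a₀ b₀) {e₁ e₂ e₃ : AlgebraicClosure ℚ} (hrt : Rt a₀ b₀ e₁ e₂ e₃) :
    Gd θ (nd0 hrt) := by
  have r1 := root_le h.1 h.2.1 hrt.root1
  have r2 := root_le h.1 h.2.1 hrt.swap12.root1
  have r3 := root_le h.1 h.2.1 hrt.swap23.swap12.root1
  have m12 : ‖θ (e₁ - e₂)‖ ≤ 1 := by rw [map_sub]; exact sub_le r1 r2
  have m13 : ‖θ (e₁ - e₃)‖ ≤ 1 := by rw [map_sub]; exact sub_le r1 r3
  have m23 : ‖θ (e₂ - e₃)‖ ≤ 1 := by rw [map_sub]; exact sub_le r2 r3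
  have hd : ‖θ ((e₁ - e₂) ^ 2 * (e₁ - e₃) ^ 2 * (e₂ - e₃) ^ 2)‖ = 1 := by
    have e : (e₁ - e₂) ^ 2 * (e₁ - e₃) ^ 2 * (e₂ - e₃) ^ 2 = -(4 * a₀ ^ 3 + 27 * b₀ ^ 2) := by
      have h1 : e₃ = -e₁ - e₂ := by linear_combination hrt.sum
      rw [hrt.ha, hrt.hb, h1]
      ring
    rw [e, map_neg, norm_neg]
    exact h.2.2
  rw [map_mul, map_mul, map_pow, map_pow, map_pow, norm_mul, norm_mul, norm_pow, norm_pow,
    norm_pow] at hd
  have q12 : ‖θ (e₁ - e₂)‖ ^ 2 ≤ 1 := pow_le_one₀ (norm_nonneg _) m12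
  have q13 : ‖θ (e₁ - e₃)‖ ^ 2 ≤ 1 := pow_le_one₀ (norm_nonneg _) m13
  have q23 : ‖θ (e₂ - e₃)‖ ^ 2 ≤ 1 := pow_le_one₀ (norm_nonneg _) m23
  have p12 := sq_nonneg ‖θ (e₁ - e₂)‖
  have p13 := sq_nonneg ‖θ (e₁ - e₃)‖
  have p23 := sq_nonneg ‖θ (e₂ - e₃)‖
  have f23 : ‖θ (e₂ - e₃)‖ ^ 2 = 1 := by
    apply le_antisymm q23
    have : ‖θ (e₁ - e₂)‖ ^ 2 * ‖θ (e₁ - e₃)‖ ^ 2 ≤ 1 := mul_le_one₀ q12 p13 q13
    nlinarith
  rw [f23, mul_one] at hd
  have f13 : ‖θ (e₁ - e₃)‖ ^ 2 = 1 := by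
    apply le_antisymm q13
    nlinarith
  rw [f13, mul_one] at hd
  exact ⟨h.1, r1, r2, r3, (pow_eq_one_iff_of_nonneg (norm_nonneg _) two_ne_zero).1 hd,
    (pow_eq_one_iff_of_nonneg (norm_nonneg _) two_ne_zero).1 f13,
    (pow_eq_one_iff_of_nonneg (norm_nonneg _) two_ne_zero).1 f23,
    fun z hz => absurd hz (Finset.notMem_empty z)⟩

/-- the roots are fixed by the inertia groups -/
lemma root_fix {p : ℕ} [Fact p.Prime] {θ : AlgebraicClosure ℚ →+* PadicAlgCl p}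
    {g : AlgebraicClosure ℚ ≃ₐ[ℚ] AlgebraicClosure ℚ} (hg : Triv θ g)
    {e₁ e₂ e₃ : AlgebraicClosure ℚ} (hrt : Rt a₀ b₀ e₁ e₂ e₃) (hgd : Gd θ (nd0 hrt))
    (ga : g a₀ = a₀) (gb : g b₀ = b₀) : g e₁ = e₁ := by
  have h1 : (g e₁) ^ 3 + a₀ * g e₁ + b₀ = 0 := by
    have := congrArg g hrt.root1
    simp only [map_add, map_mul, map_pow, map_zero, ga, gb] at this
    exact this
  rw [hrt.fac] at h1
  have h2 : ‖θ (g e₁ - e₁)‖ < 1 := hg e₁ hgd.e₁
  rcases mul_eq_zero.1 h1 with h3 | h3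
  · rcases mul_eq_zero.1 h3 with h4 | h4
    · exact sub_eq_zero.1 h4
    · exfalso
      rw [sub_eq_zero.1 h4] at h2
      have h5 : ‖θ (e₁ - e₂)‖ = 1 := hgd.d12
      have h6 : ‖θ (e₂ - e₁)‖ = ‖θ (e₁ - e₂)‖ := by rw [← norm_neg, ← map_neg, neg_sub]
      rw [h6, h5] at h2
      exact lt_irrefl _ h2
  · exfalso
    rw [sub_eq_zero.1 h3] at h2
    have h5 : ‖θ (e₁ - e₃)‖ = 1 := hgd.d13
    have h6 : ‖θ (e₃ - e₁)‖ = ‖θ (e₁ - e₃)‖ := by rw [← norm_neg, ← map_neg, neg_sub]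
    rw [h6, h5] at h2
    exact lt_irrefl _ h2

lemma dt_fix (c : Ch a₀ b₀) {p : ℕ} [Fact p.Prime] (hp : 2 < p)
    {θp : AlgebraicClosure ℚ →+* PadicAlgCl p} (hgd : Gd θp (c.N 0))
    {g : AlgebraicClosure ℚ ≃ₐ[ℚ] AlgebraicClosure ℚ} (hg : Triv θp g)
    (hfix : ∀ z ∈ Ch.dt (c.N 0), g z = z) (n : ℕ) : ∀ z ∈ Ch.dt (c.N n), g z = z := by
  induction n with
  | zero => exact hfix
  | succ n ih =>
    have hsn : g (c.s n) = c.s n := by
      apply fix_sqrt hp hg ((c.gd hp hgd n).s_norm (c.hs n))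
      rw [c.hs, map_mul, map_sub, map_sub, ih _ (by simp [Ch.dt]), ih _ (by simp [Ch.dt]),
        ih _ (by simp [Ch.dt])]
    exact c.dt_up (RingHom.eqLocusField (g : AlgebraicClosure ℚ →+* AlgebraicClosure ℚ)
      (RingHom.id _)) ih hsn

/-- the choice of the labels -/
lemma exists_label (θ : AlgebraicClosure ℚ →+* PadicAlgCl 2) (hD : Disc a₀ b₀) :
    ∃ (e₁ e₂ e₃ : AlgebraicClosure ℚ) (h : Rt a₀ b₀ e₁ e₂ e₃), ‖θ (nd0 h).K‖ < 1 ∨
      (‖θ (nd0 h).K‖ = 1 ∧ ‖θ (1 - (nd0 h).K)‖ = 1) := by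
  obtain ⟨e₁, e₂, e₃, h⟩ := exists_Rt hD
  rcases lt_trichotomy ‖θ (e₁ - e₃)‖ ‖θ (e₁ - e₂)‖ with h1 | h1 | h1
  · exact ⟨_, _, _, h, Or.inl (nd0_K θ h h1)⟩
  · have h3 : ‖θ (e₂ - e₃)‖ ≤ ‖θ (e₁ - e₂)‖ := by
      have : θ (e₂ - e₃) = θ (e₁ - e₃) - θ (e₁ - e₂) := by rw [← map_sub]; congr 1; ring
      rw [this, sub_eq_add_neg]
      refine (IsUltrametricDist.norm_add_le_max _ _).trans ?_
      rw [norm_neg, h1, max_self]
    rcases h3.lt_or_eq with h2 | h2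
    · refine ⟨_, _, _, h.swap12, Or.inl (nd0_K θ h.swap12 ?_)⟩
      have : ‖θ (e₂ - e₁)‖ = ‖θ (e₁ - e₂)‖ := by
        rw [← norm_neg, ← map_neg, neg_sub]
      rw [this]; exact h2
    · have n12 : ‖θ (e₁ - e₂)‖ ≠ 0 := norm_ne_zero_iff.2 ((map_ne_zero θ).2 (sub_ne_zero.2 h.n12))
      refine ⟨_, _, _, h, Or.inr ⟨?_, ?_⟩⟩
      · show ‖θ ((e₁ - e₃) / (e₁ - e₂))‖ = 1
        rw [map_div₀, norm_div, h1, div_self n12]
      · have e : 1 - (nd0 h).K = -((e₂ - e₃) / (e₁ - e₂)) := by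
          show 1 - (e₁ - e₃) / (e₁ - e₂) = _
          have := sub_ne_zero.2 h.n12
          field_simp
          ring
        rw [e, map_neg, norm_neg, map_div₀, norm_div, h2, div_self n12]
  · exact ⟨_, _, _, h.swap23, Or.inl (nd0_K θ h.swap23 h1)⟩

lemma K_second {θ : AlgebraicClosure ℚ →+* PadicAlgCl 2} (N : Nd a₀ b₀) {s : AlgebraicClosure ℚ}
    (hs : s ^ 2 = (N.e₁ - N.e₂) * (N.e₁ - N.e₃)) (hK : ‖θ N.K‖ = 1) (hK1 : ‖θ (1 - N.K)‖ = 1) :
    ‖θ (N.next s hs).K‖ < 1 := by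
  obtain ⟨σ, hσ⟩ : ∃ σ, σ = N.sg s := ⟨_, rfl⟩
  have hσ2 : σ ^ 2 = N.K := by rw [hσ]; exact sg_sq _ hs
  have nσ : ‖θ σ‖ = 1 := by
    have : ‖θ σ‖ ^ 2 = 1 := by rw [← norm_pow, ← map_pow, hσ2, hK]
    exact (pow_eq_one_iff_of_nonneg (norm_nonneg _) two_ne_zero).1 this
  have nu : ‖1 + θ σ‖ = 1 := by
    apply unit_of_mul (y := 1 - θ σ) (add_le (by rw [norm_one]) nσ.le)
      (sub_le (by rw [norm_one]) nσ.le)
    have e : (1 + θ σ) * (1 - θ σ) = θ (1 - N.K) := by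
      rw [← hσ2, map_sub, map_one, map_pow]; ring
    rw [e]; exact hK1
  rw [K_next, ← hσ, map_div₀, map_mul, map_pow, map_add, map_one, map_ofNat, norm_div, norm_mul,
    norm_pow, nu, nσ, n4]
  norm_num

/-- **the chain of a curve with good reduction** -/
theorem exists_uni (θ : AlgebraicClosure ℚ →+* PadicAlgCl 2) {p : ℕ} [Fact p.Prime] (hp : 2 < p)
    {θp : AlgebraicClosure ℚ →+* PadicAlgCl p} (h : GR0 θp a₀ b₀) :
    ∃ c : Ch a₀ b₀, 1 / 64 < ‖θ (c.N 0).K‖ ∧ ‖θ (c.N 0).K‖ < 1 ∧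
      Sgn (θ (c.N 0).K) (θ (c.g 0)) ∧ Gd θp (c.N 0) ∧
      ∀ g : AlgebraicClosure ℚ ≃ₐ[ℚ] AlgebraicClosure ℚ, Triv θp g → g a₀ = a₀ → g b₀ = b₀ →
        ∀ z ∈ Ch.dt (c.N 0), g z = z := by
  obtain ⟨e₁, e₂, e₃, hrt, hlab⟩ := exists_label θ (disc_of_GR h)
  obtain ⟨c, h0, hc⟩ := exists_chain (nd0 hrt) (fun N s => Sgn (θ N.K) (θ (N.sg s))) (by
    intro N
    obtain ⟨s, hs⟩ := IsAlgClosed.exists_pow_nat_eq ((N.e₁ - N.e₂) * (N.e₁ - N.e₃)) (n := 2)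
      (by norm_num)
    have h1 : (θ (N.sg s)) ^ 2 = θ N.K := by rw [← map_pow, sg_sq N hs]
    rcases exists_sgn h1 with h2 | h2
    · exact ⟨s, hs, h2⟩
    · refine ⟨-s, by rw [neg_sq]; exact hs, ?_⟩
      have e : N.sg (-s) = -N.sg s := by unfold Nd.sg; rw [neg_div]
      rw [e, map_neg]
      exact h2)
  have hgd0 : Gd θp (c.N 0) := by rw [h0]; exact gd_nd0 h hrt
  obtain ⟨m, hm⟩ : ∃ m, ‖θ (c.N m).K‖ < 1 := by
    rcases hlab with h1 | h1
    · exact ⟨0, by rw [h0]; exact h1⟩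
    · refine ⟨1, ?_⟩
      rw [c.hN 0]
      apply K_second
      · rw [h0]; exact h1.1
      · rw [h0]; exact h1.2
  obtain ⟨n, hn⟩ := exists_large (c.shift m) (θ := θ) (by
    show ‖θ (c.N (0 + m)).K‖ < 1
    rw [zero_add]; exact hm)
  refine ⟨(c.shift m).shift n, ?_, ?_, hc _, c.gd hp hgd0 _, ?_⟩
  · show 1 / 64 < ‖θ ((c.shift m).N (0 + n)).K‖
    rw [zero_add]; exact hn
  · exact ((c.shift m).K_norm (θ := θ) (by
      show ‖θ (c.N (0 + m)).K‖ < 1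
      rw [zero_add]; exact hm) _).1
  · intro g hg ga gb
    refine dt_fix c hp hgd0 hg ?_ _
    rw [h0]
    intro z hz
    have hgd : Gd θp (nd0 hrt) := gd_nd0 h hrt
    rw [Ch.dt, Finset.mem_union] at hz
    rcases hz with hz | hz
    · simp only [Finset.mem_insert, Finset.mem_singleton] at hz
      rcases hz with rfl | rfl | rfl | rfl | rfl | rfl | rfl
      · exact ga
      · exact gb
      · exact root_fix hg hrt hgd ga gb
      · exact root_fix hg hrt.swap12 (gd_nd0 h hrt.swap12) ga gb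
      · exact root_fix hg hrt.swap23.swap12 (gd_nd0 h hrt.swap23.swap12) ga gb
      · exact ga
      · exact gb
    · exact absurd hz (Finset.notMem_empty z)

/-- the system for one curve -/
theorem one_curve {θ : AlgebraicClosure ℚ →+* PadicAlgCl 2} {p : ℕ} [Fact p.Prime] (hp : 2 < p)
    {θp : AlgebraicClosure ℚ →+* PadicAlgCl p} (h : GR0 θp a₀ b₀)
    {X : AlgebraicClosure ℚ} (hX : X = ((2 ^ 9 * p ^ 3 : ℕ) : AlgebraicClosure ℚ)) :
    ∃ P : ℕ → Pt a₀ b₀, LinearIndependent ℤ P ∧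
      (∀ j, ∃ (N : Nd a₀ b₀) (y : AlgebraicClosure ℚ) (_ : X ≠ N.K)
        (h : (CV N.a N.b).toAffine.Nonsingular (xi N.e₁ N.e₂ N.e₃ X) y),
          P j = 2 • N.f (Affine.Point.some _ _ h)) ∧
      ∀ (L : Subfield (AlgebraicClosure ℚ)) [NumberField L], a₀ ∈ L → b₀ ∈ L →
        ¬ (p : ℤ) ∣ NumberField.discr L → ∀ m : ℕ →₀ ℤ, m ≠ 0 →
          ¬ InL L (m.sum fun n t => t • P n) := by
  have hpp : p.Prime := Fact.out
  have hp1 : (1 : ℝ) < p := by exact_mod_cast hpp.one_lt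
  obtain ⟨c, c1, c2, c3, c4, c5⟩ := exists_uni θ hp h
  have hX0 : X ≠ 0 := by
    rw [hX, Nat.cast_ne_zero]
    exact mul_ne_zero (pow_ne_zero _ two_ne_zero) (pow_ne_zero _ hpp.ne_zero)
  have nX2 : ‖θ X‖ ≤ (1 / 2 : ℝ) ^ 9 := by
    rw [hX, map_natCast, Nat.cast_mul, Nat.cast_pow, Nat.cast_pow, Nat.cast_ofNat, norm_mul,
      norm_pow, norm_pow, n2]
    have h3 : ‖((p : ℕ) : PadicAlgCl 2)‖ ≤ 1 := by exact_mod_cast int_le (p := 2) (p : ℤ)
    have h4 := pow_le_one₀ (norm_nonneg _) h3 (n := 3)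
    have h5 : (0 : ℝ) ≤ (1 / 2) ^ 9 := by positivity
    nlinarith
  have nXp : ‖θp X‖ = ((p : ℝ)⁻¹) ^ 3 := by
    rw [hX, map_natCast, Nat.cast_mul, Nat.cast_pow, Nat.cast_pow, Nat.cast_ofNat, norm_mul,
      norm_pow, norm_pow, norm_two hp, norm_p, one_pow, one_mul]
  have nXp1 : ‖θp X‖ < 1 := by
    rw [nXp]
    exact pow_lt_one₀ (by positivity) (inv_lt_one_of_one_lt₀ hp1) (by norm_num)
  have hXp : (p : ℝ) ^ 2 * ‖θp X‖ < 1 := by
    have hp0 : (p : ℝ) ≠ 0 := by linarith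
    have e : (p : ℝ) ^ 2 * ((p : ℝ)⁻¹) ^ 3 = (p : ℝ)⁻¹ := by field_simp
    rw [nXp, e]
    exact inv_lt_one_of_one_lt₀ hp1
  have hX2 : 4 * ‖θ X‖ < min ‖θ (c.N 0).K‖ (1 / 16) := by
    have h3 : 4 * ‖θ X‖ ≤ 1 / 128 := by
      norm_num at nX2
      linarith
    exact lt_of_le_of_lt h3 (lt_min (by linarith) (by norm_num))
  obtain ⟨r₀, ρ, hr, hρ, hXK, φ, hφ, hli⟩ := core c c2 c3 hp c4 h.1 h.2.1 hX0 hX2 hXp
  refine ⟨fun n => 2 • c.R (c.y_ns hr hρ hXK) (φ n), ?_, ?_, ?_⟩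
  · rw [linearIndependent_iff]
    intro l hl
    have h6 : Finsupp.linearCombination ℤ (fun j => c.R (c.y_ns hr hρ hXK) (φ j)) ((2 : ℤ) • l) =
        0 := by
      rw [map_zsmul, ← hl, Finsupp.linearCombination_apply, Finsupp.linearCombination_apply,
        Finsupp.sum, Finsupp.sum, Finset.smul_sum]
      refine Finset.sum_congr rfl fun n _ => ?_
      module
    have h7 := linearIndependent_iff.1 hli _ h6
    exact (smul_eq_zero.1 h7).resolve_left (by norm_num)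
  · intro j
    exact ⟨c.N (φ j), _, hXK _, c.y_ns hr hρ hXK (φ j), rfl⟩
  · intro L _ haL hbL hpL m hm hL
    obtain ⟨π, hπ⟩ := IsAlgClosed.exists_pow_nat_eq ((p : ℕ) : AlgebraicClosure ℚ) (n := 2)
      (by norm_num)
    obtain ⟨g, hg, gπ⟩ := exists_inertia θp hπ
    have hgL := fix_of_discr hg L hpL
    have ga := hgL _ haL
    have gb := hgL _ hbL
    have gX : g X = X := by rw [hX, map_natCast]
    have hfix := c5 g hg ga gb
    have hπ0 : π ≠ 0 := by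
      rintro rfl
      have : ((p : ℕ) : AlgebraicClosure ℚ) = 0 := by rw [← hπ]; ring
      exact hpp.ne_zero (by exact_mod_cast this)
    have gr : g r₀ = -r₀ := by
      have g1 : g (c.N 0).e₁ = (c.N 0).e₁ := hfix _ (by simp [Ch.dt])
      have g2 : g (c.N 0).e₂ = (c.N 0).e₂ := hfix _ (by simp [Ch.dt])
      have e : (r₀ / π ^ 3) ^ 2 =
          -(((c.N 0).e₁ - (c.N 0).e₂) * (2 : AlgebraicClosure ℚ) ^ 9 * (1 - X)) := by
        have h6 : (π ^ 3) ^ 2 = ((p : ℕ) : AlgebraicClosure ℚ) ^ 3 := by rw [← hπ]; ring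
        have h7 : ((p : ℕ) : AlgebraicClosure ℚ) ≠ 0 := by rw [← hπ]; exact pow_ne_zero _ hπ0
        rw [div_pow, h6, hr]
        have h8 : X = (2 : AlgebraicClosure ℚ) ^ 9 * ((p : ℕ) : AlgebraicClosure ℚ) ^ 3 := by
          rw [hX]; push_cast; ring
        rw [div_eq_iff (pow_ne_zero _ h7)]
        nth_rewrite 1 [h8]
        ring
      have nη : ‖θp (r₀ / π ^ 3)‖ = 1 := by
        have h6 : ‖θp (r₀ / π ^ 3)‖ ^ 2 = 1 := by
          rw [← norm_pow, ← map_pow, e, map_neg, norm_neg, map_mul, map_mul, norm_mul, norm_mul,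
            c4.d12, map_pow, map_ofNat, norm_pow, norm_two hp, map_sub, map_one, dom_sub,
            norm_one]
          · norm_num
          · rw [norm_one]; exact nXp1
        exact (pow_eq_one_iff_of_nonneg (norm_nonneg _) two_ne_zero).1 h6
      have gη : g (r₀ / π ^ 3) = r₀ / π ^ 3 := by
        apply fix_sqrt hp hg nη
        rw [e, map_neg, map_mul, map_mul, map_sub, map_sub, map_pow, map_ofNat, map_one, g1, g2, gX]
      rw [map_div₀, map_pow, gπ] at gη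
      have h7 : π ^ 3 ≠ 0 := pow_ne_zero _ hπ0
      have h8 : (-π) ^ 3 = -π ^ 3 := by ring
      rw [h8, div_neg, ← neg_div, div_left_inj' h7] at gη
      linear_combination -gη
    have hneg := neg_all c hp c4 hg hfix gX nXp1 hρ gr (c.y_ns hr hρ hXK) ga gb
    obtain ⟨T, hT⟩ : ∃ T, T = m.sum fun n t => t • 2 • c.R (c.y_ns hr hρ hXK) (φ n) := ⟨_, rfl⟩
    have hL' : InL L T := by rw [hT]; exact hL
    have hT1 : pmap (g : AlgebraicClosure ℚ →+* AlgebraicClosure ℚ) ga gb T = T := by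
      symm
      apply pmap_unique
      cases hc : coords T with
      | none => rfl
      | some z =>
        obtain ⟨k1, k2⟩ := hL' z hc
        simp only [Option.map_some, Option.some.injEq]
        exact Prod.ext (hgL _ k1).symm (hgL _ k2).symm
    have hT2 : pmap (g : AlgebraicClosure ℚ →+* AlgebraicClosure ℚ) ga gb T = -T := by
      rw [hT, Finsupp.sum, map_sum, ← Finset.sum_neg_distrib]
      refine Finset.sum_congr rfl fun n _ => ?_
      rw [map_zsmul, map_nsmul, hneg, smul_neg, smul_neg]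
    have hT3 : T + T = 0 := by
      nth_rewrite 1 [← hT1]
      rw [hT2, neg_add_cancel]
    have hT4 : T = (2 : ℤ) • Finsupp.linearCombination ℤ
        (fun j => c.R (c.y_ns hr hρ hXK) (φ j)) m := by
      rw [hT, Finsupp.linearCombination_apply, Finsupp.sum, Finsupp.sum, Finset.smul_sum]
      refine Finset.sum_congr rfl fun n _ => ?_
      module
    have hT5 : Finsupp.linearCombination ℤ
        (fun j => c.R (c.y_ns hr hρ hXK) (φ j)) ((4 : ℤ) • m) = 0 := by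
      rw [map_zsmul]
      rw [hT4] at hT3
      rw [← hT3]
      module
    have h6 := linearIndependent_iff.1 hli _ hT5
    exact hm ((smul_eq_zero.1 h6).resolve_left (by norm_num))

/-- **one isotropic system for all curves with good reduction** -/
theorem universal {p : ℕ} [Fact p.Prime] (hp : p ≠ 2)
    (θp : AlgebraicClosure ℚ →+* PadicAlgCl p) :
    ∃ P : (a b : AlgebraicClosure ℚ) → ℕ → Pt a b,
      (∀ a b c d, GR0 θp a b → GR0 θp c d →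
        ∀ x ∈ AddSubgroup.closure (Set.range (P a b)),
        ∀ y ∈ AddSubgroup.closure (Set.range (P c d)), cyc x y ∈ RatEquivZero a b c d) ∧
      (∀ a b, GR0 θp a b → LinearIndependent ℤ (P a b)) ∧
      ∀ a b, GR0 θp a b → ∀ (L : Subfield (AlgebraicClosure ℚ)) [NumberField L], a ∈ L → b ∈ L →
        ¬ (p : ℤ) ∣ NumberField.discr L → ∀ m : ℕ →₀ ℤ, m ≠ 0 →
          ¬ InL L (m.sum fun n t => t • P a b n) := by
  have hpp : p.Prime := Fact.out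
  have hp2 : 2 < p := lt_of_le_of_ne hpp.two_le (Ne.symm hp)
  obtain ⟨θ⟩ := exists_emb (PadicAlgCl 2)
  obtain ⟨X, hX⟩ : ∃ X : AlgebraicClosure ℚ, X = ((2 ^ 9 * p ^ 3 : ℕ) : AlgebraicClosure ℚ) :=
    ⟨_, rfl⟩
  have key : ∀ a b : AlgebraicClosure ℚ, ∃ P : ℕ → Pt a b, GR0 θp a b →
      LinearIndependent ℤ P ∧ (∀ j, ∃ (N : Nd a b) (y : AlgebraicClosure ℚ) (_ : X ≠ N.K)
        (h : (CV N.a N.b).toAffine.Nonsingular (xi N.e₁ N.e₂ N.e₃ X) y),
          P j = 2 • N.f (Affine.Point.some _ _ h)) ∧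
      ∀ (L : Subfield (AlgebraicClosure ℚ)) [NumberField L], a ∈ L → b ∈ L →
        ¬ (p : ℤ) ∣ NumberField.discr L → ∀ m : ℕ →₀ ℤ, m ≠ 0 →
          ¬ InL L (m.sum fun n t => t • P n) := by
    intro a b
    by_cases h : GR0 θp a b
    · obtain ⟨P, hP⟩ := one_curve (θ := θ) hp2 h hX
      exact ⟨P, fun _ => hP⟩
    · exact ⟨fun _ => 0, fun h' => absurd h' h⟩
  choose P hP using key
  refine ⟨P, ?_, fun a b h => (hP a b h).1, fun a b h => (hP a b h).2.2⟩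
  intro a b c d h h' x hx y' hy'
  obtain ⟨B, hB⟩ := exists_bil (disc_of_GR h) (disc_of_GR h')
  have h3 : B x y' = 0 := by
    refine closure_ortho B ?_ hx hy'
    rintro _ ⟨n, rfl⟩ _ ⟨n', rfl⟩
    obtain ⟨N, y, hN, hy, e⟩ := (hP a b h).2.1 n
    obtain ⟨N', z, hN', hz, e'⟩ := (hP c d h').2.1 n'
    rw [e, e', map_nsmul, map_nsmul, AddMonoidHom.nsmul_apply,
      ortho' (disc_of_GR h) (disc_of_GR h') B hB N N' hN hN' hy hz, smul_zero]
  rw [hB] at h3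
  exact (QuotientAddGroup.eq_zero_iff _).1 h3

end Pool.Agent.Run7.h780.TW
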